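import Mathlib

/-! The family of unicyclic graphs: vertices `u, v` (hubs), two roots, and levels `Z, H, G, L`. -/

set_option autoImplicit false

open Finset

namespace Pool.Agent.Helper353.PST

variable {Z H G L : Type}

/-- vertex type -/
abbrev VV (Z H G L : Type) : Type := (Bool ⊕ Bool) ⊕ ((Z ⊕ H) ⊕ (G ⊕ L))

/-- Adjacency: the hubs are joined to both roots, everything else hangs off by the parent maps. -/
def adjV (br : Z → Bool) (pz : H → Z) (ph : G → H) (pg : L → G) :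
    VV Z H G L → VV Z H G L → Prop
  | .inl (.inl _), .inl (.inr _) => True
  | .inl (.inr _), .inl (.inl _) => True
  | .inl (.inr x), .inr (.inl (.inl y)) => br y = x
  | .inr (.inl (.inl x)), .inl (.inr y) => br x = y
  | .inr (.inl (.inl x)), .inr (.inl (.inr y)) => pz y = x
  | .inr (.inl (.inr x)), .inr (.inl (.inl y)) => pz x = y
  | .inr (.inl (.inr x)), .inr (.inr (.inl y)) => ph y = x
  | .inr (.inr (.inl x)), .inr (.inl (.inr y)) => ph x = y
  | .inr (.inr (.inl x)), .inr (.inr (.inr y)) => pg y = x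
  | .inr (.inr (.inr x)), .inr (.inr (.inl y)) => pg x = y
  | _, _ => False

/-- The graph. -/
def gr (br : Z → Bool) (pz : H → Z) (ph : G → H) (pg : L → G) : SimpleGraph (VV Z H G L) where
  Adj := adjV br pz ph pg
  symm := ⟨by
    rintro ((x | x) | ((x | x) | (x | x))) ((y | y) | ((y | y) | (y | y))) h <;>
      first
        | exact h
        | exact trivial⟩
  loopless := ⟨by
    rintro ((x | x) | ((x | x) | (x | x))) h <;> exact h⟩

variable (br : Z → Bool) (pz : H → Z) (ph : G → H) (pg : L → G)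

theorem ad_uu (x : Bool) (y : Bool) : (gr br pz ph pg).Adj (Sum.inl (Sum.inl x)) (Sum.inl (Sum.inl y)) ↔ False := Iff.rfl
theorem ad_ur (x : Bool) (y : Bool) : (gr br pz ph pg).Adj (Sum.inl (Sum.inl x)) (Sum.inl (Sum.inr y)) ↔ True := Iff.rfl
theorem ad_uz (x : Bool) (y : Z) : (gr br pz ph pg).Adj (Sum.inl (Sum.inl x)) (Sum.inr (Sum.inl (Sum.inl y))) ↔ False := Iff.rfl
theorem ad_uh (x : Bool) (y : H) : (gr br pz ph pg).Adj (Sum.inl (Sum.inl x)) (Sum.inr (Sum.inl (Sum.inr y))) ↔ False := Iff.rfl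
theorem ad_ug (x : Bool) (y : G) : (gr br pz ph pg).Adj (Sum.inl (Sum.inl x)) (Sum.inr (Sum.inr (Sum.inl y))) ↔ False := Iff.rfl
theorem ad_ul (x : Bool) (y : L) : (gr br pz ph pg).Adj (Sum.inl (Sum.inl x)) (Sum.inr (Sum.inr (Sum.inr y))) ↔ False := Iff.rfl
theorem ad_ru (x : Bool) (y : Bool) : (gr br pz ph pg).Adj (Sum.inl (Sum.inr x)) (Sum.inl (Sum.inl y)) ↔ True := Iff.rfl
theorem ad_rr (x : Bool) (y : Bool) : (gr br pz ph pg).Adj (Sum.inl (Sum.inr x)) (Sum.inl (Sum.inr y)) ↔ False := Iff.rfl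
theorem ad_rz (x : Bool) (y : Z) : (gr br pz ph pg).Adj (Sum.inl (Sum.inr x)) (Sum.inr (Sum.inl (Sum.inl y))) ↔ br y = x := Iff.rfl
theorem ad_rh (x : Bool) (y : H) : (gr br pz ph pg).Adj (Sum.inl (Sum.inr x)) (Sum.inr (Sum.inl (Sum.inr y))) ↔ False := Iff.rfl
theorem ad_rg (x : Bool) (y : G) : (gr br pz ph pg).Adj (Sum.inl (Sum.inr x)) (Sum.inr (Sum.inr (Sum.inl y))) ↔ False := Iff.rfl
theorem ad_rl (x : Bool) (y : L) : (gr br pz ph pg).Adj (Sum.inl (Sum.inr x)) (Sum.inr (Sum.inr (Sum.inr y))) ↔ False := Iff.rfl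
theorem ad_zu (x : Z) (y : Bool) : (gr br pz ph pg).Adj (Sum.inr (Sum.inl (Sum.inl x))) (Sum.inl (Sum.inl y)) ↔ False := Iff.rfl
theorem ad_zr (x : Z) (y : Bool) : (gr br pz ph pg).Adj (Sum.inr (Sum.inl (Sum.inl x))) (Sum.inl (Sum.inr y)) ↔ br x = y := Iff.rfl
theorem ad_zz (x : Z) (y : Z) : (gr br pz ph pg).Adj (Sum.inr (Sum.inl (Sum.inl x))) (Sum.inr (Sum.inl (Sum.inl y))) ↔ False := Iff.rfl
theorem ad_zh (x : Z) (y : H) : (gr br pz ph pg).Adj (Sum.inr (Sum.inl (Sum.inl x))) (Sum.inr (Sum.inl (Sum.inr y))) ↔ pz y = x := Iff.rfl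
theorem ad_zg (x : Z) (y : G) : (gr br pz ph pg).Adj (Sum.inr (Sum.inl (Sum.inl x))) (Sum.inr (Sum.inr (Sum.inl y))) ↔ False := Iff.rfl
theorem ad_zl (x : Z) (y : L) : (gr br pz ph pg).Adj (Sum.inr (Sum.inl (Sum.inl x))) (Sum.inr (Sum.inr (Sum.inr y))) ↔ False := Iff.rfl
theorem ad_hu (x : H) (y : Bool) : (gr br pz ph pg).Adj (Sum.inr (Sum.inl (Sum.inr x))) (Sum.inl (Sum.inl y)) ↔ False := Iff.rfl
theorem ad_hr (x : H) (y : Bool) : (gr br pz ph pg).Adj (Sum.inr (Sum.inl (Sum.inr x))) (Sum.inl (Sum.inr y)) ↔ False := Iff.rfl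
theorem ad_hz (x : H) (y : Z) : (gr br pz ph pg).Adj (Sum.inr (Sum.inl (Sum.inr x))) (Sum.inr (Sum.inl (Sum.inl y))) ↔ pz x = y := Iff.rfl
theorem ad_hh (x : H) (y : H) : (gr br pz ph pg).Adj (Sum.inr (Sum.inl (Sum.inr x))) (Sum.inr (Sum.inl (Sum.inr y))) ↔ False := Iff.rfl
theorem ad_hg (x : H) (y : G) : (gr br pz ph pg).Adj (Sum.inr (Sum.inl (Sum.inr x))) (Sum.inr (Sum.inr (Sum.inl y))) ↔ ph y = x := Iff.rfl
theorem ad_hl (x : H) (y : L) : (gr br pz ph pg).Adj (Sum.inr (Sum.inl (Sum.inr x))) (Sum.inr (Sum.inr (Sum.inr y))) ↔ False := Iff.rfl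
theorem ad_gu (x : G) (y : Bool) : (gr br pz ph pg).Adj (Sum.inr (Sum.inr (Sum.inl x))) (Sum.inl (Sum.inl y)) ↔ False := Iff.rfl
theorem ad_gr (x : G) (y : Bool) : (gr br pz ph pg).Adj (Sum.inr (Sum.inr (Sum.inl x))) (Sum.inl (Sum.inr y)) ↔ False := Iff.rfl
theorem ad_gz (x : G) (y : Z) : (gr br pz ph pg).Adj (Sum.inr (Sum.inr (Sum.inl x))) (Sum.inr (Sum.inl (Sum.inl y))) ↔ False := Iff.rfl
theorem ad_gh (x : G) (y : H) : (gr br pz ph pg).Adj (Sum.inr (Sum.inr (Sum.inl x))) (Sum.inr (Sum.inl (Sum.inr y))) ↔ ph x = y := Iff.rfl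
theorem ad_gg (x : G) (y : G) : (gr br pz ph pg).Adj (Sum.inr (Sum.inr (Sum.inl x))) (Sum.inr (Sum.inr (Sum.inl y))) ↔ False := Iff.rfl
theorem ad_gl (x : G) (y : L) : (gr br pz ph pg).Adj (Sum.inr (Sum.inr (Sum.inl x))) (Sum.inr (Sum.inr (Sum.inr y))) ↔ pg y = x := Iff.rfl
theorem ad_lu (x : L) (y : Bool) : (gr br pz ph pg).Adj (Sum.inr (Sum.inr (Sum.inr x))) (Sum.inl (Sum.inl y)) ↔ False := Iff.rfl
theorem ad_lr (x : L) (y : Bool) : (gr br pz ph pg).Adj (Sum.inr (Sum.inr (Sum.inr x))) (Sum.inl (Sum.inr y)) ↔ False := Iff.rfl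
theorem ad_lz (x : L) (y : Z) : (gr br pz ph pg).Adj (Sum.inr (Sum.inr (Sum.inr x))) (Sum.inr (Sum.inl (Sum.inl y))) ↔ False := Iff.rfl
theorem ad_lh (x : L) (y : H) : (gr br pz ph pg).Adj (Sum.inr (Sum.inr (Sum.inr x))) (Sum.inr (Sum.inl (Sum.inr y))) ↔ False := Iff.rfl
theorem ad_lg (x : L) (y : G) : (gr br pz ph pg).Adj (Sum.inr (Sum.inr (Sum.inr x))) (Sum.inr (Sum.inr (Sum.inl y))) ↔ pg x = y := Iff.rfl
theorem ad_ll (x : L) (y : L) : (gr br pz ph pg).Adj (Sum.inr (Sum.inr (Sum.inr x))) (Sum.inr (Sum.inr (Sum.inr y))) ↔ False := Iff.rfl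

theorem gr_connected : (gr br pz ph pg).Connected := by
  have hu0 : ∀ c, (gr br pz ph pg).Reachable (Sum.inl (Sum.inl false)) (Sum.inl (Sum.inr c)) :=
    fun c => SimpleGraph.Adj.reachable ((ad_ur br pz ph pg false c).2 trivial)
  have hz : ∀ z, (gr br pz ph pg).Reachable (Sum.inl (Sum.inl false))
      (Sum.inr (Sum.inl (Sum.inl z))) := fun z =>
    (hu0 (br z)).trans (SimpleGraph.Adj.reachable ((ad_rz br pz ph pg (br z) z).2 rfl))
  have hh : ∀ h, (gr br pz ph pg).Reachable (Sum.inl (Sum.inl false))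
      (Sum.inr (Sum.inl (Sum.inr h))) := fun h =>
    (hz (pz h)).trans (SimpleGraph.Adj.reachable ((ad_zh br pz ph pg (pz h) h).2 rfl))
  have hg : ∀ g, (gr br pz ph pg).Reachable (Sum.inl (Sum.inl false))
      (Sum.inr (Sum.inr (Sum.inl g))) := fun g =>
    (hh (ph g)).trans (SimpleGraph.Adj.reachable ((ad_hg br pz ph pg (ph g) g).2 rfl))
  have hl : ∀ l, (gr br pz ph pg).Reachable (Sum.inl (Sum.inl false))
      (Sum.inr (Sum.inr (Sum.inr l))) := fun l =>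
    (hg (pg l)).trans (SimpleGraph.Adj.reachable ((ad_gl br pz ph pg (pg l) l).2 rfl))
  have hu : ∀ y, (gr br pz ph pg).Reachable (Sum.inl (Sum.inl false)) y := by
    rintro ((x | x) | ((x | x) | (x | x)))
    · exact (hu0 false).trans (SimpleGraph.Adj.reachable ((ad_ru br pz ph pg false x).2 trivial))
    · exact hu0 x
    · exact hz x
    · exact hh x
    · exact hg x
    · exact hl x
  haveI : Nonempty (VV Z H G L) := ⟨Sum.inl (Sum.inl false)⟩
  exact SimpleGraph.Connected.mk fun y z => (hu y).symm.trans (hu z)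

open Classical in
theorem two_mul_ncard {V : Type} [Fintype V] (G : SimpleGraph V) :
    2 * G.edgeSet.ncard = ∑ y, ∑ z, (if G.Adj y z then 1 else 0) := by
  have h1 : G.edgeSet.ncard = G.edgeFinset.card := by
    rw [Set.ncard_eq_toFinset_card', SimpleGraph.edgeFinset]
  rw [h1, ← G.sum_degrees_eq_twice_card_edges]
  refine Finset.sum_congr rfl fun y _ => ?_
  rw [Finset.sum_boole, ← SimpleGraph.card_neighborFinset_eq_degree]
  simp only [Nat.cast_id]
  congr 1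
  ext z
  simp

variable [Fintype Z] [Fintype H] [Fintype G] [Fintype L]

open Classical in
theorem gr_ncard : (gr br pz ph pg).edgeSet.ncard = Fintype.card (VV Z H G L) := by
  have h := two_mul_ncard (gr br pz ph pg)
  have e1 : ∑ c : Bool, ∑ z : Z, (if br z = c then 1 else 0) = Fintype.card Z := by
    rw [Finset.sum_comm]; simp
  have e2 : ∑ z : Z, ∑ h : H, (if pz h = z then 1 else 0) = Fintype.card H := by
    rw [Finset.sum_comm]; simp
  have e3 : ∑ h : H, ∑ g : G, (if ph g = h then 1 else 0) = Fintype.card G := by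
    rw [Finset.sum_comm]; simp
  have e4 : ∑ g : G, ∑ l : L, (if pg l = g then 1 else 0) = Fintype.card L := by
    rw [Finset.sum_comm]; simp
  have f1 : ∑ z : Z, ∑ c : Bool, (if br z = c then 1 else 0) = Fintype.card Z := by simp
  have f2 : ∑ h : H, ∑ z : Z, (if pz h = z then 1 else 0) = Fintype.card H := by simp
  have f3 : ∑ g : G, ∑ h : H, (if ph g = h then 1 else 0) = Fintype.card G := by simp
  have f4 : ∑ l : L, ∑ g : G, (if pg l = g then 1 else 0) = Fintype.card L := by simp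
  simp only [Fintype.sum_sum_type, ad_uu, ad_ur, ad_uz, ad_uh, ad_ug, ad_ul, ad_ru, ad_rr, ad_rz,
    ad_rh, ad_rg, ad_rl, ad_zu, ad_zr, ad_zz, ad_zh, ad_zg, ad_zl, ad_hu, ad_hr, ad_hz, ad_hh,
    ad_hg, ad_hl, ad_gu, ad_gr, ad_gz, ad_gh, ad_gg, ad_gl, ad_lu, ad_lr, ad_lz, ad_lh, ad_lg,
    ad_ll, if_true, if_false, Finset.sum_const_zero, add_zero, zero_add, Finset.sum_add_distrib,
    e1, e2, e3, e4, f1, f2, f3, f4, Finset.sum_const, Finset.card_univ, Fintype.card_bool,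
    smul_eq_mul, mul_one] at h
  simp only [VV, Fintype.card_sum, Fintype.card_bool]
  omega

theorem adj_mulVec {V : Type} [Fintype V] (G : SimpleGraph V) [DecidableRel G.Adj]
    (v : V → ℂ) (y : V) :
    (G.adjMatrix ℂ).mulVec v y = ∑ z, if G.Adj y z then v z else 0 := by
  simp only [Matrix.mulVec, dotProduct, SimpleGraph.adjMatrix_apply]
  refine Finset.sum_congr rfl fun z _ => ?_
  split_ifs <;> simp

/-- The eigenvector with eigenvalue `θ`. -/
noncomputable def psi (br : Z → Bool) (ph : G → H) (M κ : ℂ) (lam rho : Bool → ℂ) (s : Z → ℂ)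
    (b : H → ℂ) (θ : ℂ) : VV Z H G L → ℂ :=
  Sum.elim (Sum.elim (fun _ => θ * (θ ^ 4 - M * θ ^ 2 + κ))
      (fun c => 2 * (θ ^ 4 - lam c * θ ^ 2 + rho c)))
    (Sum.elim (Sum.elim (fun z => 2 * θ * (θ ^ 2 - s z)) (fun h => 2 * (θ ^ 2 - b h)))
      (Sum.elim (fun _ => 2 * θ) (fun _ => 2)))

open Classical in
theorem mulVec_psi [DecidableRel (gr br pz ph pg).Adj] (M κ : ℂ) (lam rho : Bool → ℂ) (s : Z → ℂ)
    (b : H → ℂ)
    (hZ1 : ∀ c, (∑ z, if br z = c then (1 : ℂ) else 0) = M - lam c)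
    (hZ2 : ∀ c, (∑ z, if br z = c then s z else 0) = κ - rho c)
    (hH1 : ∀ z, (∑ h, if pz h = z then (1 : ℂ) else 0) = lam (br z) - s z)
    (hH2 : ∀ z, (∑ h, if pz h = z then b h else 0) = rho (br z))
    (hG : ∀ h, (∑ g, if ph g = h then (1 : ℂ) else 0) = s (pz h) - b h)
    (hL : ∀ g, (∑ l, if pg l = g then (1 : ℂ) else 0) = b (ph g))
    (θ : ℂ)
    (hP : θ ^ 2 * (θ ^ 4 - M * θ ^ 2 + κ) - 2 * (θ ^ 4 - lam false * θ ^ 2 + rho false)
      - 2 * (θ ^ 4 - lam true * θ ^ 2 + rho true) = 0) :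
    ((gr br pz ph pg).adjMatrix ℂ).mulVec (psi br ph M κ lam rho s b θ) =
      θ • psi br ph M κ lam rho s b θ := by
  funext y
  rw [adj_mulVec]
  simp only [Fintype.sum_sum_type]
  rcases y with ((x | x) | ((x | x) | (x | x))) <;>
    simp only [ad_uu, ad_ur, ad_uz, ad_uh, ad_ug, ad_ul, ad_ru, ad_rr, ad_rz,
    ad_rh, ad_rg, ad_rl, ad_zu, ad_zr, ad_zz, ad_zh, ad_zg, ad_zl, ad_hu, ad_hr, ad_hz, ad_hh,
    ad_hg, ad_hl, ad_gu, ad_gr, ad_gz, ad_gh, ad_gg, ad_gl, ad_lu, ad_lr, ad_lz, ad_lh, ad_lg,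
    ad_ll, if_true, if_false, Finset.sum_const_zero, add_zero, zero_add, psi, Sum.elim_inl,
    Sum.elim_inr, Pi.smul_apply, smul_eq_mul]
  · rw [Fintype.sum_bool]
    linear_combination (-1 : ℂ) * hP
  · have h1 : (∑ z, if br z = x then 2 * θ * (θ ^ 2 - s z) else 0) =
        2 * θ * (θ ^ 2 * (M - lam x) - (κ - rho x)) := by
      rw [← hZ1 x, ← hZ2 x, Finset.mul_sum, ← Finset.sum_sub_distrib, Finset.mul_sum]
      refine Finset.sum_congr rfl fun z _ => ?_
      split_ifs <;> ring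
    rw [h1, Fintype.sum_bool]
    ring
  · have h1 : (∑ h, if pz h = x then 2 * (θ ^ 2 - b h) else 0) =
        2 * (θ ^ 2 * (lam (br x) - s x) - rho (br x)) := by
      rw [← hH1 x, ← hH2 x, Finset.mul_sum, ← Finset.sum_sub_distrib, Finset.mul_sum]
      refine Finset.sum_congr rfl fun z _ => ?_
      split_ifs <;> ring
    rw [h1]
    simp only [Finset.sum_ite_eq, Finset.mem_univ, if_true]
    ring
  · have h1 : (∑ g, if ph g = x then 2 * θ else 0) = 2 * θ * (s (pz x) - b x) := by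
      rw [← hG x, Finset.mul_sum]
      refine Finset.sum_congr rfl fun z _ => ?_
      split_ifs <;> ring
    rw [h1]
    simp only [Finset.sum_ite_eq, Finset.mem_univ, if_true]
    ring
  · have h1 : (∑ l, if pg l = x then (2 : ℂ) else 0) = 2 * b (ph x) := by
      rw [← hL x, Finset.mul_sum]
      refine Finset.sum_congr rfl fun z _ => ?_
      split_ifs <;> ring
    rw [h1]
    simp only [Finset.sum_ite_eq, Finset.mem_univ, if_true]
    ring
  · simp only [Finset.sum_ite_eq, Finset.mem_univ, if_true]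
    ring

end Pool.Agent.Helper353.PST
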