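import Pool.Agent.Helper353.PST.Fam

/-! Perfect state transfer in the family. -/

set_option autoImplicit false

open Finset

namespace Pool.Agent.Helper353.PST

theorem pow_mulVec_of_eigen {V : Type*} [Fintype V] [DecidableEq V] (M : Matrix V V ℂ)
    (v : V → ℂ) (μ : ℂ) (h : M.mulVec v = μ • v) (n : ℕ) :
    (M ^ n).mulVec v = μ ^ n • v := by
  induction n with
  | zero => simp
  | succ n ih =>
    rw [pow_succ, ← Matrix.mulVec_mulVec, h, Matrix.mulVec_smul, ih, smul_smul, pow_succ]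
    congr 1
    ring

theorem exp_mulVec_of_eigen {V : Type*} [Fintype V] [DecidableEq V] (M : Matrix V V ℂ)
    (v : V → ℂ) (μ : ℂ) (h : M.mulVec v = μ • v) :
    (NormedSpace.exp M).mulVec v = Complex.exp μ • v := by
  open scoped Matrix.Norms.Operator in
  have h1 : HasSum (fun n : ℕ => ((n.factorial : ℂ)⁻¹) • M ^ n) (NormedSpace.exp M) :=
    NormedSpace.exp_series_hasSum_exp' M
  have h2 : HasSum (fun n : ℕ => ((n.factorial : ℂ)⁻¹) • μ ^ n) (Complex.exp μ) := by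
    have := NormedSpace.exp_series_hasSum_exp' (𝕂 := ℂ) μ
    rwa [← Complex.exp_eq_exp_ℂ] at this
  funext x
  have hx : ∀ N : Matrix V V ℂ, N.mulVec v x = ∑ y, N x y * v y := fun N => rfl
  have h3 : HasSum (fun n : ℕ => (((n.factorial : ℂ)⁻¹) • M ^ n).mulVec v x)
      ((NormedSpace.exp M).mulVec v x) := by
    simp only [hx]
    refine hasSum_sum fun y _ => ?_
    refine HasSum.mul_right (v y) ?_
    have := h1.map (f := fun n : ℕ => ((n.factorial : ℂ)⁻¹) • M ^ n)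
      (⟨⟨fun N : Matrix V V ℂ => N x y, rfl⟩, fun _ _ => rfl⟩ : Matrix V V ℂ →+ ℂ)
      (by exact (continuous_apply y).comp (continuous_apply x))
    exact this
  have h4 : HasSum (fun n : ℕ => (((n.factorial : ℂ)⁻¹) • M ^ n).mulVec v x)
      ((Complex.exp μ • v) x) := by
    have h5 := h2.mul_right (v x)
    have h6 : (fun n : ℕ => (((n.factorial : ℂ)⁻¹) • M ^ n).mulVec v x) =
        fun n : ℕ => ((n.factorial : ℂ)⁻¹) • μ ^ n * v x := by
      funext n
      rw [Matrix.smul_mulVec, pow_mulVec_of_eigen M v μ h n]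
      simp only [Pi.smul_apply, smul_eq_mul]
      ring
    rw [h6]
    exact h5
  exact h3.unique h4

variable {Z H G L : Type} (br : Z → Bool) (pz : H → Z) (ph : G → H) (pg : L → G)
variable [Fintype Z] [Fintype H] [Fintype G] [Fintype L]

/-- `e_u + e_v` -/
def svec (Z H G L : Type) : VV Z H G L → ℂ :=
  Sum.elim (Sum.elim (fun _ => 1) (fun _ => 0))
    (Sum.elim (Sum.elim (fun _ => 0) (fun _ => 0)) (Sum.elim (fun _ => 0) (fun _ => 0)))

/-- `e_u - e_v` -/
def dvec (Z H G L : Type) : VV Z H G L → ℂ :=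
  Sum.elim (Sum.elim (fun b => if b then -1 else 1) (fun _ => 0))
    (Sum.elim (Sum.elim (fun _ => 0) (fun _ => 0)) (Sum.elim (fun _ => 0) (fun _ => 0)))

set_option linter.unusedSectionVars false
set_option linter.unusedSimpArgs false

open Classical in
theorem mulVec_dvec [DecidableRel (gr br pz ph pg).Adj] :
    ((gr br pz ph pg).adjMatrix ℂ).mulVec (dvec Z H G L) = 0 := by
  funext y
  rw [adj_mulVec]
  simp only [Fintype.sum_sum_type]
  rcases y with ((x | x) | ((x | x) | (x | x))) <;>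
    simp [ad_uu, ad_ur, ad_uz, ad_uh, ad_ug, ad_ul, ad_ru, ad_rr, ad_rz,
    ad_rh, ad_rg, ad_rl, ad_zu, ad_zr, ad_zz, ad_zh, ad_zg, ad_zl, ad_hu, ad_hr, ad_hz, ad_hh,
    ad_hg, ad_hl, ad_gu, ad_gr, ad_gz, ad_gh, ad_gg, ad_gl, ad_lu, ad_lr, ad_lz, ad_lh, ad_lg,
    ad_ll, dvec]

theorem svec_eq (M κ : ℂ) (lam rho : Bool → ℂ) (s : Z → ℂ) (b : H → ℂ) (q r : ℂ)
    (hr : r ^ 2 = 2) (h1 : q ^ 2 ≠ 1) (h9 : q ^ 2 ≠ 9) (hq : q ≠ 0) :
    svec Z H G L =
      (1 / (2 * r * (32 * (q ^ 2 - 1)))) •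
        (psi br ph M κ lam rho s b r - psi br ph M κ lam rho s b (-r)) +
      (1 / (6 * r * (32 * (9 - q ^ 2)))) •
        (psi br ph M κ lam rho s b (3 * r) - psi br ph M κ lam rho s b (-(3 * r))) +
      (1 / (2 * q * r * (4 * ((q ^ 2 - 1) * (q ^ 2 - 9))))) •
        (psi br ph M κ lam rho s b (q * r) - psi br ph M κ lam rho s b (-(q * r))) := by
  have hr0 : r ≠ 0 := by
    rintro rfl
    norm_num at hr
  have a1 : q ^ 2 - 1 ≠ 0 := sub_ne_zero.2 h1
  have a9 : q ^ 2 - 9 ≠ 0 := sub_ne_zero.2 h9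
  have a9' : 9 - q ^ 2 ≠ 0 := sub_ne_zero.2 (Ne.symm h9)
  have hr4 : r ^ 4 = 4 := by
    calc r ^ 4 = (r ^ 2) ^ 2 := by ring
      _ = 4 := by rw [hr]; norm_num
  have key : ∀ (θ t C X : ℂ), θ ≠ 0 → C ≠ 0 → X = t → 
      (1 / (2 * θ * C)) * (θ * X - (-θ) * X) = t / C := by
    intro θ t C X hθ hC hX
    rw [hX]
    field_simp
    ring
  funext y
  rcases y with ((x | x) | ((x | x) | (x | x)))
  · simp only [svec, psi, Sum.elim_inl, Sum.elim_inr, Pi.add_apply, Pi.smul_apply, Pi.sub_apply,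
      smul_eq_mul]
    have e1 : (1 / (2 * r * (32 * (q ^ 2 - 1)))) * (r * (r ^ 4 - M * r ^ 2 + κ) -
        -r * ((-r) ^ 4 - M * (-r) ^ 2 + κ)) = (4 - M * 2 + κ) / (32 * (q ^ 2 - 1)) := by
      rw [show (-r) ^ 4 = r ^ 4 by ring, show (-r) ^ 2 = r ^ 2 by ring, hr, hr4]
      field_simp
      ring
    have e2 : (1 / (6 * r * (32 * (9 - q ^ 2)))) * (3 * r * ((3 * r) ^ 4 - M * (3 * r) ^ 2 + κ) -
        -(3 * r) * ((-(3 * r)) ^ 4 - M * (-(3 * r)) ^ 2 + κ)) =
        (324 - M * 18 + κ) / (32 * (9 - q ^ 2)) := by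
      rw [show (-(3 * r)) ^ 4 = (3 * r) ^ 4 by ring, show (-(3 * r)) ^ 2 = (3 * r) ^ 2 by ring,
        mul_pow, mul_pow, hr, hr4]
      field_simp
      ring
    have e3 : (1 / (2 * q * r * (4 * ((q ^ 2 - 1) * (q ^ 2 - 9))))) *
        (q * r * ((q * r) ^ 4 - M * (q * r) ^ 2 + κ) -
        -(q * r) * ((-(q * r)) ^ 4 - M * (-(q * r)) ^ 2 + κ)) =
        (4 * q ^ 4 - M * (2 * q ^ 2) + κ) / (4 * ((q ^ 2 - 1) * (q ^ 2 - 9))) := by
      rw [show (-(q * r)) ^ 4 = (q * r) ^ 4 by ring, show (-(q * r)) ^ 2 = (q * r) ^ 2 by ring,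
        mul_pow, mul_pow, hr, hr4]
      field_simp
      ring
    rw [e1, e2, e3]
    field_simp
    ring
  · simp only [svec, psi, Sum.elim_inl, Sum.elim_inr, Pi.add_apply, Pi.smul_apply, Pi.sub_apply,
      smul_eq_mul]
    ring
  · simp only [svec, psi, Sum.elim_inl, Sum.elim_inr, Pi.add_apply, Pi.smul_apply, Pi.sub_apply,
      smul_eq_mul]
    have e1 : (1 / (2 * r * (32 * (q ^ 2 - 1)))) * (2 * r * (r ^ 2 - s x) -
        2 * -r * ((-r) ^ 2 - s x)) = 2 * (2 - s x) / (32 * (q ^ 2 - 1)) := by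
      rw [show (-r) ^ 2 = r ^ 2 by ring, hr]
      field_simp
      ring
    have e2 : (1 / (6 * r * (32 * (9 - q ^ 2)))) * (2 * (3 * r) * ((3 * r) ^ 2 - s x) -
        2 * -(3 * r) * ((-(3 * r)) ^ 2 - s x)) =
        2 * (18 - s x) / (32 * (9 - q ^ 2)) := by
      rw [show (-(3 * r)) ^ 2 = (3 * r) ^ 2 by ring, mul_pow, hr]
      field_simp
      ring
    have e3 : (1 / (2 * q * r * (4 * ((q ^ 2 - 1) * (q ^ 2 - 9))))) *
        (2 * (q * r) * ((q * r) ^ 2 - s x) -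
        2 * -(q * r) * ((-(q * r)) ^ 2 - s x)) =
        2 * (2 * q ^ 2 - s x) / (4 * ((q ^ 2 - 1) * (q ^ 2 - 9))) := by
      rw [show (-(q * r)) ^ 2 = (q * r) ^ 2 by ring, mul_pow, hr]
      field_simp
      ring
    rw [e1, e2, e3]
    field_simp
    ring
  · simp only [svec, psi, Sum.elim_inl, Sum.elim_inr, Pi.add_apply, Pi.smul_apply, Pi.sub_apply,
      smul_eq_mul]
    ring
  · simp only [svec, psi, Sum.elim_inl, Sum.elim_inr, Pi.add_apply, Pi.smul_apply, Pi.sub_apply,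
      smul_eq_mul]
    field_simp
    ring
  · simp only [svec, psi, Sum.elim_inl, Sum.elim_inr, Pi.add_apply, Pi.smul_apply, Pi.sub_apply,
      smul_eq_mul]
    ring

open Classical in
/-- Perfect state transfer between the hubs. -/
theorem gr_pst [DecidableEq (VV Z H G L)]
    [DecidableRel (gr br pz ph pg).Adj] (q : ℕ) (hq : Odd q) (hq5 : 5 ≤ q)
    (lam rho : Bool → ℂ) (s : Z → ℂ) (b : H → ℂ)
    (hlam : lam false + lam true = 2 * q ^ 2 + 37)
    (hrho : rho false + rho true = 36 * q ^ 2)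
    (hZ1 : ∀ c, (∑ z, if br z = c then (1 : ℂ) else 0) = (2 * q ^ 2 + 16) - lam c)
    (hZ2 : ∀ c, (∑ z, if br z = c then s z else 0) = (36 * q ^ 2 - 38) - rho c)
    (hH1 : ∀ z, (∑ h, if pz h = z then (1 : ℂ) else 0) = lam (br z) - s z)
    (hH2 : ∀ z, (∑ h, if pz h = z then b h else 0) = rho (br z))
    (hG : ∀ h, (∑ g, if ph g = h then (1 : ℂ) else 0) = s (pz h) - b h)
    (hL : ∀ g, (∑ l, if pg l = g then (1 : ℂ) else 0) = b (ph g)) :
    (NormedSpace.exp ((Complex.I * ((Real.pi / √2 : ℝ) : ℂ)) •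
      (gr br pz ph pg).adjMatrix ℂ)).mulVec (Pi.single (Sum.inl (Sum.inl false)) 1) =
      (-1 : ℂ) • Pi.single (Sum.inl (Sum.inl true)) 1 := by
  set τ : ℂ := ((Real.pi / √2 : ℝ) : ℂ) with hτ
  set r : ℂ := ((√2 : ℝ) : ℂ) with hrdef
  have hr : r ^ 2 = 2 := by
    rw [hrdef, ← Complex.ofReal_pow, Real.sq_sqrt (by norm_num)]
    norm_num
  have hr0 : r ≠ 0 := by
    intro h0
    rw [h0] at hr
    norm_num at hr
  have hτr : τ * r = Real.pi := by
    have h2 : (√2 : ℝ) ≠ 0 := by positivity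
    rw [hτ, hrdef, ← Complex.ofReal_mul, div_mul_cancel₀ _ h2]
  have hq2 : ((q : ℂ)) ^ 2 ≠ 1 := by
    intro h
    have : ((q ^ 2 : ℕ) : ℂ) = ((1 : ℕ) : ℂ) := by push_cast; exact h
    rw [Nat.cast_inj] at this
    nlinarith
  have hq9 : ((q : ℂ)) ^ 2 ≠ 9 := by
    intro h
    have : ((q ^ 2 : ℕ) : ℂ) = ((9 : ℕ) : ℂ) := by push_cast; exact h
    rw [Nat.cast_inj] at this
    nlinarith
  have hq0 : (q : ℂ) ≠ 0 := by
    have : q ≠ 0 := by omega
    exact_mod_cast this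
  have hodd : ∀ z : ℤ, Odd z → Complex.exp (Complex.I * τ * (z * r)) = -1 := by
    intro z hz
    obtain ⟨k, rfl⟩ := hz
    have : Complex.I * τ * (((2 * k + 1 : ℤ) : ℂ) * r) =
        k * (2 * Real.pi * Complex.I) + Real.pi * Complex.I := by
      have : Complex.I * τ * (((2 * k + 1 : ℤ) : ℂ) * r) =
        Complex.I * (τ * r) * ((2 * k + 1 : ℤ) : ℂ) := by ring
      rw [this, hτr]
      push_cast; ring
    rw [this, Complex.exp_add, Complex.exp_int_mul_two_pi_mul_I, Complex.exp_pi_mul_I]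
    ring
  have hexp : ∀ (z : ℤ) , Odd z → ((z : ℂ) ^ 2 - 1) * ((z : ℂ) ^ 2 - 9) * ((z : ℂ) ^ 2 - q ^ 2) = 0 →
      (NormedSpace.exp ((Complex.I * τ) • (gr br pz ph pg).adjMatrix ℂ)).mulVec
        (psi br ph (2 * q ^ 2 + 16) (36 * q ^ 2 - 38) lam rho s b (z * r)) =
        - psi br ph (2 * q ^ 2 + 16) (36 * q ^ 2 - 38) lam rho s b (z * r) := by
    intro z hz hzq
    have hz2 : ((z : ℂ) * r) ^ 2 = 2 * z ^ 2 := by rw [mul_pow, hr]; ring
    have hz4 : ((z : ℂ) * r) ^ 4 = 4 * z ^ 4 := by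
      calc ((z : ℂ) * r) ^ 4 = (z : ℂ) ^ 4 * (r ^ 2) ^ 2 := by ring
        _ = 4 * (z : ℂ) ^ 4 := by rw [hr]; ring
    have hm := mulVec_psi br pz ph pg (2 * q ^ 2 + 16) (36 * q ^ 2 - 38) lam rho s b hZ1 hZ2 hH1
      hH2 hG hL (z * r) (by
        rw [hz2, hz4]
        have e1 : lam true = 2 * q ^ 2 + 37 - lam false := by linear_combination hlam
        have e2 : rho true = 36 * q ^ 2 - rho false := by linear_combination hrho
        rw [e1, e2]
        linear_combination 8 * hzq)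
    rw [exp_mulVec_of_eigen _ _ (Complex.I * τ * (z * r))
      (by rw [Matrix.smul_mulVec, hm, smul_smul]), hodd z hz]
    simp
  have hs := svec_eq (Z := Z) (H := H) (G := G) (L := L) br ph (2 * q ^ 2 + 16) (36 * q ^ 2 - 38)
    lam rho s b q r hr hq2 hq9 hq0
  have hqz : Odd (q : ℤ) := by exact_mod_cast hq
  have x1 := hexp 1 (by decide) (by norm_num)
  have x2 := hexp (-1) (by decide) (by norm_num)
  have x3 := hexp 3 (by decide) (by norm_num)
  have x4 := hexp (-3) (by decide) (by norm_num)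
  have x5 := hexp q hqz (by push_cast; ring)
  have x6 := hexp (-q) hqz.neg (by push_cast; ring)
  have c1 : (((1 : ℤ) : ℂ)) * r = r := by push_cast; ring
  have c2 : (((-1 : ℤ) : ℂ)) * r = -r := by push_cast; ring
  have c3 : (((3 : ℤ) : ℂ)) * r = 3 * r := by push_cast; ring
  have c4 : (((-3 : ℤ) : ℂ)) * r = -(3 * r) := by push_cast; ring
  have c5 : ((((q : ℤ)) : ℂ)) * r = q * r := by push_cast; ring
  have c6 : (((-(q : ℤ) : ℤ) : ℂ)) * r = -(q * r) := by push_cast; ring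
  rw [c1] at x1
  rw [c2] at x2
  rw [c3] at x3
  rw [c4] at x4
  rw [c5] at x5
  rw [c6] at x6
  have hsv : (NormedSpace.exp ((Complex.I * τ) • (gr br pz ph pg).adjMatrix ℂ)).mulVec
      (svec Z H G L) = - svec Z H G L := by
    rw [hs]
    simp only [Matrix.mulVec_add, Matrix.mulVec_smul, Matrix.mulVec_sub, x1, x2, x3, x4, x5, x6]
    module
  have hd : (NormedSpace.exp ((Complex.I * τ) • (gr br pz ph pg).adjMatrix ℂ)).mulVec
      (dvec Z H G L) = dvec Z H G L := by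
    have := exp_mulVec_of_eigen ((Complex.I * τ) • (gr br pz ph pg).adjMatrix ℂ)
      (dvec Z H G L) 0
      (by rw [Matrix.smul_mulVec, mulVec_dvec, smul_zero, zero_smul])
    rw [this, Complex.exp_zero, one_smul]
  have e1 : (Pi.single (Sum.inl (Sum.inl false)) 1 : VV Z H G L → ℂ) =
      (1 / 2 : ℂ) • (svec Z H G L + dvec Z H G L) := by
    funext y
    rcases y with (((_ | _) | x) | ((x | x) | (x | x))) <;> simp [svec, dvec]
    norm_num
  have e2 : ((-1 : ℂ) • Pi.single (Sum.inl (Sum.inl true)) 1 : VV Z H G L → ℂ) =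
      (1 / 2 : ℂ) • (- svec Z H G L + dvec Z H G L) := by
    funext y
    rcases y with (((_ | _) | x) | ((x | x) | (x | x))) <;> simp [svec, dvec]
    norm_num
  rw [e1, e2, Matrix.mulVec_smul, Matrix.mulVec_add, hsv, hd]

end Pool.Agent.Helper353.PST
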