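import Pool.Agent.Helper353.PST.Fam2

/-! Instances of the family. -/

set_option autoImplicit false

open Finset

namespace Pool.Agent.Helper353.PST

/-- there is a connected graph with `n` vertices and `n` edges with perfect state transfer -/
def PSTU (n : ℕ) : Prop :=
  ∃ (V : Type) (_ : Fintype V) (_ : DecidableEq V) (G : SimpleGraph V) (_ : DecidableRel G.Adj),
    Fintype.card V = n ∧ G.Connected ∧ G.edgeSet.ncard = n ∧
      ∃ u v : V, u ≠ v ∧ ∃ (t : ℝ) (γ : ℂ), ‖γ‖ = 1 ∧
        (NormedSpace.exp ((Complex.I * (t : ℂ)) • G.adjMatrix ℂ)).mulVec (Pi.single u 1) =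
          γ • Pi.single v 1

open Classical in
theorem sum_sigma_ite {ι : Type} {α : ι → Type} [Fintype ι] [∀ i, Fintype (α i)]
    (f : (Σ i, α i) → ℂ) (i0 : ι) :
    (∑ p : (Σ i, α i), if p.1 = i0 then f p else 0) = ∑ x : α i0, f ⟨i0, x⟩ := by
  rw [Fintype.sum_sigma, Finset.sum_eq_single i0]
  · simp
  · intro b _ hb
    simp [hb]
  · simp

/-- `∑ (s - c) c` over a list -/
def wt (s : ℕ) (l : List ℕ) : ℕ := (l.map fun c => (s - c) * c).sum

theorem sum_get_map (l : List ℕ) (f : ℕ → ℕ) : ∑ i : Fin l.length, f (l.get i) = (l.map f).sum := by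
  rw [← List.sum_ofFn]
  congr 1
  apply List.ext_get
  · simp
  · intro n h1 h2
    simp

open Classical in
theorem family (Z : Type) [Fintype Z] (br : Z → Bool) (s : Z → ℕ) (cl : Z → List ℕ)
    (hcs : ∀ z, ∀ c ∈ cl z, c ≤ s z) (q : ℕ) (hq : Odd q) (hq5 : 5 ≤ q) (lam rho : Bool → ℂ)
    (hlam : lam false + lam true = 2 * q ^ 2 + 37)
    (hrho : rho false + rho true = 36 * q ^ 2)
    (hZ1 : ∀ c, (∑ z, if br z = c then (1 : ℂ) else 0) = (2 * q ^ 2 + 16) - lam c)
    (hZ2 : ∀ c, (∑ z, if br z = c then (s z : ℂ) else 0) = (36 * q ^ 2 - 38) - rho c)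
    (hH1 : ∀ z, ((cl z).length : ℂ) = lam (br z) - s z)
    (hH2 : ∀ z, (s z : ℂ) * (cl z).length - (cl z).sum = rho (br z)) :
    PSTU (4 + Fintype.card Z + ∑ z, ((cl z).length + (cl z).sum + wt (s z) (cl z))) := by
  let H : Type := Σ z : Z, Fin (cl z).length
  let c : H → ℕ := fun h => (cl h.1).get h.2
  let G : Type := Σ h : H, Fin (c h)
  let L : Type := Σ g : G, Fin (s g.1.1 - c g.1)
  have hc : ∀ h : H, c h ≤ s h.1 := fun h => hcs h.1 _ (List.get_mem _ _)
  have hgc : ∀ z, ∑ i, (c ⟨z, i⟩ : ℂ) = (cl z).sum := by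
    intro z
    have := sum_get_map (cl z) id
    simp only [List.map_id, id] at this
    rw [← this]
    push_cast
    rfl
  refine ⟨VV Z H G L, inferInstance, Classical.decEq _,
    gr (L := L) (G := G) (H := H) br (fun h => h.1) (fun g => g.1) (fun l => l.1),
    Classical.decRel _, ?_, gr_connected br _ _ _, ?_, Sum.inl (Sum.inl false),
    Sum.inl (Sum.inl true), by simp, Real.pi / √2, -1, by simp, ?_⟩
  rotate_left 2
  · refine @gr_pst Z H G L br (fun h => h.1) (fun g => g.1) (fun l => l.1) _ _ _ _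
      (Classical.decEq _) (Classical.decRel _) q hq hq5 lam rho (fun z => (s z : ℂ))
      (fun h => (s h.1 : ℂ) - c h) hlam hrho hZ1 hZ2 ?_ ?_ ?_ ?_
    · intro z
      have := sum_sigma_ite (ι := Z) (α := fun z => Fin (cl z).length) (fun _ => (1 : ℂ)) z
      rw [← hH1 z]
      refine this.trans ?_
      simp
    · intro z
      have := sum_sigma_ite (ι := Z) (α := fun z => Fin (cl z).length)
        (fun h => (s h.1 : ℂ) - c h) z
      refine this.trans ?_
      rw [← hH2 z, Finset.sum_sub_distrib, hgc]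
      simp [mul_comm]
    · intro h
      have := sum_sigma_ite (ι := H) (α := fun h => Fin (c h)) (fun _ => (1 : ℂ)) h
      refine this.trans ?_
      simp
    · intro g
      have := sum_sigma_ite (ι := G) (α := fun g => Fin (s g.1.1 - c g.1)) (fun _ => (1 : ℂ)) g
      refine this.trans ?_
      simp [Nat.cast_sub (hc g.1)]
  all_goals
    have hcard : Fintype.card (VV Z H G L) =
        4 + Fintype.card Z + ∑ z, ((cl z).length + (cl z).sum + wt (s z) (cl z)) := by
      have cH : Fintype.card H = ∑ z, (cl z).length := by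
        simp [H]
      have cG : Fintype.card G = ∑ z, (cl z).sum := by
        have : Fintype.card G = ∑ h : H, c h := by simp [G]
        rw [this, Fintype.sum_sigma]
        refine Finset.sum_congr rfl fun z _ => ?_
        have := sum_get_map (cl z) id
        simp only [List.map_id, id] at this
        exact this
      have cL : Fintype.card L = ∑ z, wt (s z) (cl z) := by
        have : Fintype.card L = ∑ g : G, (s g.1.1 - c g.1) := by simp [L]
        rw [this, Fintype.sum_sigma, Fintype.sum_sigma]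
        refine Finset.sum_congr rfl fun z _ => ?_
        rw [wt, ← sum_get_map]
        refine Finset.sum_congr rfl fun i _ => ?_
        simp only [Finset.sum_const, Finset.card_univ, Fintype.card_fin, smul_eq_mul]
        exact mul_comm _ _
      simp only [VV, Fintype.card_sum, Fintype.card_bool, cH, cG, cL, Finset.sum_add_distrib]
      ring
  · exact hcard
  · rw [gr_ncard]
    exact hcard

/-- The concrete shape used: `K` regular children, one special child, one small branch. -/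
theorem family2 (q K : ℕ) (hq : Odd q) (hq5 : 5 ≤ q) (hK : K + 7 = 2 * q ^ 2)
    (R Sp Sm : List ℕ) (sp ss ρ0 ρ1 : ℕ)
    (hR : ∀ c ∈ R, c ≤ 18) (hSp : ∀ c ∈ Sp, c ≤ sp) (hSm : ∀ c ∈ Sm, c ≤ ss)
    (hRl : R.length = 4) (hRs : R.sum + ρ0 = 72)
    (hSpl : Sp.length + sp = 22) (hSps : Sp.sum + ρ0 = sp * Sp.length)
    (hSml : Sm.length + ss = 2 * q ^ 2 + 15) (hSms : Sm.sum + ρ1 = ss * Sm.length)
    (hρ : ρ0 + ρ1 = 36 * q ^ 2) (hE0 : 18 * K + sp + ρ0 + 38 = 36 * q ^ 2)
    (hE1 : ss + ρ1 + 38 = 36 * q ^ 2) :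
    PSTU (4 + (K + 2) + (K * (4 + R.sum + wt 18 R) + (Sp.length + Sp.sum + wt sp Sp) +
      (Sm.length + Sm.sum + wt ss Sm))) := by
  classical
  have hKc : (K : ℂ) = 2 * q ^ 2 - 7 := by
    have : ((K + 7 : ℕ) : ℂ) = ((2 * q ^ 2 : ℕ) : ℂ) := by rw [hK]
    push_cast at this
    linear_combination this
  have hρc : (ρ0 : ℂ) + ρ1 = 36 * q ^ 2 := by
    have : ((ρ0 + ρ1 : ℕ) : ℂ) = ((36 * q ^ 2 : ℕ) : ℂ) := by rw [hρ]
    push_cast at this
    exact this
  have hE0c : (18 : ℂ) * K + sp + ρ0 + 38 = 36 * q ^ 2 := by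
    have : ((18 * K + sp + ρ0 + 38 : ℕ) : ℂ) = ((36 * q ^ 2 : ℕ) : ℂ) := by rw [hE0]
    push_cast at this
    exact this
  have hE1c : (ss : ℂ) + ρ1 + 38 = 36 * q ^ 2 := by
    have : ((ss + ρ1 + 38 : ℕ) : ℂ) = ((36 * q ^ 2 : ℕ) : ℂ) := by rw [hE1]
    push_cast at this
    exact this
  have hRsc : (R.sum : ℂ) + ρ0 = 72 := by exact_mod_cast hRs
  have hSplc : (Sp.length : ℂ) + sp = 22 := by exact_mod_cast hSpl
  have hSpsc : (Sp.sum : ℂ) + ρ0 = sp * Sp.length := by exact_mod_cast hSps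
  have hSmlc : (Sm.length : ℂ) + ss = 2 * q ^ 2 + 15 := by exact_mod_cast hSml
  have hSmsc : (Sm.sum : ℂ) + ρ1 = ss * Sm.length := by exact_mod_cast hSms
  have h := family (Fin K ⊕ (Unit ⊕ Unit))
    (Sum.elim (fun _ => false) (Sum.elim (fun _ => false) (fun _ => true)))
    (Sum.elim (fun _ => 18) (Sum.elim (fun _ => sp) (fun _ => ss)))
    (Sum.elim (fun _ => R) (Sum.elim (fun _ => Sp) (fun _ => Sm)))
    (by rintro (_ | _ | _) <;> simpa) q hq hq5
    (fun c => if c then (2 * q ^ 2 + 15 : ℂ) else 22) (fun c => if c then (ρ1 : ℂ) else ρ0)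
    (by simp; ring) (by simpa using hρc)
    (by
      rintro (_ | _)
      · simp only [Fintype.sum_sum_type, Sum.elim_inl, Sum.elim_inr]
        simp [hKc]
        ring
      · simp only [Fintype.sum_sum_type, Sum.elim_inl, Sum.elim_inr]
        simp
        ring)
    (by
      rintro (_ | _)
      · simp only [Fintype.sum_sum_type, Sum.elim_inl, Sum.elim_inr]
        simp
        linear_combination hE0c
      · simp only [Fintype.sum_sum_type, Sum.elim_inl, Sum.elim_inr]
        simp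
        linear_combination hE1c)
    (by
      rintro (_ | _ | _)
      · simp [hRl]; norm_num
      · simp only [Sum.elim_inl, Sum.elim_inr]
        simp
        linear_combination hSplc
      · simp only [Sum.elim_inl, Sum.elim_inr]
        simp
        linear_combination hSmlc)
    (by
      rintro (_ | _ | _)
      · simp only [Sum.elim_inl, hRl, Nat.cast_ofNat, Bool.false_eq_true, ↓reduceIte]
        linear_combination (-1 : ℂ) * hRsc
      · simp only [Sum.elim_inl, Sum.elim_inr, Bool.false_eq_true, ↓reduceIte]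
        linear_combination (-1 : ℂ) * hSpsc
      · simp only [Sum.elim_inr, ↓reduceIte]
        linear_combination (-1 : ℂ) * hSmsc)
  have e : 4 + (K + 2) + (K * (4 + R.sum + wt 18 R) + (Sp.length + Sp.sum + wt sp Sp) +
      (Sm.length + Sm.sum + wt ss Sm)) = 4 + Fintype.card (Fin K ⊕ (Unit ⊕ Unit)) +
      ∑ z : Fin K ⊕ (Unit ⊕ Unit), (((Sum.elim (fun _ => R) (Sum.elim (fun _ => Sp) (fun _ => Sm)) :
          Fin K ⊕ (Unit ⊕ Unit) → List ℕ) z).length +
        ((Sum.elim (fun _ => R) (Sum.elim (fun _ => Sp) (fun _ => Sm)) :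
          Fin K ⊕ (Unit ⊕ Unit) → List ℕ) z).sum +
        wt ((Sum.elim (fun _ => 18) (Sum.elim (fun _ => sp) (fun _ => ss)) :
          Fin K ⊕ (Unit ⊕ Unit) → ℕ) z)
          ((Sum.elim (fun _ => R) (Sum.elim (fun _ => Sp) (fun _ => Sm)) :
          Fin K ⊕ (Unit ⊕ Unit) → List ℕ) z)) := by
    simp only [Fintype.sum_sum_type, Sum.elim_inl, Sum.elim_inr, hRl]
    simp
    ring
  rw [e]
  exact h

theorem wt_append (s : ℕ) (l l' : List ℕ) : wt s (l ++ l') = wt s l + wt s l' := by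
  simp [wt]

theorem wt_replicate (s n c : ℕ) : wt s (List.replicate n c) = n * ((s - c) * c) := by
  simp [wt]

theorem pair_wt_even (k : ℕ) (hk : k ≤ 14) :
    (32 - (14 - k)) * (14 - k) + (32 - (14 + k)) * (14 + k) + 2 * k ^ 2 = 504 := by
  interval_cases k <;> norm_num

theorem pair_wt_odd (k : ℕ) (hk : k ≤ 15) :
    (33 - (15 - k)) * (15 - k) + (33 - (15 + k)) * (15 + k) + 2 * k ^ 2 = 540 := by
  interval_cases k <;> norm_num

/-- even case -/
theorem even_case (q K' j k1 k2 k3 k4 r : ℕ) (hq : Odd q) (hq5 : 5 ≤ q)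
    (hK' : K' + 34 = 2 * q ^ 2) (h1 : k1 ≤ 14) (h2 : k2 ≤ 14) (h3 : k3 ≤ 14) (h4 : k4 ≤ 14)
    (hr : 8 + 2 * j + r = K') :
    PSTU (616 * q ^ 2 - 9240 - 2 * (k1 ^ 2 + k2 ^ 2 + k3 ^ 2 + k4 ^ 2 + 196 * j)) := by
  have hq2 : 25 ≤ q ^ 2 := by nlinarith
  set Sm : List ℕ := List.replicate 16 0 ++ (List.replicate 1 2 ++ ([14 - k1, 14 + k1, 14 - k2,
    14 + k2, 14 - k3, 14 + k3, 14 - k4, 14 + k4] ++ (List.replicate j 0 ++
      (List.replicate j 28 ++ List.replicate r 14)))) with hSm
  have hlen : Sm.length = 17 + K' := by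
    rw [hSm]
    simp
    omega
  have hsum : Sm.sum = 2 + 14 * K' := by
    rw [hSm]
    simp
    omega
  have p1 := pair_wt_even k1 h1
  have p2 := pair_wt_even k2 h2
  have p3 := pair_wt_even k3 h3
  have p4 := pair_wt_even k4 h4
  have hwt : wt 32 Sm + 2 * (k1 ^ 2 + k2 ^ 2 + k3 ^ 2 + k4 ^ 2 + 196 * j) = 60 + 252 * K' := by
    rw [hSm]
    simp only [wt_append, wt_replicate]
    have e : wt 32 [14 - k1, 14 + k1, 14 - k2, 14 + k2, 14 - k3, 14 + k3, 14 - k4, 14 + k4] =
      ((32 - (14 - k1)) * (14 - k1) + (32 - (14 + k1)) * (14 + k1)) +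
      ((32 - (14 - k2)) * (14 - k2) + (32 - (14 + k2)) * (14 + k2)) +
      ((32 - (14 - k3)) * (14 - k3) + (32 - (14 + k3)) * (14 + k3)) +
      ((32 - (14 - k4)) * (14 - k4) + (32 - (14 + k4)) * (14 + k4)) := by
      simp only [wt, List.map_cons, List.map_nil, List.sum_cons, List.sum_nil]
      ring
    rw [e]
    generalize (32 - (14 - k1)) * (14 - k1) = a1 at *
    generalize (32 - (14 + k1)) * (14 + k1) = b1 at *
    generalize (32 - (14 - k2)) * (14 - k2) = a2 at *
    generalize (32 - (14 + k2)) * (14 + k2) = b2 at *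
    generalize (32 - (14 - k3)) * (14 - k3) = a3 at *
    generalize (32 - (14 + k3)) * (14 + k3) = b3 at *
    generalize (32 - (14 - k4)) * (14 - k4) = a4 at *
    generalize (32 - (14 + k4)) * (14 + k4) = b4 at *
    generalize k1 ^ 2 = x1 at *
    generalize k2 ^ 2 = x2 at *
    generalize k3 ^ 2 = x3 at *
    generalize k4 ^ 2 = x4 at *
    omega
  have h := family2 q (2 * q ^ 2 - 7) hq hq5 (by omega) [1, 1, 0, 0] [1, 1, 0, 0] Sm 18 32 70
    (36 * q ^ 2 - 70) (by decide) (by decide)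
    (by
      intro c hc
      rw [hSm] at hc
      simp only [List.mem_append, List.mem_replicate, List.mem_cons, List.not_mem_nil,
        or_false] at hc
      omega)
    (by decide) (by decide) (by decide) (by decide) (by rw [hlen]; omega)
    (by rw [hsum, hlen]; omega) (by omega) (by omega) (by omega)
  have e1 : wt 18 [1, 1, 0, 0] = 34 := by decide
  have e2 : ([1, 1, 0, 0] : List ℕ).sum = 2 := by decide
  have e3 : ([1, 1, 0, 0] : List ℕ).length = 4 := by decide
  rw [e1, e2, e3, hlen, hsum] at h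
  convert h using 1
  generalize k1 ^ 2 = x1 at *
  generalize k2 ^ 2 = x2 at *
  generalize k3 ^ 2 = x3 at *
  generalize k4 ^ 2 = x4 at *
  omega

/-- odd case -/
theorem odd_case (q K' j k1 k2 k3 k4 r : ℕ) (hq : Odd q) (hq5 : 5 ≤ q)
    (hK' : K' + 35 = 2 * q ^ 2) (h1 : k1 ≤ 15) (h2 : k2 ≤ 15) (h3 : k3 ≤ 15) (h4 : k4 ≤ 15)
    (hr : 8 + 2 * j + r = K') :
    PSTU (618 * q ^ 2 - 10023 - 2 * (k1 ^ 2 + k2 ^ 2 + k3 ^ 2 + k4 ^ 2 + 225 * j)) := by
  have hq2 : 25 ≤ q ^ 2 := by nlinarith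
  set Sm : List ℕ := List.replicate 16 0 ++ (List.replicate 1 2 ++ ([15 - k1, 15 + k1, 15 - k2,
    15 + k2, 15 - k3, 15 + k3, 15 - k4, 15 + k4] ++ (List.replicate j 0 ++
      (List.replicate j 30 ++ List.replicate r 15)))) with hSm
  have hlen : Sm.length = 17 + K' := by
    rw [hSm]
    simp
    omega
  have hsum : Sm.sum = 2 + 15 * K' := by
    rw [hSm]
    simp
    omega
  have p1 := pair_wt_odd k1 h1
  have p2 := pair_wt_odd k2 h2
  have p3 := pair_wt_odd k3 h3
  have p4 := pair_wt_odd k4 h4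
  have hwt : wt 33 Sm + 2 * (k1 ^ 2 + k2 ^ 2 + k3 ^ 2 + k4 ^ 2 + 225 * j) = 62 + 270 * K' := by
    rw [hSm]
    simp only [wt_append, wt_replicate]
    have e : wt 33 [15 - k1, 15 + k1, 15 - k2, 15 + k2, 15 - k3, 15 + k3, 15 - k4, 15 + k4] =
      ((33 - (15 - k1)) * (15 - k1) + (33 - (15 + k1)) * (15 + k1)) +
      ((33 - (15 - k2)) * (15 - k2) + (33 - (15 + k2)) * (15 + k2)) +
      ((33 - (15 - k3)) * (15 - k3) + (33 - (15 + k3)) * (15 + k3)) +
      ((33 - (15 - k4)) * (15 - k4) + (33 - (15 + k4)) * (15 + k4)) := by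
      simp only [wt, List.map_cons, List.map_nil, List.sum_cons, List.sum_nil]
      ring
    rw [e]
    generalize (33 - (15 - k1)) * (15 - k1) = a1 at *
    generalize (33 - (15 + k1)) * (15 + k1) = b1 at *
    generalize (33 - (15 - k2)) * (15 - k2) = a2 at *
    generalize (33 - (15 + k2)) * (15 + k2) = b2 at *
    generalize (33 - (15 - k3)) * (15 - k3) = a3 at *
    generalize (33 - (15 + k3)) * (15 + k3) = b3 at *
    generalize (33 - (15 - k4)) * (15 - k4) = a4 at *
    generalize (33 - (15 + k4)) * (15 + k4) = b4 at *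
    generalize k1 ^ 2 = x1 at *
    generalize k2 ^ 2 = x2 at *
    generalize k3 ^ 2 = x3 at *
    generalize k4 ^ 2 = x4 at *
    omega
  have h := family2 q (2 * q ^ 2 - 7) hq hq5 (by omega) [1, 0, 0, 0] [14, 0, 0, 0, 0] Sm 17 33 71
    (36 * q ^ 2 - 71) (by decide) (by decide)
    (by
      intro c hc
      rw [hSm] at hc
      simp only [List.mem_append, List.mem_replicate, List.mem_cons, List.not_mem_nil,
        or_false] at hc
      omega)
    (by decide) (by decide) (by decide) (by decide) (by rw [hlen]; omega)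
    (by rw [hsum, hlen]; omega) (by omega) (by omega) (by omega)
  have e1 : wt 18 [1, 0, 0, 0] = 17 := by decide
  have e2 : ([1, 0, 0, 0] : List ℕ).sum = 1 := by decide
  have e3 : ([14, 0, 0, 0, 0] : List ℕ).length = 5 := by decide
  have e4 : ([14, 0, 0, 0, 0] : List ℕ).sum = 14 := by decide
  have e5 : wt 17 [14, 0, 0, 0, 0] = 42 := by decide
  rw [e1, e2, e3, e4, e5, hlen, hsum] at h
  convert h using 1
  generalize k1 ^ 2 = x1 at *
  generalize k2 ^ 2 = x2 at *
  generalize k3 ^ 2 = x3 at *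
  generalize k4 ^ 2 = x4 at *
  omega

end Pool.Agent.Helper353.PST
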