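import Pool.Agent.Helper353.PST.Fam3

/-! Every large `n` is reached by the family. -/

set_option autoImplicit false

open Finset

namespace Pool.Agent.Helper353.PST

theorem find_k (c e : ℕ) (n : ℕ) (hn2 : e ≤ c * 49) (hc : 1 ≤ c) :
    ∃ k, 3 ≤ k ∧ n ≤ c * (2 * k + 1) ^ 2 - e ∧
      (k = 3 ∨ c * (2 * k + 1) ^ 2 - e < n + 8 * c * k) ∧ e ≤ c * (2 * k + 1) ^ 2 := by
  have hmono : ∀ k, c * (2 * k + 1) ^ 2 + 8 * c * (k + 1) = c * (2 * (k + 1) + 1) ^ 2 := by
    intro k; ring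
  have hex : ∃ k, 3 ≤ k ∧ n ≤ c * (2 * k + 1) ^ 2 - e := by
    refine ⟨n + e + 3, by omega, ?_⟩
    have h1 : (n + e) ≤ (2 * (n + e + 3) + 1) ^ 2 := by nlinarith
    have h2 : 1 * (2 * (n + e + 3) + 1) ^ 2 ≤ c * (2 * (n + e + 3) + 1) ^ 2 :=
      Nat.mul_le_mul_right _ hc
    omega
  classical
  set k := Nat.find hex with hk
  obtain ⟨hk3, hk1⟩ := Nat.find_spec hex
  rw [← hk] at hk1 hk3
  have hmn : ∀ j, c * (2 * j + 1) ^ 2 ≤ c * (2 * (j + 1) + 1) ^ 2 := by
    intro j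
    rw [← hmono j]
    omega
  have hmon : Monotone fun j => c * (2 * j + 1) ^ 2 := monotone_nat_of_le_succ hmn
  have h7 : c * (2 * 3 + 1) ^ 2 = c * 49 := by norm_num
  have h8' : c * (2 * 3 + 1) ^ 2 ≤ c * (2 * k + 1) ^ 2 := hmon hk3
  refine ⟨k, hk3, hk1, ?_, by omega⟩
  by_cases hk3' : k = 3
  · exact Or.inl hk3'
  right
  have hk2 : c * (2 * (k - 1) + 1) ^ 2 - e < n := by
    have := Nat.find_min hex (m := k - 1) (by omega)
    rw [not_and, not_le] at this
    exact this (by omega)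
  have h8 : c * (2 * 3 + 1) ^ 2 ≤ c * (2 * (k - 1) + 1) ^ 2 := hmon (by omega)
  have h3 := hmono (k - 1)
  rw [show k - 1 + 1 = k by omega] at h3
  omega

theorem four_sq_small (x B : ℕ) (h : x < (B + 1) ^ 2) :
    ∃ k1 k2 k3 k4 : ℕ, k1 ≤ B ∧ k2 ≤ B ∧ k3 ≤ B ∧ k4 ≤ B ∧
      k1 ^ 2 + k2 ^ 2 + k3 ^ 2 + k4 ^ 2 = x := by
  obtain ⟨a, b, c, d, habcd⟩ := Nat.sum_four_squares x
  have key : ∀ y : ℕ, y ^ 2 ≤ x → y ≤ B := by
    intro y hy
    by_contra hcon
    have : (B + 1) ^ 2 ≤ y ^ 2 := Nat.pow_le_pow_left (by omega) 2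
    omega
  refine ⟨a, b, c, d, key a ?_, key b ?_, key c ?_, key d ?_, habcd⟩ <;>
    (generalize a ^ 2 = a2 at *; generalize b ^ 2 = b2 at *; generalize c ^ 2 = c2 at *;
      generalize d ^ 2 = d2 at *; omega)

/-- For every `n ≥ 10000` there is a connected graph with `n` vertices and `n` edges admitting
perfect state transfer. -/
theorem pstu_large (n : ℕ) (hn : 10000 ≤ n) : PSTU n := by
  rcases Nat.even_or_odd n with he | ho
  · obtain ⟨k, hk3, h1, h2, h3⟩ := find_k 616 9240 n (by norm_num) (by norm_num)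
    obtain ⟨m, hm⟩ := he
    set Q := (2 * k + 1) ^ 2 with hQ
    have hQk : Q = 4 * (k * k) + 4 * k + 1 := by rw [hQ]; ring
    -- the deficit
    obtain ⟨d, hd⟩ : ∃ d, 616 * Q - 9240 = n + 2 * d := ⟨(616 * Q - 9240 - n) / 2, by omega⟩
    have hdle : d ≤ 196 * (Q - 21) + 195 := by
      rcases h2 with h2 | h2
      · have : Q = 49 := by rw [hQ, h2]; norm_num
        omega
      · by_cases hk4 : k = 3
        · have : Q = 49 := by rw [hQ, hk4]; norm_num
          omega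
        · have hkk : 4 * k ≤ k * k := Nat.mul_le_mul_right k (by omega)
          omega
    have hkk : 3 * k ≤ k * k := Nat.mul_le_mul_right k hk3
    obtain ⟨k1, k2, k3, k4, b1, b2, b3, b4, hs⟩ := four_sq_small (d % 196) 14
      (by have := Nat.mod_lt d (show 0 < 196 by norm_num); omega)
    obtain ⟨K', hK'⟩ : ∃ K', K' + 34 = 2 * Q := ⟨2 * Q - 34, by omega⟩
    have hroom : 8 + 2 * (d / 196) ≤ K' := by omega
    have := even_case (2 * k + 1) K' (d / 196) k1 k2 k3 k4 (K' - 8 - 2 * (d / 196)) ⟨k, rfl⟩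
      (by omega) hK' b1 b2 b3 b4 (by omega)
    rw [← hQ, hs, show d % 196 + 196 * (d / 196) = d by omega, hd] at this
    simpa using this
  · obtain ⟨k, hk3, h1, h2, h3⟩ := find_k 618 10023 n (by norm_num) (by norm_num)
    obtain ⟨m, hm⟩ := ho
    set Q := (2 * k + 1) ^ 2 with hQ
    have hQk : Q = 4 * (k * k) + 4 * k + 1 := by rw [hQ]; ring
    obtain ⟨d, hd⟩ : ∃ d, 618 * Q - 10023 = n + 2 * d := ⟨(618 * Q - 10023 - n) / 2, by omega⟩
    have hdle : d ≤ 225 * (Q - 22) + 224 := by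
      rcases h2 with h2 | h2
      · have : Q = 49 := by rw [hQ, h2]; norm_num
        omega
      · by_cases hk4 : k = 3
        · have : Q = 49 := by rw [hQ, hk4]; norm_num
          omega
        · have hkk : 4 * k ≤ k * k := Nat.mul_le_mul_right k (by omega)
          omega
    have hkk : 3 * k ≤ k * k := Nat.mul_le_mul_right k hk3
    obtain ⟨k1, k2, k3, k4, b1, b2, b3, b4, hs⟩ := four_sq_small (d % 225) 15
      (by have := Nat.mod_lt d (show 0 < 225 by norm_num); omega)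
    obtain ⟨K', hK'⟩ : ∃ K', K' + 35 = 2 * Q := ⟨2 * Q - 35, by omega⟩
    have hroom : 8 + 2 * (d / 225) ≤ K' := by omega
    have := odd_case (2 * k + 1) K' (d / 225) k1 k2 k3 k4 (K' - 8 - 2 * (d / 225)) ⟨k, rfl⟩
      (by omega) hK' b1 b2 b3 b4 (by omega)
    rw [← hQ, hs, show d % 225 + 225 * (d / 225) = d by omega, hd] at this
    simpa using this

end Pool.Agent.Helper353.PST
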