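import Pool.Agent.Helper353.PST.Fam2

/-! Complete bipartite graphs `K_{2,k}` and the single edge. -/

set_option autoImplicit false
set_option linter.unusedSectionVars false
set_option linter.unusedSimpArgs false

open Finset Filter

namespace Pool.Agent.Helper353.PST.K2

open Pool.Agent.Helper353.PST

/-- `G` admits perfect state transfer -/
def AdmitsPST {V : Type} [Fintype V] [DecidableEq V] (G : SimpleGraph V)
    [DecidableRel G.Adj] : Prop :=
  ∃ u v : V, u ≠ v ∧ ∃ (t : ℝ) (γ : ℂ), ‖γ‖ = 1 ∧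
    (NormedSpace.exp ((Complex.I * (t : ℂ)) • G.adjMatrix ℂ)).mulVec (Pi.single u 1) =
      γ • Pi.single v 1

section Family

variable {A W L : Type}

/-- Adjacency for the family. -/
def famAdj (A : Type) (r : W → L → Prop) : (Bool ⊕ A) ⊕ (W ⊕ L) → (Bool ⊕ A) ⊕ (W ⊕ L) → Prop
  | .inl (.inl _), .inl (.inr _) => True
  | .inl (.inr _), .inl (.inl _) => True
  | .inl (.inl _), .inr (.inl _) => True
  | .inr (.inl _), .inl (.inl _) => True
  | .inr (.inl w), .inr (.inr x) => r w x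
  | .inr (.inr x), .inr (.inl w) => r w x
  | _, _ => False

def fam (A : Type) (r : W → L → Prop) : SimpleGraph ((Bool ⊕ A) ⊕ (W ⊕ L)) where
  Adj := famAdj A r
  symm := ⟨by
    rintro ((b | a) | (w | x)) ((b' | a') | (w' | x')) h <;> simp_all [famAdj]⟩
  loopless := ⟨by
    rintro ((b | a) | (w | x)) h <;> simp_all [famAdj]⟩

theorem fam_ba (r : W → L → Prop) (b : Bool) (a : A) :
    (fam A r).Adj (Sum.inl (Sum.inl b)) (Sum.inl (Sum.inr a)) ↔ True := Iff.rfl
theorem fam_bb (r : W → L → Prop) (b b' : Bool) :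
    (fam A r).Adj (Sum.inl (Sum.inl b)) (Sum.inl (Sum.inl b')) ↔ False := Iff.rfl
theorem fam_bw (r : W → L → Prop) (b : Bool) (w : W) :
    (fam A r).Adj (Sum.inl (Sum.inl b)) (Sum.inr (Sum.inl w)) ↔ True := Iff.rfl
theorem fam_bx (r : W → L → Prop) (b : Bool) (x : L) :
    (fam A r).Adj (Sum.inl (Sum.inl b)) (Sum.inr (Sum.inr x)) ↔ False := Iff.rfl
theorem fam_ab (r : W → L → Prop) (b : Bool) (a : A) :
    (fam A r).Adj (Sum.inl (Sum.inr a)) (Sum.inl (Sum.inl b)) ↔ True := Iff.rfl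
theorem fam_aa (r : W → L → Prop) (a a' : A) :
    (fam A r).Adj (Sum.inl (Sum.inr a)) (Sum.inl (Sum.inr a')) ↔ False := Iff.rfl
theorem fam_aw (r : W → L → Prop) (a : A) (w : W) :
    (fam A r).Adj (Sum.inl (Sum.inr a)) (Sum.inr (Sum.inl w)) ↔ False := Iff.rfl
theorem fam_ax (r : W → L → Prop) (a : A) (x : L) :
    (fam A r).Adj (Sum.inl (Sum.inr a)) (Sum.inr (Sum.inr x)) ↔ False := Iff.rfl
theorem fam_wb (r : W → L → Prop) (b : Bool) (w : W) :
    (fam A r).Adj (Sum.inr (Sum.inl w)) (Sum.inl (Sum.inl b)) ↔ True := Iff.rfl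
theorem fam_wa (r : W → L → Prop) (a : A) (w : W) :
    (fam A r).Adj (Sum.inr (Sum.inl w)) (Sum.inl (Sum.inr a)) ↔ False := Iff.rfl
theorem fam_ww (r : W → L → Prop) (w w' : W) :
    (fam A r).Adj (Sum.inr (Sum.inl w)) (Sum.inr (Sum.inl w')) ↔ False := Iff.rfl
theorem fam_wx (r : W → L → Prop) (w : W) (x : L) :
    (fam A r).Adj (Sum.inr (Sum.inl w)) (Sum.inr (Sum.inr x)) ↔ r w x := Iff.rfl
theorem fam_xb (r : W → L → Prop) (b : Bool) (x : L) :
    (fam A r).Adj (Sum.inr (Sum.inr x)) (Sum.inl (Sum.inl b)) ↔ False := Iff.rfl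
theorem fam_xa (r : W → L → Prop) (a : A) (x : L) :
    (fam A r).Adj (Sum.inr (Sum.inr x)) (Sum.inl (Sum.inr a)) ↔ False := Iff.rfl
theorem fam_xw (r : W → L → Prop) (w : W) (x : L) :
    (fam A r).Adj (Sum.inr (Sum.inr x)) (Sum.inr (Sum.inl w)) ↔ r w x := Iff.rfl
theorem fam_xx (r : W → L → Prop) (x x' : L) :
    (fam A r).Adj (Sum.inr (Sum.inr x)) (Sum.inr (Sum.inr x')) ↔ False := Iff.rfl

theorem fam_connected (r : W → L → Prop) (a0 : A) (hx : ∀ x, ∃ w, r w x) :
    (fam A r).Connected := by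
  have hu : ∀ y, (fam A r).Reachable (Sum.inl (Sum.inl false)) y := by
    have hb : ∀ b, (fam A r).Reachable (Sum.inl (Sum.inl false)) (Sum.inl (Sum.inl b)) := fun b =>
      ((SimpleGraph.Adj.reachable ((fam_ba r false a0).2 trivial)).trans
        (SimpleGraph.Adj.reachable ((fam_ab r b a0).2 trivial)))
    have hw : ∀ w, (fam A r).Reachable (Sum.inl (Sum.inl false)) (Sum.inr (Sum.inl w)) := fun w =>
      SimpleGraph.Adj.reachable ((fam_bw r false w).2 trivial)
    rintro ((b | a) | (w | x))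
    · exact hb b
    · exact SimpleGraph.Adj.reachable ((fam_ba r false a).2 trivial)
    · exact hw w
    · obtain ⟨w, hwx⟩ := hx x
      exact (hw w).trans (SimpleGraph.Adj.reachable ((fam_wx r w x).2 hwx))
  haveI : Nonempty ((Bool ⊕ A) ⊕ (W ⊕ L)) := ⟨Sum.inl (Sum.inl false)⟩
  exact SimpleGraph.Connected.mk fun y z => (hu y).symm.trans (hu z)

variable [Fintype A] [Fintype W] [Fintype L]

open Classical in
/-- number of neighbours in `W` of `x : L`. -/
noncomputable def dg (r : W → L → Prop) (x : L) : ℕ := (univ.filter fun w => r w x).card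

open Classical in
theorem fam_ncard (r : W → L → Prop) :
    (fam A r).edgeSet.ncard = 2 * Fintype.card A + 2 * Fintype.card W + ∑ x, dg r x := by
  have h := two_mul_ncard (fam A r)
  have hdg : ∀ x, ∑ w, (if r w x then 1 else 0) = dg r x := by
    intro x
    rw [Finset.sum_boole, dg]; simp
  have hsum : ∑ w, ∑ x, (if r w x then 1 else 0) = ∑ x, dg r x := by
    rw [Finset.sum_comm]
    exact Finset.sum_congr rfl fun x _ => hdg x
  rw [Fintype.sum_sum_type, Fintype.sum_sum_type, Fintype.sum_sum_type] at h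
  simp only [Fintype.sum_sum_type, fam_ba, fam_bb, fam_bw, fam_bx, fam_ab, fam_aa, fam_aw, fam_ax,
    fam_wb, fam_wa, fam_ww, fam_wx, fam_xb, fam_xa, fam_xw, fam_xx, if_true, if_false,
    Finset.sum_const_zero, add_zero, zero_add, Finset.sum_const, Finset.card_univ,
    Fintype.card_bool, smul_eq_mul, mul_one, Finset.sum_add_distrib, hsum, hdg] at h
  linarith

set_option linter.unusedSectionVars false

variable [DecidableEq A] [DecidableEq W] [DecidableEq L]

/-- vectors constant on cells -/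
noncomputable def vec (A : Type) (r : W → L → Prop) (c0 c1 c2 c3 : ℂ) : (Bool ⊕ A) ⊕ (W ⊕ L) → ℂ :=
  Sum.elim (Sum.elim (fun _ => c0) (fun _ => c1)) (Sum.elim (fun _ => c2) (fun x => c3 * dg r x))

open Classical in
theorem mulVec_vec (r : W → L → Prop) [DecidableRel (fam A r).Adj] (ℓ : ℕ)
    (hℓ : ∀ w, ∑ x, (if r w x then dg r x else 0) = ℓ) (c0 c1 c2 c3 : ℂ) :
    ((fam A r).adjMatrix ℂ).mulVec (vec A r c0 c1 c2 c3) =
      vec A r (Fintype.card A * c1 + Fintype.card W * c2) (2 * c0) (2 * c0 + ℓ * c3) c2 := by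
  funext y
  rw [adj_mulVec, Fintype.sum_sum_type, Fintype.sum_sum_type, Fintype.sum_sum_type]
  rcases y with ((b | a) | (w | x))
  · simp [fam_ba, fam_bb, fam_bw, fam_bx, fam_ab, fam_aa, fam_aw, fam_ax, fam_wb, fam_wa, fam_ww,
      fam_wx, fam_xb, fam_xa, fam_xw, fam_xx, vec]
  · simp [fam_ba, fam_bb, fam_bw, fam_bx, fam_ab, fam_aa, fam_aw, fam_ax, fam_wb, fam_wa, fam_ww,
      fam_wx, fam_xb, fam_xa, fam_xw, fam_xx, vec]
  · have h1 : ∑ x, (if r w x then c3 * (dg r x : ℂ) else 0) = ℓ * c3 := by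
      rw [← hℓ w]
      push_cast
      rw [Finset.sum_mul]
      refine Finset.sum_congr rfl fun x _ => ?_
      split_ifs <;> ring
    simp only [fam_ba, fam_bb, fam_bw, fam_bx, fam_ab, fam_aa, fam_aw, fam_ax, fam_wb, fam_wa, fam_ww,
      fam_wx, fam_xb, fam_xa, fam_xw, fam_xx, vec, Sum.elim_inl, Sum.elim_inr]
    simp only [if_true, if_false, Finset.sum_const_zero, add_zero, mul_zero, Finset.sum_const,
      Finset.card_univ, Fintype.card_bool, nsmul_eq_mul, zero_add]
    congr 1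
  · have h1 : ∑ w, (if r w x then c2 else 0) = c2 * dg r x := by
      rw [← Finset.sum_filter, Finset.sum_const, dg, nsmul_eq_mul]
      ring
    simp only [fam_ba, fam_bb, fam_bw, fam_bx, fam_ab, fam_aa, fam_aw, fam_ax, fam_wb, fam_wa, fam_ww,
      fam_wx, fam_xb, fam_xa, fam_xw, fam_xx, vec, Sum.elim_inl, Sum.elim_inr]
    simp only [if_false, Finset.sum_const_zero, add_zero, zero_add]
    convert h1

/-- difference vector -/
def dvec (A W L : Type) : (Bool ⊕ A) ⊕ (W ⊕ L) → ℂ :=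
  Sum.elim (Sum.elim (fun b => if b then -1 else 1) (fun _ => 0)) (Sum.elim (fun _ => 0) (fun _ => 0))

open Classical in
theorem mulVec_dvec (r : W → L → Prop) [DecidableRel (fam A r).Adj] :
    ((fam A r).adjMatrix ℂ).mulVec (dvec A W L) = 0 := by
  funext y
  rw [adj_mulVec, Fintype.sum_sum_type, Fintype.sum_sum_type, Fintype.sum_sum_type]
  rcases y with ((b | a) | (w | x)) <;>
    simp [fam_ba, fam_bb, fam_bw, fam_bx, fam_ab, fam_aa, fam_aw, fam_ax, fam_wb, fam_wa, fam_ww,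
      fam_wx, fam_xb, fam_xa, fam_xw, fam_xx, dvec]

open Classical in
theorem pst_of_neg (r : W → L → Prop) [DecidableRel (fam A r).Adj] (t : ℝ)
    (h : (NormedSpace.exp ((Complex.I * (t : ℂ)) • (fam A r).adjMatrix ℂ)).mulVec
      (vec A r 1 0 0 0) = - vec A r 1 0 0 0) : AdmitsPST (fam A r) := by
  refine ⟨Sum.inl (Sum.inl false), Sum.inl (Sum.inl true), by simp, t, -1, by simp, ?_⟩
  have hd : (NormedSpace.exp ((Complex.I * (t : ℂ)) • (fam A r).adjMatrix ℂ)).mulVec
      (dvec A W L) = dvec A W L := by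
    have := exp_mulVec_of_eigen ((Complex.I * (t : ℂ)) • (fam A r).adjMatrix ℂ) (dvec A W L) 0
      (by rw [Matrix.smul_mulVec, mulVec_dvec, smul_zero, zero_smul])
    rw [this, Complex.exp_zero, one_smul]
  have e1 : (Pi.single (Sum.inl (Sum.inl false)) 1 : (Bool ⊕ A) ⊕ (W ⊕ L) → ℂ) =
      (1 / 2 : ℂ) • (vec A r 1 0 0 0 + dvec A W L) := by
    funext y
    rcases y with (((_ | _) | a) | (w | x)) <;> simp [vec, dvec]
    norm_num
  have e2 : ((-1 : ℂ) • Pi.single (Sum.inl (Sum.inl true)) 1 : (Bool ⊕ A) ⊕ (W ⊕ L) → ℂ) =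
      (1 / 2 : ℂ) • (- vec A r 1 0 0 0 + dvec A W L) := by
    funext y
    rcases y with (((_ | _) | a) | (w | x)) <;> simp [vec, dvec]
    norm_num
  rw [e1, e2, Matrix.mulVec_smul, Matrix.mulVec_add, h, hd]


theorem vec_smul (r : W → L → Prop) (k c0 c1 c2 c3 : ℂ) :
    k • vec A r c0 c1 c2 c3 = vec A r (k * c0) (k * c1) (k * c2) (k * c3) := by
  funext y
  rcases y with ((b | a) | (w | x)) <;> simp [vec, mul_assoc]

theorem vec_add (r : W → L → Prop) (c0 c1 c2 c3 d0 d1 d2 d3 : ℂ) :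
    vec A r c0 c1 c2 c3 + vec A r d0 d1 d2 d3 = vec A r (c0 + d0) (c1 + d1) (c2 + d2) (c3 + d3) := by
  funext y
  rcases y with ((b | a) | (w | x)) <;> simp [vec, add_mul]

open Classical in
/-- Complete bipartite graphs `K_{2,k}`. -/
theorem K2_pst (r : Empty → Empty → Prop) [DecidableRel (fam A r).Adj] (k : ℕ) (hk : 1 ≤ k)
    (hA : Fintype.card A = k) : AdmitsPST (fam A r) := by
  have hmul := mulVec_vec (A := A) r 0 (fun w => w.elim)
  rw [hA] at hmul
  have hkpos : (0 : ℝ) < 2 * k := by positivity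
  set θ : ℝ := √(2 * k) with hθ
  have hθpos : 0 < θ := Real.sqrt_pos.2 hkpos
  have hθ2 : (θ : ℂ) * θ = 2 * k := by
    rw [← Complex.ofReal_mul, Real.mul_self_sqrt hkpos.le]; push_cast; ring
  have hθne : (θ : ℂ) ≠ 0 := by exact_mod_cast hθpos.ne'
  apply pst_of_neg r (Real.pi / θ)
  have hexp : ∀ (μ : ℂ) (v : (Bool ⊕ A) ⊕ (Empty ⊕ Empty) → ℂ),
      ((fam A r).adjMatrix ℂ).mulVec v = μ • v →
      Complex.exp (Complex.I * ((Real.pi / θ : ℝ) : ℂ) * μ) = -1 →
      (NormedSpace.exp ((Complex.I * ((Real.pi / θ : ℝ) : ℂ)) • (fam A r).adjMatrix ℂ)).mulVec v =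
        - v := by
    intro μ v hv hμ
    rw [exp_mulVec_of_eigen _ v (Complex.I * ((Real.pi / θ : ℝ) : ℂ) * μ)
      (by rw [Matrix.smul_mulVec, hv, smul_smul]), hμ]
    simp
  have hext : ∀ c0 c1 c2 c3 d2 d3 : ℂ, vec A r c0 c1 c2 c3 = vec A r c0 c1 d2 d3 := by
    intro c0 c1 c2 c3 d2 d3
    funext y
    rcases y with ((b | a) | (w | x))
    · rfl
    · rfl
    · exact w.elim
    · exact x.elim
  have h1 := hexp θ (vec A r θ 2 0 0)
    (by
      rw [hmul, vec_smul, hθ2, hext _ _ _ _ (θ * 0) (θ * 0)]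
      congr 1
      · push_cast; simp; ring
      · ring)
    (by
      rw [← Complex.exp_pi_mul_I]
      congr 1
      push_cast
      field_simp)
  have h2 := hexp (-θ) (vec A r θ (-2) 0 0)
    (by
      rw [hmul, vec_smul, neg_mul (θ : ℂ) (θ : ℂ), hθ2, hext _ _ _ _ (-θ * 0) (-θ * 0)]
      congr 1
      · push_cast; simp; ring
      · ring)
    (by
      have : Complex.I * ((Real.pi / θ : ℝ) : ℂ) * (-θ) = -(Real.pi * Complex.I) := by
        push_cast
        field_simp
      rw [this, Complex.exp_neg, Complex.exp_pi_mul_I]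
      norm_num)
  have hdec : vec A r 1 0 0 0 = (1 / (2 * (θ : ℂ))) • (vec A r θ 2 0 0 + vec A r θ (-2) 0 0) := by
    rw [vec_add, vec_smul]
    congr 1
    · field_simp; ring
    · ring
    · ring
    · ring
  rw [hdec, Matrix.mulVec_smul, Matrix.mulVec_add, h1, h2, ← smul_neg]
  congr 1
  abel

end Family

/-- `e` edges on `n` vertices, connected, with perfect state transfer -/
def Has (n e : ℕ) : Prop :=
  ∃ (V : Type) (_ : Fintype V) (_ : DecidableEq V) (G : SimpleGraph V)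
    (_ : DecidableRel G.Adj),
    Fintype.card V = n ∧ G.Connected ∧ AdmitsPST G ∧ G.edgeSet.ncard = e

theorem has_K2 (k : ℕ) (hk : 1 ≤ k) : Has (2 + k) (2 * k) := by
  classical
  refine ⟨(Bool ⊕ Fin k) ⊕ (Empty ⊕ Empty), inferInstance, inferInstance,
    fam (Fin k) (fun _ _ : Empty => False), Classical.decRel _, ?_, ?_, ?_, ?_⟩
  · simp
  · exact fam_connected _ ⟨0, hk⟩ (fun x => x.elim)
  · exact @K2_pst (Fin k) _ _ _ (Classical.decRel _) k hk (by simp)
  · rw [fam_ncard]; simp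

theorem has_edge : Has 2 1 := by
  refine ⟨Bool, inferInstance, inferInstance, ⊤, inferInstance, by simp, ?_, ?_, ?_⟩
  · exact SimpleGraph.connected_top
  · refine ⟨false, true, by simp, Real.pi / 2, Complex.I, by simp, ?_⟩
    have h1 : ((⊤ : SimpleGraph Bool).adjMatrix ℂ).mulVec (fun _ => 1) =
        (1 : ℂ) • (fun _ => (1 : ℂ)) := by
      funext y
      cases y <;> simp [Matrix.mulVec, dotProduct, SimpleGraph.adjMatrix_apply]
    have h2 : ((⊤ : SimpleGraph Bool).adjMatrix ℂ).mulVec (fun b => if b then -1 else 1) =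
        (-1 : ℂ) • (fun b : Bool => if b then (-1 : ℂ) else 1) := by
      funext y
      cases y <;> simp [Matrix.mulVec, dotProduct, SimpleGraph.adjMatrix_apply]
    have e1 := exp_mulVec_of_eigen ((Complex.I * ((Real.pi / 2 : ℝ) : ℂ)) •
      (⊤ : SimpleGraph Bool).adjMatrix ℂ) _ (Complex.I * ((Real.pi / 2 : ℝ) : ℂ) * 1)
      (by rw [Matrix.smul_mulVec, h1, smul_smul])
    have e2 := exp_mulVec_of_eigen ((Complex.I * ((Real.pi / 2 : ℝ) : ℂ)) •
      (⊤ : SimpleGraph Bool).adjMatrix ℂ) _ (Complex.I * ((Real.pi / 2 : ℝ) : ℂ) * (-1))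
      (by rw [Matrix.smul_mulVec, h2, smul_smul])
    have c1 : Complex.exp (Complex.I * ((Real.pi / 2 : ℝ) : ℂ) * 1) = Complex.I := by
      rw [mul_one, mul_comm, Complex.exp_mul_I, ← Complex.ofReal_cos, ← Complex.ofReal_sin,
        Real.cos_pi_div_two, Real.sin_pi_div_two]
      simp
    have c2 : Complex.exp (Complex.I * ((Real.pi / 2 : ℝ) : ℂ) * (-1)) = -Complex.I := by
      rw [mul_neg, Complex.exp_neg, c1, Complex.inv_I]
    rw [c1] at e1
    rw [c2] at e2
    have d1 : (Pi.single false 1 : Bool → ℂ) = (1 / 2 : ℂ) • ((fun _ => (1 : ℂ)) +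
        (fun b : Bool => if b then (-1 : ℂ) else 1)) := by
      funext y
      cases y <;> simp; norm_num
    rw [d1, Matrix.mulVec_smul, Matrix.mulVec_add, e1, e2]
    funext y
    cases y <;> simp; ring
  · have h := two_mul_ncard (⊤ : SimpleGraph Bool)
    rw [show (∑ y : Bool, ∑ z : Bool, @ite ℕ ((⊤ : SimpleGraph Bool).Adj y z)
      (Classical.propDecidable _) 1 0) = 2 by
        simp only [Fintype.sum_bool, SimpleGraph.top_adj]; simp] at h
    omega


end Pool.Agent.Helper353.PST.K2
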