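import Mathlib

/-! Spectral preliminaries for perfect state transfer in trees. -/

set_option autoImplicit false

open Finset Polynomial

namespace Pool.Agent.Helper353.PST

variable {V : Type} [Fintype V] [DecidableEq V]

/-- Spectral decomposition data of a real symmetric matrix. -/
structure SD (A : Matrix V V ℝ) where
  lam : V → ℝ
  U : V → V → ℝ
  orth : ∀ j k, ∑ z, U j z * U k z = if j = k then 1 else 0
  compl : ∀ z w, ∑ j, U j z * U j w = if z = w then 1 else 0
  eig : ∀ j, A.mulVec (U j) = lam j • U j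

theorem exists_SD (A : Matrix V V ℝ) (hA : A.IsHermitian) : Nonempty (SD A) := by
  refine ⟨⟨hA.eigenvalues, fun j z => hA.eigenvectorBasis j z, ?_, ?_, ?_⟩⟩
  · intro j k
    have h := congrFun (congrFun (Unitary.coe_star_mul_self hA.eigenvectorUnitary) j) k
    rw [Matrix.mul_apply] at h
    simp only [Matrix.star_apply, Matrix.IsHermitian.eigenvectorUnitary_apply, star_trivial] at h
    rw [Matrix.one_apply] at h
    exact h
  · intro z w
    have h := congrFun (congrFun (Unitary.coe_mul_star_self hA.eigenvectorUnitary) z) w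
    rw [Matrix.mul_apply] at h
    simp only [Matrix.star_apply, Matrix.IsHermitian.eigenvectorUnitary_apply, star_trivial] at h
    rw [Matrix.one_apply] at h
    exact h
  · intro j
    exact hA.mulVec_eigenvectorBasis j

variable {A : Matrix V V ℝ} (S : SD A)

namespace SD

theorem pow_eig (m : ℕ) (j : V) : (A ^ m).mulVec (S.U j) = S.lam j ^ m • S.U j := by
  induction m with
  | zero => simp
  | succ m ih =>
    rw [pow_succ, ← Matrix.mulVec_mulVec, S.eig, Matrix.mulVec_smul, ih, smul_smul, pow_succ]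
    congr 1
    ring

theorem pow_entry (m : ℕ) (z w : V) :
    (A ^ m) z w = ∑ j, S.lam j ^ m * (S.U j z * S.U j w) := by
  have h1 : (A ^ m) z w = ∑ y, (A ^ m) z y * ∑ j, S.U j y * S.U j w := by
    simp only [S.compl]
    simp
  rw [h1]
  simp only [Finset.mul_sum]
  rw [Finset.sum_comm]
  refine Finset.sum_congr rfl fun j _ => ?_
  have h2 := congrFun (S.pow_eig m j) z
  simp only [Matrix.mulVec, dotProduct, Pi.smul_apply, smul_eq_mul] at h2
  calc ∑ y, (A ^ m) z y * (S.U j y * S.U j w) = (∑ y, (A ^ m) z y * S.U j y) * S.U j w := by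
        rw [Finset.sum_mul]
        exact Finset.sum_congr rfl fun y _ => by ring
    _ = _ := by rw [h2]; ring

theorem U_ne (j : V) : ∃ z, S.U j z ≠ 0 := by
  by_contra h
  push Not at h
  have := S.orth j j
  simp [h] at this

/-- coordinates of a vector -/
theorem sq_sum_le (z : V) (J : Finset V) : ∑ j ∈ J, S.U j z ^ 2 ≤ 1 := by
  have h := S.compl z z
  rw [if_pos rfl] at h
  rw [← h]
  refine (Finset.sum_le_univ_sum_of_nonneg fun j => sq_nonneg _).trans_eq ?_
  exact Finset.sum_congr rfl fun j _ => by ring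

theorem isIntegral_lam (B : Matrix V V ℤ) (hB : A = B.map (Int.cast : ℤ → ℝ)) (j : V) :
    IsIntegral ℤ (S.lam j) := by
  refine ⟨B.charpoly, B.charpoly_monic, ?_⟩
  have hA : A.charpoly = B.charpoly.map (Int.castRingHom ℝ) := by
    rw [hB]
    exact Matrix.charpoly_map B (Int.castRingHom ℝ)
  have h0 : aeval A A.charpoly = 0 := Matrix.aeval_self_charpoly A
  have h1 : ∀ p : ℝ[X], (aeval A p).mulVec (S.U j) = p.eval (S.lam j) • S.U j := by
    intro p
    induction p using Polynomial.induction_on' with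
    | add p q hp hq => rw [map_add, Matrix.add_mulVec, hp, hq, eval_add, add_smul]
    | monomial n a =>
      rw [aeval_monomial, eval_monomial, Algebra.algebraMap_eq_smul_one, smul_mul_assoc, one_mul,
        Matrix.smul_mulVec, S.pow_eig, smul_smul]
  have h2 := h1 A.charpoly
  rw [h0, Matrix.zero_mulVec] at h2
  obtain ⟨z, hz⟩ := S.U_ne j
  have h3 := congrFun h2 z
  simp only [Pi.zero_apply, Pi.smul_apply, smul_eq_mul] at h3
  have h4 : A.charpoly.eval (S.lam j) = 0 := by
    rcases mul_eq_zero.1 h3.symm with h | h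
    · exact h
    · exact absurd h hz
  rw [hA, eval_map] at h4
  exact h4

end SD

theorem rat_of_integral (x : ℝ) (hx : IsIntegral ℤ x) (r : ℚ) (hr : x = r) : ∃ n : ℤ, x = n := by
  have h1 : IsIntegral ℤ r := by
    rw [hr] at hx
    have : (r : ℝ) = algebraMap ℚ ℝ r := rfl
    rw [this] at hx
    exact (isIntegral_algebraMap_iff (algebraMap ℚ ℝ).injective).1 hx
  obtain ⟨n, hn⟩ := IsIntegrallyClosed.isIntegral_iff.1 h1
  refine ⟨n, ?_⟩
  rw [hr, ← hn]
  simp

/-- Rational structure: if all eigenvalues in the support of `a` are integer multiples of `g`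
and not all vanish, then `g ^ 2` is rational. -/
theorem rational_sq (B : Matrix V V ℤ) (hB : A = B.map (Int.cast : ℤ → ℝ)) (S : SD A) (a : V)
    (g : ℝ) (m : V → ℤ) (hm : ∀ j, S.U j a ≠ 0 → S.lam j = m j * g)
    (j0 : V) (hj0 : S.U j0 a ≠ 0) (hmj0 : m j0 ≠ 0) : ∃ r : ℚ, g ^ 2 = r := by
  classical
  set Θ : Finset ℝ := (univ.filter fun j => S.U j a ≠ 0).image fun j => S.lam j ^ 2 with hΘ
  set f : ℝ[X] := ∏ τ ∈ Θ, (X - C τ) with hf
  have hfm : f.Monic := monic_prod_of_monic _ _ fun τ _ => monic_X_sub_C τ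
  have hdeg : f.natDegree = Θ.card := by
    rw [hf, natDegree_prod_of_monic _ _ fun τ _ => monic_X_sub_C τ]
    simp
  obtain ⟨φ, hφ⟩ : ∃ φ : ℝ →ₗ[ℚ] ℚ, φ 1 = 1 := by
    obtain ⟨φ, hφ⟩ := (Algebra.linearMap ℚ ℝ).exists_leftInverse_of_injective
      (LinearMap.ker_eq_bot.2 (algebraMap ℚ ℝ).injective)
    refine ⟨φ, ?_⟩
    have := LinearMap.congr_fun hφ 1
    simpa using this
  have hφint : ∀ (x : ℝ) (n : ℤ), φ (x * n) = φ x * n := by
    intro x n
    have : x * n = n • x := by rw [zsmul_eq_mul, mul_comm]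
    rw [this, map_zsmul, zsmul_eq_mul, mul_comm]
  set n := Θ.card with hn
  set F : ℝ[X] := ∑ k ∈ range (n + 1), monomial k ((φ (f.coeff k) : ℚ) : ℝ) with hF
  have hFc : ∀ i, F.coeff i = ((φ (f.coeff i) : ℚ) : ℝ) := by
    intro i
    rw [hF, finsetSum_coeff]
    simp only [coeff_monomial]
    by_cases hi : i < n + 1
    · rw [Finset.sum_eq_single i]
      · simp
      · intro b _ hb
        simp [hb]
      · intro h
        exact absurd (Finset.mem_range.2 hi) h
    · have h0 : f.coeff i = 0 := coeff_eq_zero_of_natDegree_lt (by omega)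
      rw [h0, map_zero, Rat.cast_zero]
      refine Finset.sum_eq_zero fun k hk => ?_
      rw [if_neg]
      have := Finset.mem_range.1 hk
      omega
  have hfroot : ∀ j, S.U j a ≠ 0 → f.eval (S.lam j ^ 2) = 0 := by
    intro j hj
    rw [hf, eval_prod]
    refine Finset.prod_eq_zero (i := S.lam j ^ 2) ?_ (by simp)
    rw [hΘ, Finset.mem_image]
    exact ⟨j, by simp [hj], rfl⟩
  have hAint : ∀ k z, (A ^ k) z a = (((B ^ k) z a : ℤ) : ℝ) := by
    intro k z
    have : A ^ k = (B ^ k).map (Int.castRingHom ℝ) := by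
      rw [hB]
      exact (Matrix.map_pow B (Int.castRingHom ℝ) k).symm
    rw [this]
    simp
  have hi : ∀ z, ∑ k ∈ range (n + 1), f.coeff k * (A ^ (2 * k)) z a = 0 := by
    intro z
    simp only [S.pow_entry, Finset.mul_sum]
    rw [Finset.sum_comm]
    refine Finset.sum_eq_zero fun j _ => ?_
    by_cases hj : S.U j a = 0
    · simp [hj]
    · have h1 : ∑ k ∈ range (n + 1), f.coeff k * (S.lam j ^ (2 * k) * (S.U j z * S.U j a)) =
          f.eval (S.lam j ^ 2) * (S.U j z * S.U j a) := by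
        rw [eval_eq_sum_range' (n := n + 1) (by omega), Finset.sum_mul]
        refine Finset.sum_congr rfl fun k _ => ?_
        rw [pow_mul]; ring
      rw [h1, hfroot j hj, zero_mul]
  have hii : ∀ z, ∑ k ∈ range (n + 1), F.coeff k * (A ^ (2 * k)) z a = 0 := by
    intro z
    have h1 := congrArg φ (hi z)
    rw [map_sum, map_zero] at h1
    simp only [hAint, hφint] at h1
    have h2 : (((∑ k ∈ range (n + 1), φ (f.coeff k) * (((B ^ (2 * k)) z a : ℤ) : ℚ)) : ℚ) : ℝ) = 0 := by
      rw [h1]; simp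
    push_cast at h2
    simp only [hAint, hFc]
    exact h2
  have hFroot : ∀ τ ∈ Θ, F.eval τ = 0 := by
    intro τ hτ
    rw [hΘ, Finset.mem_image] at hτ
    obtain ⟨j, hj, rfl⟩ := hτ
    rw [Finset.mem_filter] at hj
    have hj := hj.2
    have h1 : F.eval (S.lam j ^ 2) * S.U j a = 0 := by
      have hFd : F.natDegree < n + 1 := by
        rw [Nat.lt_succ_iff, natDegree_le_iff_coeff_eq_zero]
        intro N hN
        rw [hFc, coeff_eq_zero_of_natDegree_lt (by omega), map_zero, Rat.cast_zero]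
      rw [eval_eq_sum_range' hFd, Finset.sum_mul]
      have h2 : ∀ k, F.coeff k * (S.lam j ^ 2) ^ k * S.U j a =
          ∑ z, S.U j z * (F.coeff k * (A ^ (2 * k)) z a) := by
        intro k
        have h3 : ∑ z, S.U j z * (A ^ (2 * k)) z a = S.lam j ^ (2 * k) * S.U j a := by
          simp only [S.pow_entry, Finset.mul_sum]
          rw [Finset.sum_comm]
          have : ∀ i, ∑ z, S.U j z * (S.lam i ^ (2 * k) * (S.U i z * S.U i a)) =
              (S.lam i ^ (2 * k) * S.U i a) * (if j = i then 1 else 0) := by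
            intro i
            rw [← S.orth j i, Finset.mul_sum]
            exact Finset.sum_congr rfl fun z _ => by ring
          simp only [this]
          simp
        calc F.coeff k * (S.lam j ^ 2) ^ k * S.U j a
            = F.coeff k * (S.lam j ^ (2 * k) * S.U j a) := by rw [pow_mul]; ring
          _ = F.coeff k * ∑ z, S.U j z * (A ^ (2 * k)) z a := by rw [h3]
          _ = _ := by
            rw [Finset.mul_sum]
            exact Finset.sum_congr rfl fun z _ => by ring
      simp only [h2]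
      rw [Finset.sum_comm]
      simp only [← Finset.mul_sum, hii, mul_zero, Finset.sum_const_zero]
    rcases mul_eq_zero.1 h1 with h | h
    · exact h
    · exact absurd h hj
  have hfF : f = F := by
    refine Polynomial.eq_of_degree_sub_lt_of_eval_finset_eq Θ ?_ ?_
    · rw [degree_lt_iff_coeff_zero]
      intro k hk
      rw [coeff_sub, hFc]
      rcases eq_or_lt_of_le hk with h | h
      · have : f.coeff k = 1 := by
          rw [← h, ← hn, ← hdeg]
          exact hfm.coeff_natDegree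
        rw [this, hφ]
        simp
      · rw [coeff_eq_zero_of_natDegree_lt (by omega)]
        simp
    · intro τ hτ
      rw [hFroot τ hτ]
      rw [hf, eval_prod]
      exact Finset.prod_eq_zero hτ (by simp)
  -- the next coefficient
  have hnext : f.nextCoeff = -∑ τ ∈ Θ, τ := by
    rw [hf]
    exact prod_X_sub_C_nextCoeff (fun τ => τ)
  have hnpos : 0 < n := by
    rw [hn, Finset.card_pos]
    exact ⟨_, Finset.mem_image.2 ⟨j0, by simp [hj0], rfl⟩⟩
  have hnc : f.nextCoeff = ((φ (f.coeff (n - 1)) : ℚ) : ℝ) := by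
    rw [nextCoeff_of_natDegree_pos (by omega), hdeg, ← hFc, ← hfF]
  -- squares are multiples of `g ^ 2`
  have hk : ∀ τ ∈ Θ, ∃ k : ℕ, τ = k * g ^ 2 := by
    intro τ hτ
    rw [hΘ, Finset.mem_image] at hτ
    obtain ⟨j, hj, rfl⟩ := hτ
    rw [Finset.mem_filter] at hj
    refine ⟨(m j).natAbs ^ 2, ?_⟩
    rw [hm j hj.2]
    push_cast
    rw [← Int.cast_natCast (R := ℝ) (m j).natAbs, mul_pow]
    congr 1
    have : (((m j).natAbs : ℤ)) ^ 2 = (m j) ^ 2 := Int.natAbs_sq _
    exact_mod_cast this.symm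
  choose! k hk using hk
  have hsum : ∑ τ ∈ Θ, τ = ((∑ τ ∈ Θ, k τ : ℕ) : ℝ) * g ^ 2 := by
    rw [Nat.cast_sum, Finset.sum_mul]
    exact Finset.sum_congr rfl fun τ hτ => hk τ hτ
  by_cases hg : g = 0
  · exact ⟨0, by simp [hg]⟩
  have hKpos : 0 < ∑ τ ∈ Θ, k τ := by
    have hmem : S.lam j0 ^ 2 ∈ Θ := Finset.mem_image.2 ⟨j0, by simp [hj0], rfl⟩
    refine Finset.sum_pos' (fun _ _ => Nat.zero_le _) ⟨_, hmem, ?_⟩
    rcases Nat.eq_zero_or_pos (k (S.lam j0 ^ 2)) with h | h
    · exfalso
      have h1 := hk _ hmem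
      rw [h, hm j0 hj0] at h1
      simp only [Nat.cast_zero, zero_mul] at h1
      have : (m j0 : ℝ) * g ≠ 0 := mul_ne_zero (by exact_mod_cast hmj0) hg
      exact this (pow_eq_zero_iff (n := 2) (by norm_num) |>.1 h1)
    · exact h
  have hKr : ((∑ τ ∈ Θ, k τ : ℕ) : ℝ) ≠ 0 := by
    have : (∑ τ ∈ Θ, k τ : ℕ) ≠ 0 := by omega
    exact_mod_cast this
  refine ⟨-(φ (f.coeff (n - 1))) / ((∑ τ ∈ Θ, k τ : ℕ) : ℚ), ?_⟩
  have h5 : ((∑ τ ∈ Θ, k τ : ℕ) : ℝ) * g ^ 2 = -((φ (f.coeff (n - 1)) : ℚ) : ℝ) := by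
    rw [← hsum, ← hnc, hnext, neg_neg]
  rw [Rat.cast_div, Rat.cast_neg, Rat.cast_natCast, ← h5]
  field_simp

omit [Fintype V] [DecidableEq V] in
/-- Lattice normalisation. -/
theorem lattice (lam : V → ℝ) (P : V → Prop) (m : V → ℤ) (g : ℝ)
    (hm : ∀ j, P j → lam j = m j * g) (hint : ∀ j, P j → IsIntegral ℤ (lam j))
    (hrat : ∃ r : ℚ, g ^ 2 = r) :
    ∃ d : ℤ, (∀ j, P j → d ∣ m j) ∧ ∃ D : ℤ, (d * g) ^ 2 = D := by
  let H : AddSubgroup ℤ :=
    { carrier := {x : ℤ | IsIntegral ℤ ((x : ℝ) * g)}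
      zero_mem' := by
        simp only [Set.mem_ofPred_eq, Int.cast_zero, zero_mul]
        exact isIntegral_zero
      add_mem' := by
        intro x y hx hy
        simp only [Set.mem_ofPred_eq] at hx hy ⊢
        rw [Int.cast_add, add_mul]
        exact hx.add hy
      neg_mem' := by
        intro x hx
        simp only [Set.mem_ofPred_eq] at hx ⊢
        rw [Int.cast_neg, neg_mul]
        exact hx.neg }
  obtain ⟨d, hd⟩ := Int.subgroup_cyclic H
  have hdH : d ∈ H := by
    rw [hd]
    exact AddSubgroup.subset_closure rfl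
  refine ⟨d, ?_, ?_⟩
  · intro j hj
    have hmem : m j ∈ H := by
      change IsIntegral ℤ ((m j : ℝ) * g)
      rw [← hm j hj]
      exact hint j hj
    rw [hd, AddSubgroup.mem_closure_singleton] at hmem
    obtain ⟨c, hc⟩ := hmem
    exact ⟨c, by rw [← hc, zsmul_eq_mul, mul_comm]; simp⟩
  · have h1 : IsIntegral ℤ ((d : ℝ) * g) := hdH
    obtain ⟨r, hr⟩ := hrat
    exact rat_of_integral _ (h1.pow 2) (d ^ 2 * r) (by push_cast; rw [mul_pow, hr])

end Pool.Agent.Helper353.PST
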