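import Pool.Agent.Helper353.PST.Tree1
import Pool.Agent.Helper353.PST.Fam2

/-! Perfect state transfer: signs, phases, and the cut inequality. -/

set_option autoImplicit false

open Finset Polynomial

namespace Pool.Agent.Helper353.PST

variable {V : Type} [Fintype V] [DecidableEq V] {A : Matrix V V ℝ}

/-- The phase relation in the eigenbasis. -/
theorem phase (S : SD A) (hsym : A.transpose = A) (a b : V) (t : ℝ) (γ : ℂ)
    (h : (NormedSpace.exp ((Complex.I * (t : ℂ)) • A.map (fun x : ℝ => (x : ℂ)))).mulVec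
      (Pi.single a 1) = γ • Pi.single b 1) (j : V) :
    Complex.exp (Complex.I * t * S.lam j) * S.U j a = γ * S.U j b := by
  set N : Matrix V V ℂ := (Complex.I * (t : ℂ)) • A.map (fun x : ℝ => (x : ℂ)) with hN
  have hNt : N.transpose = N := by
    rw [hN, Matrix.transpose_smul, ← Matrix.transpose_map, hsym]
  have hMt : (NormedSpace.exp N).transpose = NormedSpace.exp N := by
    rw [← Matrix.exp_transpose, hNt]
  have hU : N.mulVec (fun z => (S.U j z : ℂ)) =
      (Complex.I * t * S.lam j) • (fun z => (S.U j z : ℂ)) := by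
    rw [hN, Matrix.smul_mulVec]
    funext z
    have h1 := congrFun (S.eig j) z
    simp only [Matrix.mulVec, dotProduct, Pi.smul_apply, smul_eq_mul] at h1
    have h1' : ∑ x, ((A z x : ℝ) : ℂ) * (S.U j x : ℂ) = (S.lam j : ℂ) * (S.U j z : ℂ) := by
      rw [← Complex.ofReal_mul, ← h1]
      push_cast
      rfl
    simp only [Matrix.mulVec, dotProduct, Pi.smul_apply, smul_eq_mul, Matrix.map_apply]
    linear_combination (Complex.I * t) * h1'
  have hM := exp_mulVec_of_eigen N _ _ hU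
  have h2 : dotProduct (fun z => (S.U j z : ℂ)) ((NormedSpace.exp N).mulVec (Pi.single a 1)) =
      dotProduct ((NormedSpace.exp N).mulVec (fun z => (S.U j z : ℂ))) (Pi.single a 1) := by
    rw [Matrix.dotProduct_mulVec]
    congr 1
    rw [← Matrix.mulVec_transpose, hMt]
  rw [h, hM] at h2
  simp only [dotProduct_smul, smul_dotProduct, dotProduct_single, smul_eq_mul, mul_one] at h2
  exact h2.symm

/-- Sign data. -/
structure PD (S : SD A) (a b : V) where
  ab : a ≠ b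
  sgn : ∀ j, S.U j b = S.U j a ∨ S.U j b = -S.U j a

variable {S : SD A} {a b : V}

theorem sign_of_phase (S : SD A) (a b : V) (t : ℝ) (γ : ℂ) (hγ : ‖γ‖ = 1)
    (h : ∀ j, Complex.exp (Complex.I * t * S.lam j) * S.U j a = γ * S.U j b) (j : V) :
    S.U j b = S.U j a ∨ S.U j b = -S.U j a := by
  have h1 := congrArg norm (h j)
  rw [norm_mul, norm_mul, hγ, one_mul] at h1
  have h2 : ‖Complex.exp (Complex.I * t * S.lam j)‖ = 1 := by
    rw [show Complex.I * t * S.lam j = ((t * S.lam j : ℝ) : ℂ) * Complex.I by push_cast; ring]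
    exact Complex.norm_exp_ofReal_mul_I _
  rw [h2, one_mul, Complex.norm_real, Complex.norm_real, Real.norm_eq_abs, Real.norm_eq_abs] at h1
  exact abs_eq_abs.1 h1.symm

/-- indices where `a`, `b` agree -/
noncomputable def Jp (S : SD A) (a b : V) : Finset V :=
  univ.filter fun j => S.U j a ≠ 0 ∧ S.U j b = S.U j a

/-- indices where `a`, `b` are opposite -/
noncomputable def Jm (S : SD A) (a b : V) : Finset V :=
  univ.filter fun j => S.U j a ≠ 0 ∧ S.U j b = -S.U j a

theorem mem_Jp {j : V} : j ∈ Jp S a b ↔ S.U j a ≠ 0 ∧ S.U j b = S.U j a := by simp [Jp]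
theorem mem_Jm {j : V} : j ∈ Jm S a b ↔ S.U j a ≠ 0 ∧ S.U j b = -S.U j a := by simp [Jm]

theorem Jpm_disj : Disjoint (Jp S a b) (Jm S a b) := by
  rw [Finset.disjoint_left]
  intro j h1 h2
  rw [mem_Jp] at h1
  rw [mem_Jm] at h2
  have : S.U j a = 0 := by linarith [h1.2, h2.2]
  exact h1.1 this

theorem sum_Jp (hs : ∀ j, S.U j b = S.U j a ∨ S.U j b = -S.U j a) (F : V → ℝ) :
    ∑ j ∈ Jp S a b, S.U j a * F j = ∑ j, F j * (S.U j a + S.U j b) / 2 := by
  rw [Jp, Finset.sum_filter]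
  refine Finset.sum_congr rfl fun j _ => ?_
  split_ifs with h
  · rw [h.2]; ring
  · push Not at h
    by_cases h0 : S.U j a = 0
    · have : S.U j b = 0 := by rcases hs j with h1 | h1 <;> simp [h1, h0]
      rw [h0, this]; ring
    · have h1 := (hs j).resolve_left (h h0)
      rw [h1]; ring

theorem sum_Jm (hs : ∀ j, S.U j b = S.U j a ∨ S.U j b = -S.U j a) (F : V → ℝ) :
    ∑ j ∈ Jm S a b, S.U j a * F j = ∑ j, F j * (S.U j a - S.U j b) / 2 := by
  rw [Jm, Finset.sum_filter]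
  refine Finset.sum_congr rfl fun j _ => ?_
  split_ifs with h
  · rw [h.2]; ring
  · push Not at h
    by_cases h0 : S.U j a = 0
    · have : S.U j b = 0 := by rcases hs j with h1 | h1 <;> simp [h1, h0]
      rw [h0, this]; ring
    · have h1 := (hs j).resolve_right (h h0)
      rw [h1]; ring

theorem sum_Jp_U (hs : ∀ j, S.U j b = S.U j a ∨ S.U j b = -S.U j a) (z : V) :
    ∑ j ∈ Jp S a b, S.U j a * S.U j z = ((if a = z then 1 else 0) + (if b = z then 1 else 0)) / 2 := by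
  rw [sum_Jp hs, ← S.compl a z, ← S.compl b z, ← Finset.sum_add_distrib, Finset.sum_div]
  exact Finset.sum_congr rfl fun j _ => by ring

theorem sum_Jm_U (hs : ∀ j, S.U j b = S.U j a ∨ S.U j b = -S.U j a) (z : V) :
    ∑ j ∈ Jm S a b, S.U j a * S.U j z = ((if a = z then 1 else 0) - (if b = z then 1 else 0)) / 2 := by
  rw [sum_Jm hs, ← S.compl a z, ← S.compl b z, ← Finset.sum_sub_distrib, Finset.sum_div]
  exact Finset.sum_congr rfl fun j _ => by ring

theorem mass_Jp (hab : a ≠ b) (hs : ∀ j, S.U j b = S.U j a ∨ S.U j b = -S.U j a) :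
    ∑ j ∈ Jp S a b, S.U j a ^ 2 = 1 / 2 := by
  have := sum_Jp_U hs a
  rw [if_pos rfl, if_neg (Ne.symm hab)] at this
  rw [add_zero] at this
  rw [← this]
  exact Finset.sum_congr rfl fun j _ => by ring

theorem mass_Jm (hab : a ≠ b) (hs : ∀ j, S.U j b = S.U j a ∨ S.U j b = -S.U j a) :
    ∑ j ∈ Jm S a b, S.U j a ^ 2 = 1 / 2 := by
  have := sum_Jm_U hs a
  rw [if_pos rfl, if_neg (Ne.symm hab)] at this
  rw [sub_zero] at this
  rw [← this]
  exact Finset.sum_congr rfl fun j _ => by ring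

/-- Green's identity across a cut consisting of one edge `p a`. -/
theorem green (S : SD A) (hsym : ∀ z w, A z w = A w z) (a p : V) (B : Finset V) (hp : p ∈ B)
    (ha : a ∉ B) (hcut : ∀ z ∈ B, ∀ w, w ∉ B → A z w ≠ 0 → z = p ∧ w = a) (hpa : A p a = 1)
    (j k : V) :
    (S.lam j - S.lam k) * ∑ z ∈ B, S.U j z * S.U k z = S.U j a * S.U k p - S.U j p * S.U k a := by
  have e : ∀ i z, S.lam i * S.U i z = ∑ w, A z w * S.U i w := by
    intro i z
    have := congrFun (S.eig i) z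
    simp only [Matrix.mulVec, dotProduct, Pi.smul_apply, smul_eq_mul] at this
    exact this.symm
  have h1 : (S.lam j - S.lam k) * ∑ z ∈ B, S.U j z * S.U k z =
      ∑ z ∈ B, ∑ w, A z w * (S.U j w * S.U k z - S.U j z * S.U k w) := by
    rw [Finset.mul_sum]
    refine Finset.sum_congr rfl fun z _ => ?_
    calc (S.lam j - S.lam k) * (S.U j z * S.U k z)
        = (S.lam j * S.U j z) * S.U k z - S.U j z * (S.lam k * S.U k z) := by ring
      _ = _ := by
        rw [e, e, Finset.sum_mul, Finset.mul_sum, ← Finset.sum_sub_distrib]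
        exact Finset.sum_congr rfl fun w _ => by ring
  have h2 : ∑ z ∈ B, ∑ w, A z w * (S.U j w * S.U k z - S.U j z * S.U k w) =
      ∑ z ∈ B, ∑ w ∈ B, A z w * (S.U j w * S.U k z - S.U j z * S.U k w) +
      ∑ z ∈ B, ∑ w ∈ Bᶜ, A z w * (S.U j w * S.U k z - S.U j z * S.U k w) := by
    rw [← Finset.sum_add_distrib]
    exact Finset.sum_congr rfl fun z _ => (Finset.sum_add_sum_compl B _).symm
  have h3 : ∑ z ∈ B, ∑ w ∈ B, A z w * (S.U j w * S.U k z - S.U j z * S.U k w) = 0 := by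
    have h4 : ∑ z ∈ B, ∑ w ∈ B, A z w * (S.U j w * S.U k z - S.U j z * S.U k w) =
        -∑ z ∈ B, ∑ w ∈ B, A z w * (S.U j w * S.U k z - S.U j z * S.U k w) := by
      conv_lhs => rw [Finset.sum_comm]
      rw [← Finset.sum_neg_distrib]
      refine Finset.sum_congr rfl fun z _ => ?_
      rw [← Finset.sum_neg_distrib]
      refine Finset.sum_congr rfl fun w _ => ?_
      rw [hsym w z]; ring
    linarith
  have h5 : ∑ z ∈ B, ∑ w ∈ Bᶜ, A z w * (S.U j w * S.U k z - S.U j z * S.U k w) =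
      S.U j a * S.U k p - S.U j p * S.U k a := by
    rw [Finset.sum_eq_single_of_mem p hp, Finset.sum_eq_single_of_mem a (by simpa using ha), hpa,
      one_mul]
    · intro w hw hwa
      rw [Finset.mem_compl] at hw
      have : A p w = 0 := by
        by_contra hne
        exact hwa (hcut p hp w hw hne).2
      rw [this, zero_mul]
    · intro z hz hzp
      refine Finset.sum_eq_zero fun w hw => ?_
      rw [Finset.mem_compl] at hw
      have : A z w = 0 := by
        by_contra hne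
        exact hzp (hcut z hz w hw hne).1
      rw [this, zero_mul]
  rw [h1, h2, h3, h5, zero_add]

/-- `R_j = ∑_{k ∈ K} U_k(a)^2 / (λ_j - λ_k)` -/
noncomputable def RR (S : SD A) (a : V) (K : Finset V) (j : V) : ℝ :=
  ∑ k ∈ K, S.U k a ^ 2 / (S.lam j - S.lam k)

/-- The cut inequality. -/
theorem cut_ineq (hab : a ≠ b) (hs : ∀ j, S.U j b = S.U j a ∨ S.U j b = -S.U j a)
    (hsym : ∀ z w, A z w = A w z) (p : V) (B : Finset V) (hp : p ∈ B)
    (ha : a ∉ B) (hb : b ∈ B) (hcut : ∀ z ∈ B, ∀ w, w ∉ B → A z w ≠ 0 → z = p ∧ w = a)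
    (hpa : A p a = 1) (hne : ∀ j ∈ Jp S a b, ∀ k ∈ Jm S a b, S.lam j ≠ S.lam k) :
    1 / 16 ≤ ∑ j ∈ Jp S a b, S.U j a ^ 2 * RR S a (Jm S a b) j ^ 2 +
      ∑ k ∈ Jm S a b, S.U k a ^ 2 * RR S a (Jp S a b) k ^ 2 := by
  have h1 : ∑ j ∈ Jp S a b, ∑ k ∈ Jm S a b, S.U j a * S.U k a * ∑ z ∈ B, S.U j z * S.U k z =
      -1 / 4 := by
    have : ∑ j ∈ Jp S a b, ∑ k ∈ Jm S a b, S.U j a * S.U k a * ∑ z ∈ B, S.U j z * S.U k z =
        ∑ z ∈ B, (∑ j ∈ Jp S a b, S.U j a * S.U j z) * (∑ k ∈ Jm S a b, S.U k a * S.U k z) := by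
      calc ∑ j ∈ Jp S a b, ∑ k ∈ Jm S a b, S.U j a * S.U k a * ∑ z ∈ B, S.U j z * S.U k z
          = ∑ j ∈ Jp S a b, ∑ k ∈ Jm S a b, ∑ z ∈ B,
              (S.U j a * S.U j z) * (S.U k a * S.U k z) := by
            refine Finset.sum_congr rfl fun j _ => Finset.sum_congr rfl fun k _ => ?_
            rw [Finset.mul_sum]
            exact Finset.sum_congr rfl fun z _ => by ring
        _ = ∑ j ∈ Jp S a b, ∑ z ∈ B, ∑ k ∈ Jm S a b,
              (S.U j a * S.U j z) * (S.U k a * S.U k z) :=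
            Finset.sum_congr rfl fun j _ => Finset.sum_comm
        _ = ∑ z ∈ B, ∑ j ∈ Jp S a b, ∑ k ∈ Jm S a b,
              (S.U j a * S.U j z) * (S.U k a * S.U k z) := Finset.sum_comm
        _ = _ := by
            refine Finset.sum_congr rfl fun z _ => ?_
            rw [Finset.sum_mul_sum]
    rw [this]
    have h2 : ∀ z ∈ B, (∑ j ∈ Jp S a b, S.U j a * S.U j z) * (∑ k ∈ Jm S a b, S.U k a * S.U k z) =
        if b = z then -1 / 4 else 0 := by
      intro z hz
      have haz : a ≠ z := fun h => ha (h ▸ hz)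
      rw [sum_Jp_U hs, sum_Jm_U hs, if_neg haz]
      split_ifs <;> norm_num
    rw [Finset.sum_congr rfl h2, Finset.sum_ite_eq, if_pos hb]
  have h2 : ∑ j ∈ Jp S a b, ∑ k ∈ Jm S a b, S.U j a * S.U k a * ∑ z ∈ B, S.U j z * S.U k z =
      -(∑ j ∈ Jp S a b, (S.U j a * RR S a (Jm S a b) j) * S.U j p +
        ∑ k ∈ Jm S a b, (S.U k a * RR S a (Jp S a b) k) * S.U k p) := by
    have e1 : ∀ j ∈ Jp S a b, ∀ k ∈ Jm S a b,
        S.U j a * S.U k a * ∑ z ∈ B, S.U j z * S.U k z =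
        -((S.U j a * (S.U k a ^ 2 / (S.lam j - S.lam k))) * S.U j p +
          (S.U k a * (S.U j a ^ 2 / (S.lam k - S.lam j))) * S.U k p) := by
      intro j hj k hk
      have hg := green S hsym a p B hp ha hcut hpa j k
      have hd : S.lam j - S.lam k ≠ 0 := sub_ne_zero.2 (hne j hj k hk)
      have hd' : S.lam k - S.lam j ≠ 0 := sub_ne_zero.2 (hne j hj k hk).symm
      have hin : ∑ z ∈ B, S.U j z * S.U k z =
          (S.U j a * S.U k p - S.U j p * S.U k a) / (S.lam j - S.lam k) := by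
        rw [eq_div_iff hd, ← hg]; ring
      rw [hin]
      have : S.lam k - S.lam j = -(S.lam j - S.lam k) := by ring
      rw [this]
      field_simp
      ring
    rw [Finset.sum_congr rfl fun j hj => Finset.sum_congr rfl fun k hk => e1 j hj k hk]
    simp only [Finset.sum_neg_distrib, Finset.sum_add_distrib, neg_add]
    congr 1
    · congr 1
      refine Finset.sum_congr rfl fun j _ => ?_
      rw [RR, Finset.mul_sum, Finset.sum_mul]
    · congr 1
      rw [Finset.sum_comm]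
      refine Finset.sum_congr rfl fun j _ => ?_
      rw [RR, Finset.mul_sum, Finset.sum_mul]
  have h3 : ∑ j ∈ Jp S a b, (S.U j a * RR S a (Jm S a b) j) * S.U j p +
        ∑ k ∈ Jm S a b, (S.U k a * RR S a (Jp S a b) k) * S.U k p = 1 / 4 := by
    linarith
  have hcs1 := Finset.sum_mul_sq_le_sq_mul_sq (Jp S a b) (fun j => S.U j a * RR S a (Jm S a b) j)
    (fun j => S.U j p)
  have hcs2 := Finset.sum_mul_sq_le_sq_mul_sq (Jm S a b) (fun k => S.U k a * RR S a (Jp S a b) k)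
    (fun j => S.U j p)
  have hsq : ∑ j ∈ Jp S a b, S.U j p ^ 2 + ∑ k ∈ Jm S a b, S.U k p ^ 2 ≤ 1 := by
    rw [← Finset.sum_union Jpm_disj]
    exact S.sq_sum_le p _
  have em : ∀ (j : V) (x : ℝ), (S.U j a * x) ^ 2 = S.U j a ^ 2 * x ^ 2 := fun j x => by ring
  simp only [em] at hcs1 hcs2
  set X1 := ∑ j ∈ Jp S a b, (S.U j a * RR S a (Jm S a b) j) * S.U j p
  set X2 := ∑ k ∈ Jm S a b, (S.U k a * RR S a (Jp S a b) k) * S.U k p
  set Y1 := ∑ j ∈ Jp S a b, S.U j a ^ 2 * RR S a (Jm S a b) j ^ 2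
  set Y2 := ∑ k ∈ Jm S a b, S.U k a ^ 2 * RR S a (Jp S a b) k ^ 2
  set Z1 := ∑ j ∈ Jp S a b, S.U j p ^ 2
  set Z2 := ∑ k ∈ Jm S a b, S.U k p ^ 2
  have hY1 : 0 ≤ Y1 := Finset.sum_nonneg fun _ _ => by positivity
  have hY2 : 0 ≤ Y2 := Finset.sum_nonneg fun _ _ => by positivity
  have hZ1 : 0 ≤ Z1 := Finset.sum_nonneg fun _ _ => by positivity
  have hZ2 : 0 ≤ Z2 := Finset.sum_nonneg fun _ _ => by positivity
  -- (X1 + X2)^2 ≤ (Y1 + Y2)(Z1 + Z2)
  have hkey : (X1 + X2) ^ 2 ≤ (Y1 + Y2) * (Z1 + Z2) := by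
    have h4 : (X1 * X2) ^ 2 ≤ (Y1 * Z2) * (Y2 * Z1) := by
      calc (X1 * X2) ^ 2 = X1 ^ 2 * X2 ^ 2 := by ring
        _ ≤ (Y1 * Z1) * (Y2 * Z2) := mul_le_mul hcs1 hcs2 (sq_nonneg _) (by positivity)
        _ = _ := by ring
    have h5 : 2 * (X1 * X2) ≤ Y1 * Z2 + Y2 * Z1 := by
      by_contra hcon
      push Not at hcon
      have hp1 : 0 ≤ Y1 * Z2 := by positivity
      have hp2 : 0 ≤ Y2 * Z1 := by positivity
      nlinarith [sq_nonneg (Y1 * Z2 - Y2 * Z1)]
    nlinarith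
  rw [h3] at hkey
  have : (Y1 + Y2) * (Z1 + Z2) ≤ (Y1 + Y2) * 1 := mul_le_mul_of_nonneg_left hsq (by positivity)
  norm_num at hkey ⊢
  linarith

end Pool.Agent.Helper353.PST
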