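import Pool.Agent.Helper353.PST.Tree2

/-! Bipartite symmetry, the lattice structure of the support, and the mod 2 obstruction. -/

set_option autoImplicit false

open Finset Polynomial

namespace Pool.Agent.Helper353.PST

variable {V : Type} [Fintype V] [DecidableEq V] {A : Matrix V V ℝ}

theorem pow_sign (s : V → ℝ) (hs1 : ∀ z, s z ^ 2 = 1) (hs : ∀ z w, A z w ≠ 0 → s z * s w = -1)
    (m : ℕ) : ∀ z w, s z * s w * (A ^ m) z w = (-1) ^ m * (A ^ m) z w := by
  induction m with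
  | zero =>
    intro z w
    by_cases h : z = w
    · subst h
      have := hs1 z
      simp only [pow_zero, Matrix.one_apply_eq, mul_one]
      nlinarith
    · simp [Matrix.one_apply_ne h]
  | succ m ih =>
    intro z w
    rw [pow_succ, Matrix.mul_apply, Finset.mul_sum, Finset.mul_sum]
    refine Finset.sum_congr rfl fun y _ => ?_
    by_cases h : A y w = 0
    · simp [h]
    · have h1 := hs y w h
      have h2 := hs1 y
      have h3 : s w = -s y := by
        calc s w = s y ^ 2 * s w := by rw [h2, one_mul]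
          _ = s y * (s y * s w) := by ring
          _ = -s y := by rw [h1]; ring
      have h4 := ih z y
      rw [h3, pow_succ]
      linear_combination (-A y w) * h4

theorem sym_fun (S : SD A) (s : V → ℝ) (hs1 : ∀ z, s z ^ 2 = 1)
    (hs : ∀ z w, A z w ≠ 0 → s z * s w = -1) (F : ℝ → ℝ) (z w : V) :
    ∑ j, F (-S.lam j) * (S.U j z * S.U j w) =
      s z * s w * ∑ j, F (S.lam j) * (S.U j z * S.U j w) := by
  classical
  set Λ : Finset ℝ := univ.image S.lam ∪ univ.image (fun j => -S.lam j) with hΛ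
  set p : ℝ[X] := Lagrange.interpolate Λ id F with hp
  have hinj : Set.InjOn (id : ℝ → ℝ) (Λ : Set ℝ) := Function.injective_id.injOn
  have e1 : ∀ j, F (S.lam j) = p.eval (S.lam j) := by
    intro j
    have hmem : S.lam j ∈ Λ := by simp [hΛ]
    exact (Lagrange.eval_interpolate_at_node F hinj hmem).symm
  have e2 : ∀ j, F (-S.lam j) = p.eval (-S.lam j) := by
    intro j
    have hmem : -S.lam j ∈ Λ := by simp [hΛ]
    exact (Lagrange.eval_interpolate_at_node F hinj hmem).symm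
  simp only [e1, e2]
  have hpoly : ∀ q : ℝ[X], ∑ j, q.eval (-S.lam j) * (S.U j z * S.U j w) =
      s z * s w * ∑ j, q.eval (S.lam j) * (S.U j z * S.U j w) := by
    intro q
    induction q using Polynomial.induction_on' with
    | add q1 q2 h1 h2 =>
      simp only [eval_add, add_mul, Finset.sum_add_distrib]
      rw [h1, h2]; ring
    | monomial n c =>
      simp only [eval_monomial]
      have h1 : ∑ j, c * (-S.lam j) ^ n * (S.U j z * S.U j w) = c * ((-1) ^ n * (A ^ n) z w) := by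
        rw [S.pow_entry, Finset.mul_sum, Finset.mul_sum]
        refine Finset.sum_congr rfl fun j _ => ?_
        rw [neg_pow]; ring
      have h2 : ∑ j, c * (S.lam j) ^ n * (S.U j z * S.U j w) = c * (A ^ n) z w := by
        rw [S.pow_entry, Finset.mul_sum]
        refine Finset.sum_congr rfl fun j _ => ?_
        ring
      rw [h1, h2, ← pow_sign s hs1 hs n z w]
      ring
  exact hpoly p

variable {S : SD A} {a b : V}

theorem sumF_Jp (hsg : ∀ j, S.U j b = S.U j a ∨ S.U j b = -S.U j a) (F : ℝ → ℝ) :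
    ∑ j ∈ Jp S a b, S.U j a ^ 2 * F (S.lam j) =
      (∑ j, F (S.lam j) * (S.U j a * S.U j a) + ∑ j, F (S.lam j) * (S.U j a * S.U j b)) / 2 := by
  have := sum_Jp hsg (fun j => S.U j a * F (S.lam j))
  rw [← Finset.sum_add_distrib, Finset.sum_div]
  have e : ∑ j ∈ Jp S a b, S.U j a ^ 2 * F (S.lam j) =
      ∑ j ∈ Jp S a b, S.U j a * (S.U j a * F (S.lam j)) :=
    Finset.sum_congr rfl fun j _ => by ring
  rw [e, this]
  exact Finset.sum_congr rfl fun j _ => by ring

theorem sumF_Jm (hsg : ∀ j, S.U j b = S.U j a ∨ S.U j b = -S.U j a) (F : ℝ → ℝ) :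
    ∑ j ∈ Jm S a b, S.U j a ^ 2 * F (S.lam j) =
      (∑ j, F (S.lam j) * (S.U j a * S.U j a) - ∑ j, F (S.lam j) * (S.U j a * S.U j b)) / 2 := by
  have := sum_Jm hsg (fun j => S.U j a * F (S.lam j))
  rw [← Finset.sum_sub_distrib, Finset.sum_div]
  have e : ∑ j ∈ Jm S a b, S.U j a ^ 2 * F (S.lam j) =
      ∑ j ∈ Jm S a b, S.U j a * (S.U j a * F (S.lam j)) :=
    Finset.sum_congr rfl fun j _ => by ring
  rw [e, this]
  exact Finset.sum_congr rfl fun j _ => by ring

theorem sym_Jp_even (hsg : ∀ j, S.U j b = S.U j a ∨ S.U j b = -S.U j a) (s : V → ℝ)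
    (hs1 : ∀ z, s z ^ 2 = 1) (hs : ∀ z w, A z w ≠ 0 → s z * s w = -1) (hab : s a * s b = 1)
    (F : ℝ → ℝ) :
    ∑ j ∈ Jp S a b, S.U j a ^ 2 * F (-S.lam j) = ∑ j ∈ Jp S a b, S.U j a ^ 2 * F (S.lam j) := by
  have haa : s a * s a = 1 := by rw [← sq]; exact hs1 a
  rw [sumF_Jp hsg (fun x => F (-x)), sumF_Jp hsg F, sym_fun S s hs1 hs F a a,
    sym_fun S s hs1 hs F a b, haa, hab, one_mul, one_mul]

theorem sym_Jm_even (hsg : ∀ j, S.U j b = S.U j a ∨ S.U j b = -S.U j a) (s : V → ℝ)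
    (hs1 : ∀ z, s z ^ 2 = 1) (hs : ∀ z w, A z w ≠ 0 → s z * s w = -1) (hab : s a * s b = 1)
    (F : ℝ → ℝ) :
    ∑ j ∈ Jm S a b, S.U j a ^ 2 * F (-S.lam j) = ∑ j ∈ Jm S a b, S.U j a ^ 2 * F (S.lam j) := by
  have haa : s a * s a = 1 := by rw [← sq]; exact hs1 a
  rw [sumF_Jm hsg (fun x => F (-x)), sumF_Jm hsg F, sym_fun S s hs1 hs F a a,
    sym_fun S s hs1 hs F a b, haa, hab, one_mul, one_mul]

theorem sym_odd (hsg : ∀ j, S.U j b = S.U j a ∨ S.U j b = -S.U j a) (s : V → ℝ)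
    (hs1 : ∀ z, s z ^ 2 = 1) (hs : ∀ z w, A z w ≠ 0 → s z * s w = -1) (hab : s a * s b = -1)
    (F : ℝ → ℝ) :
    ∑ j ∈ Jp S a b, S.U j a ^ 2 * F (-S.lam j) = ∑ j ∈ Jm S a b, S.U j a ^ 2 * F (S.lam j) := by
  have haa : s a * s a = 1 := by rw [← sq]; exact hs1 a
  rw [sumF_Jp hsg (fun x => F (-x)), sumF_Jm hsg F, sym_fun S s hs1 hs F a a,
    sym_fun S s hs1 hs F a b, haa, hab]
  ring

/-- real and imaginary parts of the phases -/
theorem phase_re_im (t : ℝ) (γ : ℂ)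
    (h : ∀ j, Complex.exp (Complex.I * t * S.lam j) * S.U j a = γ * S.U j b) :
    (∀ j ∈ Jp S a b, Real.cos (t * S.lam j) = γ.re ∧ Real.sin (t * S.lam j) = γ.im) ∧
    (∀ j ∈ Jm S a b, Real.cos (t * S.lam j) = -γ.re ∧ Real.sin (t * S.lam j) = -γ.im) := by
  have key : ∀ j, Complex.exp (Complex.I * t * S.lam j) =
      ((Real.cos (t * S.lam j) : ℝ) : ℂ) + ((Real.sin (t * S.lam j) : ℝ) : ℂ) * Complex.I := by
    intro j
    rw [show Complex.I * t * S.lam j = ((t * S.lam j : ℝ) : ℂ) * Complex.I by push_cast; ring,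
      Complex.exp_mul_I, ← Complex.ofReal_cos, ← Complex.ofReal_sin]
  have aux : ∀ (x y : ℝ) (w : ℂ), (x : ℂ) + (y : ℂ) * Complex.I = w → x = w.re ∧ y = w.im := by
    intro x y w hw
    rw [← hw]
    simp
  constructor
  · intro j hj
    rw [mem_Jp] at hj
    have h1 := h j
    rw [hj.2] at h1
    have h2 : Complex.exp (Complex.I * t * S.lam j) = γ :=
      mul_right_cancel₀ (by exact_mod_cast hj.1) h1
    rw [key] at h2
    exact aux _ _ _ h2
  · intro j hj
    rw [mem_Jm] at hj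
    have h1 := h j
    rw [hj.2] at h1
    have h2 : Complex.exp (Complex.I * t * S.lam j) = -γ := by
      apply mul_right_cancel₀ (b := (S.U j a : ℂ)) (by exact_mod_cast hj.1)
      rw [h1]; push_cast; ring
    rw [key] at h2
    exact aux _ _ _ h2

theorem Jp_nonempty (hab : a ≠ b) (hs : ∀ j, S.U j b = S.U j a ∨ S.U j b = -S.U j a) :
    (Jp S a b).Nonempty := by
  by_contra h
  rw [Finset.not_nonempty_iff_eq_empty] at h
  have := mass_Jp (S := S) hab hs
  rw [h] at this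
  norm_num at this

theorem Jm_nonempty (hab : a ≠ b) (hs : ∀ j, S.U j b = S.U j a ∨ S.U j b = -S.U j a) :
    (Jm S a b).Nonempty := by
  by_contra h
  rw [Finset.not_nonempty_iff_eq_empty] at h
  have := mass_Jm (S := S) hab hs
  rw [h] at this
  norm_num at this

theorem mem_J_of_ne (hs : ∀ j, S.U j b = S.U j a ∨ S.U j b = -S.U j a) {j : V}
    (hj : S.U j a ≠ 0) : j ∈ Jp S a b ∨ j ∈ Jm S a b := by
  rcases hs j with h | h
  · exact Or.inl (mem_Jp.2 ⟨hj, h⟩)
  · exact Or.inr (mem_Jm.2 ⟨hj, h⟩)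

/-- Odd case: the gap is at least two. -/
theorem gap_odd (B : Matrix V V ℤ) (hB : A = B.map (Int.cast : ℤ → ℝ)) (hab : a ≠ b)
    (hsg : ∀ j, S.U j b = S.U j a ∨ S.U j b = -S.U j a) (s : V → ℝ)
    (hs1 : ∀ z, s z ^ 2 = 1) (hs : ∀ z w, A z w ≠ 0 → s z * s w = -1) (hsab : s a * s b = -1)
    (t : ℝ) (γ : ℂ) (hγ : ‖γ‖ = 1)
    (h : ∀ j, Complex.exp (Complex.I * t * S.lam j) * S.U j a = γ * S.U j b) :
    ∀ j ∈ Jp S a b, ∀ k ∈ Jm S a b, 4 ≤ (S.lam j - S.lam k) ^ 2 := by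
  obtain ⟨hp, hm⟩ := phase_re_im (S := S) t γ h
  have h0 : γ.re = 0 := by
    have h1 := sym_odd hsg s hs1 hs hsab (fun x => Real.cos (t * x))
    simp only [mul_neg, Real.cos_neg] at h1
    have e1 : ∑ j ∈ Jp S a b, S.U j a ^ 2 * Real.cos (t * S.lam j) = 1 / 2 * γ.re := by
      rw [← mass_Jp (S := S) hab hsg, Finset.sum_mul]
      exact Finset.sum_congr rfl fun j hj => by rw [(hp j hj).1]
    have e2 : ∑ j ∈ Jm S a b, S.U j a ^ 2 * Real.cos (t * S.lam j) = 1 / 2 * (-γ.re) := by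
      rw [← mass_Jm (S := S) hab hsg, Finset.sum_mul]
      exact Finset.sum_congr rfl fun j hj => by rw [(hm j hj).1]
    rw [e1, e2] at h1
    linarith
  have hcos : ∀ j, S.U j a ≠ 0 → Real.cos (t * S.lam j) = 0 := by
    intro j hj
    rcases mem_J_of_ne hsg hj with h1 | h1
    · rw [(hp j h1).1, h0]
    · rw [(hm j h1).1, h0, neg_zero]
  have hk : ∀ j, ∃ k : ℤ, S.U j a ≠ 0 → t * S.lam j = (2 * k + 1) * Real.pi / 2 := by
    intro j
    by_cases hj : S.U j a = 0
    · exact ⟨0, fun h => absurd hj h⟩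
    · obtain ⟨k, hk⟩ := Real.cos_eq_zero_iff.1 (hcos j hj)
      exact ⟨k, fun _ => hk⟩
  choose k hk using hk
  obtain ⟨j0, hj0⟩ := Jp_nonempty (S := S) hab hsg
  have hj0' := (mem_Jp.1 hj0).1
  have ht : t ≠ 0 := by
    rintro rfl
    have := hcos j0 hj0'
    simp at this
  set g0 := Real.pi / (2 * t) with hg0
  have hg0ne : g0 ≠ 0 := div_ne_zero Real.pi_ne_zero (by positivity)
  have hm' : ∀ j, S.U j a ≠ 0 → S.lam j = ((2 * k j + 1 : ℤ) : ℝ) * g0 := by
    intro j hj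
    have := hk j hj
    rw [hg0]
    push_cast
    field_simp
    linarith
  have hrat := rational_sq B hB S a g0 (fun j => 2 * k j + 1) hm' j0 hj0' (by omega)
  obtain ⟨d, hd1, D, hD⟩ := lattice S.lam (fun j => S.U j a ≠ 0) (fun j => 2 * k j + 1) g0 hm'
    (fun j _ => S.isIntegral_lam B hB j) hrat
  have hdodd : ¬ (2 ∣ d) := by
    intro h2
    have := h2.trans (hd1 j0 hj0')
    omega
  have hd0 : (d : ℝ) ≠ 0 := by
    have : d ≠ 0 := by rintro rfl; exact hdodd (dvd_zero 2)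
    exact_mod_cast this
  have hDpos : (1 : ℝ) ≤ D := by
    have : (0 : ℝ) < (d * g0) ^ 2 := by positivity
    rw [hD] at this
    have : 0 < D := by exact_mod_cast this
    exact_mod_cast this
  intro j hj k' hk'
  have hja := (mem_Jp.1 hj).1
  have hka := (mem_Jm.1 hk').1
  obtain ⟨n1, hn1⟩ := hd1 j hja
  obtain ⟨n2, hn2⟩ := hd1 k' hka
  have e1 : S.lam j = n1 * (d * g0) := by
    rw [hm' j hja, hn1]; push_cast; ring
  have e2 : S.lam k' = n2 * (d * g0) := by
    rw [hm' k' hka, hn2]; push_cast; ring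
  have hne : n1 ≠ n2 := by
    rintro rfl
    have heq : S.lam j = S.lam k' := by rw [e1, e2]
    have c1 := (hp j hj).2
    have c2 := (hm k' hk').2
    rw [heq] at c1
    have : γ.im = 0 := by linarith
    have : γ = 0 := Complex.ext h0 this
    rw [this] at hγ
    simp at hγ
  have ho1 : n1 % 2 = 1 := by
    rcases Int.emod_two_eq_zero_or_one n1 with h1 | h1
    · exfalso
      have : (d * n1) % 2 = 0 := by rw [Int.mul_emod, h1]; simp
      omega
    · exact h1
  have ho2 : n2 % 2 = 1 := by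
    rcases Int.emod_two_eq_zero_or_one n2 with h1 | h1
    · exfalso
      have : (d * n2) % 2 = 0 := by rw [Int.mul_emod, h1]; simp
      omega
    · exact h1
  have hsq : (4 : ℤ) ≤ (n1 - n2) ^ 2 := by
    have : n1 - n2 ≤ -2 ∨ 2 ≤ n1 - n2 := by omega
    rcases this with h1 | h1 <;> nlinarith
  have hsq' : (4 : ℝ) ≤ ((n1 : ℝ) - n2) ^ 2 := by exact_mod_cast hsq
  calc (4 : ℝ) ≤ ((n1 : ℝ) - n2) ^ 2 * 1 := by linarith
    _ ≤ ((n1 : ℝ) - n2) ^ 2 * D := by
      exact mul_le_mul_of_nonneg_left hDpos (sq_nonneg _)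
    _ = (S.lam j - S.lam k') ^ 2 := by rw [e1, e2, ← hD]; ring

/-- Even case: the lattice. -/
theorem lattice_even (B : Matrix V V ℤ) (hB : A = B.map (Int.cast : ℤ → ℝ)) (hab : a ≠ b)
    (hsg : ∀ j, S.U j b = S.U j a ∨ S.U j b = -S.U j a) (s : V → ℝ)
    (hs1 : ∀ z, s z ^ 2 = 1) (hs : ∀ z w, A z w ≠ 0 → s z * s w = -1) (hsab : s a * s b = 1)
    (t : ℝ) (γ : ℂ) (hγ : ‖γ‖ = 1)
    (h : ∀ j, Complex.exp (Complex.I * t * S.lam j) * S.U j a = γ * S.U j b) :
    ∃ (g : ℝ) (D : ℕ) (n : V → ℤ), 1 ≤ D ∧ g ^ 2 = D ∧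
      (∀ j, S.U j a ≠ 0 → S.lam j = n j * g) ∧
      (∀ j ∈ Jp S a b, ∀ k ∈ Jm S a b, (n j - n k) % 2 = 1) := by
  obtain ⟨hp, hm⟩ := phase_re_im (S := S) t γ h
  have h0 : γ.im = 0 := by
    have h1 := sym_Jp_even hsg s hs1 hs hsab (fun x => Real.sin (t * x))
    simp only [mul_neg, Real.sin_neg] at h1
    have e1 : ∑ j ∈ Jp S a b, S.U j a ^ 2 * Real.sin (t * S.lam j) = 1 / 2 * γ.im := by
      rw [← mass_Jp (S := S) hab hsg, Finset.sum_mul]
      exact Finset.sum_congr rfl fun j hj => by rw [(hp j hj).2]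
    rw [Finset.sum_neg_distrib, e1] at h1
    linarith
  have hre : γ.re ≠ 0 := by
    intro h1
    have : γ = 0 := Complex.ext h1 h0
    rw [this] at hγ
    simp at hγ
  have hsin : ∀ j, S.U j a ≠ 0 → Real.sin (t * S.lam j) = 0 := by
    intro j hj
    rcases mem_J_of_ne hsg hj with h1 | h1
    · rw [(hp j h1).2, h0]
    · rw [(hm j h1).2, h0, neg_zero]
  have hk : ∀ j, ∃ k : ℤ, S.U j a ≠ 0 → t * S.lam j = k * Real.pi := by
    intro j
    by_cases hj : S.U j a = 0
    · exact ⟨0, fun h => absurd hj h⟩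
    · obtain ⟨k, hk⟩ := Real.sin_eq_zero_iff.1 (hsin j hj)
      exact ⟨k, fun _ => hk.symm⟩
  choose m hmm using hk
  have hpar : ∀ j ∈ Jp S a b, ∀ k ∈ Jm S a b, (m j - m k) % 2 = 1 := by
    intro j hj k hk
    have hja := (mem_Jp.1 hj).1
    have hka := (mem_Jm.1 hk).1
    have c1 := (hp j hj).1
    have c2 := (hm k hk).1
    rw [hmm j hja, Real.cos_int_mul_pi] at c1
    rw [hmm k hka, Real.cos_int_mul_pi] at c2
    by_contra hcon
    have h2 : (m j - m k) % 2 = 0 := by omega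
    have h3 : Even (m j - m k) := Int.even_iff.2 h2
    have h4 : ((-1 : ℝ)) ^ (m j) = (-1) ^ (m k) := by
      rw [show m j = (m j - m k) + m k by ring, zpow_add₀ (by norm_num), h3.neg_one_zpow, one_mul]
    rw [h4, c2] at c1
    exact hre (by linarith)
  obtain ⟨j0, hj0⟩ := Jp_nonempty (S := S) hab hsg
  obtain ⟨k0, hk0⟩ := Jm_nonempty (S := S) hab hsg
  have hj0' := (mem_Jp.1 hj0).1
  have hk0' := (mem_Jm.1 hk0).1
  have ht : t ≠ 0 := by
    rintro rfl
    have c1 := (hp j0 hj0).1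
    have c2 := (hm k0 hk0).1
    simp only [zero_mul, Real.cos_zero] at c1 c2
    linarith
  set g0 := Real.pi / t with hg0
  have hg0ne : g0 ≠ 0 := div_ne_zero Real.pi_ne_zero ht
  have hm' : ∀ j, S.U j a ≠ 0 → S.lam j = (m j : ℝ) * g0 := by
    intro j hj
    have := hmm j hj
    rw [hg0]
    field_simp
    linarith
  -- an index with odd `m`
  obtain ⟨j1, hj1, hodd1⟩ : ∃ j1, S.U j1 a ≠ 0 ∧ m j1 % 2 = 1 := by
    have := hpar j0 hj0 k0 hk0
    rcases Int.emod_two_eq_zero_or_one (m j0) with h1 | h1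
    · exact ⟨k0, hk0', by omega⟩
    · exact ⟨j0, hj0', h1⟩
  have hrat := rational_sq B hB S a g0 m hm' j1 hj1 (by omega)
  obtain ⟨d, hd1, D, hD⟩ := lattice S.lam (fun j => S.U j a ≠ 0) m g0 hm'
    (fun j _ => S.isIntegral_lam B hB j) hrat
  have hdodd : d % 2 = 1 := by
    obtain ⟨c, hc⟩ := hd1 j1 hj1
    rcases Int.emod_two_eq_zero_or_one d with h1 | h1
    · exfalso
      have : (d * c) % 2 = 0 := by rw [Int.mul_emod, h1]; simp
      omega
    · exact h1
  have hd0 : (d : ℝ) ≠ 0 := by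
    have : d ≠ 0 := by rintro rfl; simp at hdodd
    exact_mod_cast this
  have hDpos : 0 < D := by
    have : (0 : ℝ) < (d * g0) ^ 2 := by positivity
    rw [hD] at this
    exact_mod_cast this
  have hn : ∀ j, ∃ n : ℤ, S.U j a ≠ 0 → m j = d * n := by
    intro j
    by_cases hj : S.U j a = 0
    · exact ⟨0, fun h => absurd hj h⟩
    · obtain ⟨c, hc⟩ := hd1 j hj
      exact ⟨c, fun _ => hc⟩
  choose n hn using hn
  refine ⟨d * g0, D.toNat, n, by omega, ?_, ?_, ?_⟩
  · rw [hD]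
    have : ((D.toNat : ℤ) : ℝ) = (D : ℝ) := by rw [Int.toNat_of_nonneg hDpos.le]
    rw [← this]
    exact Int.cast_natCast _
  · intro j hj
    rw [hm' j hj, hn j hj]
    push_cast
    ring
  · intro j hj k hk
    have h1 := hpar j hj k hk
    rw [hn j (mem_Jp.1 hj).1, hn k (mem_Jm.1 hk).1] at h1
    rcases Int.emod_two_eq_zero_or_one (n j - n k) with h2 | h2
    · exfalso
      have h3 : d * n j - d * n k = d * (n j - n k) := by ring
      rw [h3, Int.mul_emod, h2] at h1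
      simp at h1
    · exact h2

end Pool.Agent.Helper353.PST
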