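import Pool.Agent.Helper353.PST.Tree3

/-! The mod 2 obstruction and the numerical inequality. -/

set_option autoImplicit false

open Finset Polynomial

namespace Pool.Agent.Helper353.PST

variable {V : Type} [Fintype V] [DecidableEq V] {A : Matrix V V ℝ}

theorem aeval_entry (S : SD A) (p : ℝ[X]) (z w : V) :
    (aeval A p) z w = ∑ j, p.eval (S.lam j) * (S.U j z * S.U j w) := by
  induction p using Polynomial.induction_on' with
  | add p q hp hq =>
    rw [map_add, Matrix.add_apply, hp, hq, ← Finset.sum_add_distrib]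
    exact Finset.sum_congr rfl fun j _ => by rw [eval_add]; ring
  | monomial n c =>
    rw [aeval_monomial, Algebra.algebraMap_eq_smul_one, smul_mul_assoc, one_mul,
      Matrix.smul_apply, S.pow_entry, smul_eq_mul, Finset.mul_sum]
    exact Finset.sum_congr rfl fun j _ => by rw [eval_monomial]; ring

theorem aeval_map_mat {R : Type} [CommRing R] (B : Matrix V V ℤ) (P : ℤ[X]) (z w : V) :
    (aeval (B.map (Int.cast : ℤ → R)) (P.map (Int.castRingHom R))) z w =
      (((aeval B P) z w : ℤ) : R) := by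
  have h : (Int.castRingHom R).mapMatrix (aeval B P) =
      aeval ((Int.castRingHom R).mapMatrix B) (P.map (Int.castRingHom R)) := by
    rw [aeval_def, aeval_def, eval₂_map, hom_eval₂]
    congr 1
    exact RingHom.ext_int _ _
  have h2 := congrFun (congrFun h z) w
  simp only [RingHom.mapMatrix_apply, Matrix.map_apply] at h2
  exact h2.symm

variable {S : SD A} {a b : V}

/-- No support consisting of integers with opposite parities on the two classes. -/
theorem no_int (B : Matrix V V ℤ) (hB : A = B.map (Int.cast : ℤ → ℝ)) (hab : a ≠ b)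
    (hsg : ∀ j, S.U j b = S.U j a ∨ S.U j b = -S.U j a) (l : V → ℤ)
    (hl : ∀ j, S.U j a ≠ 0 → S.lam j = l j)
    (hpar : ∀ j ∈ Jp S a b, ∀ k ∈ Jm S a b, (l j - l k) % 2 = 1) : False := by
  obtain ⟨j0, hj0⟩ := Jp_nonempty (S := S) hab hsg
  obtain ⟨k0, hk0⟩ := Jm_nonempty (S := S) hab hsg
  set c : ZMod 2 := (l j0 : ZMod 2) with hc
  have cast_eq : ∀ x y : ℤ, (x - y) % 2 = 0 → (x : ZMod 2) = (y : ZMod 2) := by
    intro x y h
    rw [← sub_eq_zero, ← Int.cast_sub, ZMod.intCast_zmod_eq_zero_iff_dvd]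
    exact Int.dvd_of_emod_eq_zero h
  have hp : ∀ j ∈ Jp S a b, (l j : ZMod 2) = c := by
    intro j hj
    have h1 := hpar j hj k0 hk0
    have h2 := hpar j0 hj0 k0 hk0
    exact cast_eq _ _ (by omega)
  have hm : ∀ k ∈ Jm S a b, (l k : ZMod 2) = c + 1 := by
    intro k hk
    have h1 := hpar j0 hj0 k hk
    have := cast_eq (l k) (l j0 + 1) (by omega)
    rw [this, hc]
    push_cast
    rfl
  set P1 : ℤ[X] := ∏ x ∈ (Jp S a b).image l, (X - C x) with hP1
  set P2 : ℤ[X] := ∏ x ∈ (Jm S a b).image l, (X - C x) with hP2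
  have r1 : ∀ j ∈ Jp S a b, (P1.map (Int.castRingHom ℝ)).eval (S.lam j) = 0 := by
    intro j hj
    rw [hl j (mem_Jp.1 hj).1, eval_map, eval₂_at_intCast, hP1, eval_prod]
    simp only [eval_sub, eval_X, eval_C]
    rw [Finset.prod_eq_zero (Finset.mem_image_of_mem l hj) (by simp)]
    simp
  have r2 : ∀ j ∈ Jm S a b, (P2.map (Int.castRingHom ℝ)).eval (S.lam j) = 0 := by
    intro j hj
    rw [hl j (mem_Jm.1 hj).1, eval_map, eval₂_at_intCast, hP2, eval_prod]
    simp only [eval_sub, eval_X, eval_C]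
    rw [Finset.prod_eq_zero (Finset.mem_image_of_mem l hj) (by simp)]
    simp
  have c1 : ∀ z, (aeval B P1) z a + (aeval B P1) z b = 0 := by
    intro z
    have h1 := aeval_map_mat (R := ℝ) B P1 z a
    have h2 := aeval_map_mat (R := ℝ) B P1 z b
    rw [← hB, aeval_entry S] at h1 h2
    have h3 : ∑ j, eval (S.lam j) (P1.map (Int.castRingHom ℝ)) * (S.U j z * S.U j a) +
        ∑ j, eval (S.lam j) (P1.map (Int.castRingHom ℝ)) * (S.U j z * S.U j b) = 0 := by
      rw [← Finset.sum_add_distrib]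
      refine Finset.sum_eq_zero fun j _ => ?_
      by_cases h0 : S.U j a = 0
      · have : S.U j b = 0 := by rcases hsg j with h1 | h1 <;> simp [h1, h0]
        rw [h0, this]; ring
      · rcases mem_J_of_ne hsg h0 with h | h
        · rw [r1 j h]; ring
        · rw [(mem_Jm.1 h).2]; ring
    rw [h1, h2] at h3
    exact_mod_cast h3
  have c2 : ∀ z, (aeval B P2) z a - (aeval B P2) z b = 0 := by
    intro z
    have h1 := aeval_map_mat (R := ℝ) B P2 z a
    have h2 := aeval_map_mat (R := ℝ) B P2 z b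
    rw [← hB, aeval_entry S] at h1 h2
    have h3 : ∑ j, eval (S.lam j) (P2.map (Int.castRingHom ℝ)) * (S.U j z * S.U j a) -
        ∑ j, eval (S.lam j) (P2.map (Int.castRingHom ℝ)) * (S.U j z * S.U j b) = 0 := by
      rw [← Finset.sum_sub_distrib]
      refine Finset.sum_eq_zero fun j _ => ?_
      by_cases h0 : S.U j a = 0
      · have : S.U j b = 0 := by rcases hsg j with h1 | h1 <;> simp [h1, h0]
        rw [h0, this]; ring
      · rcases mem_J_of_ne hsg h0 with h | h
        · rw [(mem_Jp.1 h).2]; ring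
        · rw [r2 j h]; ring
    rw [h1, h2] at h3
    exact_mod_cast h3
  -- reduction mod 2
  set B2 : Matrix V V (ZMod 2) := B.map (Int.cast : ℤ → ZMod 2) with hB2
  set e : V → ZMod 2 := Pi.single a 1 + Pi.single b 1 with he
  have m1 : (aeval B2 (P1.map (Int.castRingHom (ZMod 2)))).mulVec e = 0 := by
    funext z
    rw [he, Matrix.mulVec_add, Matrix.mulVec_single_one, Matrix.mulVec_single_one, Pi.add_apply,
      Matrix.col_apply, Matrix.col_apply, hB2, aeval_map_mat, aeval_map_mat, ← Int.cast_add, c1]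
    simp
  have m2 : (aeval B2 (P2.map (Int.castRingHom (ZMod 2)))).mulVec e = 0 := by
    funext z
    rw [he, Matrix.mulVec_add, Matrix.mulVec_single_one, Matrix.mulVec_single_one, Pi.add_apply,
      Matrix.col_apply, Matrix.col_apply, hB2, aeval_map_mat, aeval_map_mat]
    have h3 := c2 z
    have h4 : (aeval B P2) z a = (aeval B P2) z b := by linarith
    rw [h4, Pi.zero_apply]
    exact CharTwo.add_self_eq_zero _
  have q1 : P1.map (Int.castRingHom (ZMod 2)) = (X - C c) ^ ((Jp S a b).image l).card := by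
    rw [hP1, Polynomial.map_prod, ← Finset.prod_const]
    refine Finset.prod_congr rfl fun x hx => ?_
    obtain ⟨j, hj, rfl⟩ := Finset.mem_image.1 hx
    rw [Polynomial.map_sub, map_X, map_C, eq_intCast, hp j hj]
  have q2 : P2.map (Int.castRingHom (ZMod 2)) = (X - C (c + 1)) ^ ((Jm S a b).image l).card := by
    rw [hP2, Polynomial.map_prod, ← Finset.prod_const]
    refine Finset.prod_congr rfl fun x hx => ?_
    obtain ⟨j, hj, rfl⟩ := Finset.mem_image.1 hx
    rw [Polynomial.map_sub, map_X, map_C, eq_intCast, hm j hj]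
  have hcop : IsCoprime (P1.map (Int.castRingHom (ZMod 2))) (P2.map (Int.castRingHom (ZMod 2))) := by
    rw [q1, q2]
    refine IsCoprime.pow ?_
    apply Polynomial.isCoprime_X_sub_C_of_isUnit_sub
    have : c - (c + 1) = -1 := by ring
    rw [this]
    exact isUnit_one.neg
  obtain ⟨u, v, huv⟩ := hcop
  have h1 := congrArg (fun P => (aeval B2 P).mulVec e) huv
  simp only [map_add, map_mul, map_one, Matrix.add_mulVec, ← Matrix.mulVec_mulVec, m1, m2,
    Matrix.mulVec_zero, add_zero, Matrix.one_mulVec] at h1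
  have h2 := congrFun h1 a
  rw [he] at h2
  simp [hab] at h2

theorem int_ineq1 (n k : ℤ) (hn : n % 2 = 0) (hn0 : n ≠ 0) (hk : k % 2 = 1) :
    3 * |n| ≤ 2 * |n ^ 2 - k ^ 2| := by
  have h1 : n ^ 2 = |n| ^ 2 := (sq_abs n).symm
  have h2 : k ^ 2 = |k| ^ 2 := (sq_abs k).symm
  have hN : |n| % 2 = 0 := by rcases abs_cases n with ⟨h, _⟩ | ⟨h, _⟩ <;> rw [h] <;> omega
  have hK : |k| % 2 = 1 := by rcases abs_cases k with ⟨h, _⟩ | ⟨h, _⟩ <;> rw [h] <;> omega
  have hNpos : 0 < |n| := abs_pos.2 hn0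
  have hKnn : 0 ≤ |k| := abs_nonneg k
  rw [h1, h2]
  generalize |n| = N at *
  generalize |k| = K at *
  have : K < N ∨ N < K := by omega
  rcases this with h | h
  · have h3 : K ≤ N - 1 := by omega
    have h4 : 2 * N - 1 ≤ N ^ 2 - K ^ 2 := by nlinarith
    have h5 := le_abs_self (N ^ 2 - K ^ 2)
    omega
  · have h3 : N + 1 ≤ K := by omega
    have h4 : 2 * N + 1 ≤ K ^ 2 - N ^ 2 := by nlinarith
    have h5 := neg_abs_le (N ^ 2 - K ^ 2)
    omega

theorem int_ineq2 (k n : ℤ) (hk : k % 2 = 1) (hk1 : k ^ 2 ≠ 1) (hn : n % 2 = 0) :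
    5 * |k| ≤ 3 * |k ^ 2 - n ^ 2| := by
  have h1 : n ^ 2 = |n| ^ 2 := (sq_abs n).symm
  have h2 : k ^ 2 = |k| ^ 2 := (sq_abs k).symm
  have hN : |n| % 2 = 0 := by rcases abs_cases n with ⟨h, _⟩ | ⟨h, _⟩ <;> rw [h] <;> omega
  have hK : |k| % 2 = 1 := by rcases abs_cases k with ⟨h, _⟩ | ⟨h, _⟩ <;> rw [h] <;> omega
  have hNnn : 0 ≤ |n| := abs_nonneg n
  have hKnn : 0 ≤ |k| := abs_nonneg k
  rw [h2] at hk1
  rw [h1, h2]
  generalize |n| = N at *
  generalize |k| = K at *
  have hK3 : 3 ≤ K := by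
    by_contra h
    have : K = 1 := by omega
    rw [this] at hk1
    norm_num at hk1
  have : N < K ∨ K < N := by omega
  rcases this with h | h
  · have h3 : N ≤ K - 1 := by omega
    have h4 : 2 * K - 1 ≤ K ^ 2 - N ^ 2 := by nlinarith
    have h5 := le_abs_self (K ^ 2 - N ^ 2)
    omega
  · have h3 : K + 1 ≤ N := by omega
    have h4 : 2 * K + 1 ≤ N ^ 2 - K ^ 2 := by nlinarith
    have h5 := neg_abs_le (K ^ 2 - N ^ 2)
    omega

theorem real_ineq (α' β' : ℝ) (h1 : 0 ≤ α') (h2 : α' ≤ 1 / 2) (h3 : 0 ≤ β') (h4 : β' ≤ 1 / 2) :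
    α' / 9 + ((1 / 2 - β') * ((1 / 2 - α') ^ 2 + α' ^ 2 / 9) + β' * (9 / 100)) ≤
      1 / 8 - (α' + β') / 100 := by
  have g0 : α' / 9 + (1 / 2) * ((1 / 2 - α') ^ 2 + α' ^ 2 / 9) ≤ 1 / 8 - α' / 100 := by nlinarith
  have g1 : α' / 9 + (1 / 2) * (9 / 100) ≤ 1 / 8 - (α' + 1 / 2) / 100 := by linarith
  have e : α' / 9 + ((1 / 2 - β') * ((1 / 2 - α') ^ 2 + α' ^ 2 / 9) + β' * (9 / 100)) =
      (1 - 2 * β') * (α' / 9 + (1 / 2) * ((1 / 2 - α') ^ 2 + α' ^ 2 / 9)) +
      2 * β' * (α' / 9 + (1 / 2) * (9 / 100)) := by ring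
  rw [e]
  have k0 := mul_le_mul_of_nonneg_left g0 (by linarith : (0 : ℝ) ≤ 1 - 2 * β')
  have k1 := mul_le_mul_of_nonneg_left g1 (by linarith : (0 : ℝ) ≤ 2 * β')
  nlinarith

/-- `τ` -/
noncomputable def tau (x : V → ℝ) (n : V → ℤ) (K : Finset V) (j : V) : ℝ :=
  ∑ k ∈ K, x k * ((n j : ℝ) / ((n j : ℝ) ^ 2 - (n k : ℝ) ^ 2))

omit [Fintype V] [DecidableEq V] in
theorem numeric (E O : Finset V) (x : V → ℝ) (hx : ∀ j, 0 ≤ x j) (n : V → ℤ)
    (hE : ∀ j ∈ E, n j % 2 = 0) (hO : ∀ k ∈ O, n k % 2 = 1) (hEm : ∑ j ∈ E, x j = 1 / 2)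
    (hOm : ∑ j ∈ O, x j = 1 / 2) :
    ∑ j ∈ E, x j * tau x n O j ^ 2 + ∑ k ∈ O, x k * tau x n E k ^ 2 ≤ 1 / 8 ∧
    (1 / 8 ≤ ∑ j ∈ E, x j * tau x n O j ^ 2 + ∑ k ∈ O, x k * tau x n E k ^ 2 →
      (∀ j ∈ E, x j ≠ 0 → n j = 0) ∧ (∀ k ∈ O, x k ≠ 0 → n k ^ 2 = 1)) := by
  classical
  set α' := ∑ j ∈ E, x j * (if n j = 0 then 0 else 1) with hα'
  set β' := ∑ k ∈ O, x k * (if n k ^ 2 = 1 then 0 else 1) with hβ'
  have hα0 : 0 ≤ α' := Finset.sum_nonneg fun j _ => mul_nonneg (hx j) (by split_ifs <;> norm_num)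
  have hβ0 : 0 ≤ β' := Finset.sum_nonneg fun j _ => mul_nonneg (hx j) (by split_ifs <;> norm_num)
  have hα1 : α' ≤ 1 / 2 := by
    rw [← hEm]
    refine Finset.sum_le_sum fun j _ => ?_
    have := hx j
    split_ifs <;> linarith
  have hβ1 : β' ≤ 1 / 2 := by
    rw [← hOm]
    refine Finset.sum_le_sum fun j _ => ?_
    have := hx j
    split_ifs <;> linarith
  have hαc : ∑ j ∈ E, x j * (if n j = 0 then 1 else 0) = 1 / 2 - α' := by
    rw [eq_sub_iff_add_eq, ← hEm, hα', ← Finset.sum_add_distrib]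
    refine Finset.sum_congr rfl fun j _ => ?_
    split_ifs <;> ring
  have hβc : ∑ k ∈ O, x k * (if n k ^ 2 = 1 then 1 else 0) = 1 / 2 - β' := by
    rw [eq_sub_iff_add_eq, ← hOm, hβ', ← Finset.sum_add_distrib]
    refine Finset.sum_congr rfl fun j _ => ?_
    split_ifs <;> ring
  -- bound on `E`
  have b1 : ∀ j ∈ E, x j * tau x n O j ^ 2 ≤ x j * (if n j = 0 then 0 else 1) * (1 / 9) := by
    intro j hj
    by_cases h0 : n j = 0
    · rw [if_pos h0]
      have : tau x n O j = 0 := by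
        rw [tau]
        refine Finset.sum_eq_zero fun k _ => ?_
        rw [h0]; simp
      rw [this]; simp
    · rw [if_neg h0, mul_one]
      refine mul_le_mul_of_nonneg_left ?_ (hx j)
      have h1 : |tau x n O j| ≤ 1 / 3 := by
        rw [tau]
        refine (Finset.abs_sum_le_sum_abs _ _).trans ?_
        have : (1 / 3 : ℝ) = ∑ k ∈ O, x k * (2 / 3) := by
          rw [← Finset.sum_mul, hOm]; norm_num
        rw [this]
        refine Finset.sum_le_sum fun k hk => ?_
        rw [abs_mul, abs_of_nonneg (hx k)]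
        refine mul_le_mul_of_nonneg_left ?_ (hx k)
        have hi := int_ineq1 (n j) (n k) (hE j hj) h0 (hO k hk)
        have hi' : (3 : ℝ) * |(n j : ℝ)| ≤ 2 * |(n j : ℝ) ^ 2 - (n k : ℝ) ^ 2| := by exact_mod_cast hi
        have hpos : 0 < |(n j : ℝ)| := abs_pos.2 (by exact_mod_cast h0)
        have hpos2 : 0 < |(n j : ℝ) ^ 2 - (n k : ℝ) ^ 2| := by linarith
        rw [abs_div, div_le_iff₀ hpos2]
        linarith
      have h2 := sq_le_sq' (by linarith [neg_abs_le (tau x n O j)])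
        ((le_abs_self (tau x n O j)).trans h1)
      norm_num at h2 ⊢
      exact h2
  -- bound on `O`
  have b2 : ∀ k ∈ O, x k * tau x n E k ^ 2 ≤
      x k * (if n k ^ 2 = 1 then 1 else 0) * ((1 / 2 - α') ^ 2 + α' ^ 2 / 9) +
      x k * (if n k ^ 2 = 1 then 0 else 1) * (9 / 100) := by
    intro k hk
    by_cases h0 : n k ^ 2 = 1
    · rw [if_pos h0, if_pos h0, mul_one, mul_zero, zero_mul, add_zero]
      refine mul_le_mul_of_nonneg_left ?_ (hx k)
      have h0' : (n k : ℝ) ^ 2 = 1 := by exact_mod_cast h0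
      have e1 : tau x n E k = n k * ∑ j ∈ E, x j / (1 - (n j : ℝ) ^ 2) := by
        rw [tau, Finset.mul_sum]
        refine Finset.sum_congr rfl fun j _ => ?_
        rw [h0']; ring
      set Y := ∑ j ∈ E, x j / (1 - (n j : ℝ) ^ 2) with hY
      have e2 : tau x n E k ^ 2 = Y ^ 2 := by rw [e1, mul_pow, h0', one_mul]
      rw [e2]
      have hup : Y ≤ 1 / 2 - α' := by
        rw [← hαc, hY]
        refine Finset.sum_le_sum fun j hj => ?_
        by_cases hj0 : n j = 0
        · rw [if_pos hj0, hj0]; simp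
        · rw [if_neg hj0, mul_zero]
          have h4 : 4 ≤ n j ^ 2 := by
            have := hE j hj
            have h5 : n j ≤ -2 ∨ 2 ≤ n j := by omega
            rcases h5 with h5 | h5 <;> nlinarith
          have h4' : (4 : ℝ) ≤ (n j : ℝ) ^ 2 := by exact_mod_cast h4
          exact div_nonpos_of_nonneg_of_nonpos (hx j) (by linarith)
      have hlo : -(α' / 3) ≤ Y := by
        rw [hα', hY, Finset.sum_div, ← Finset.sum_neg_distrib]
        refine Finset.sum_le_sum fun j hj => ?_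
        by_cases hj0 : n j = 0
        · rw [if_pos hj0, hj0]
          simp [hx j]
        · rw [if_neg hj0, mul_one]
          have h4 : 4 ≤ n j ^ 2 := by
            have := hE j hj
            have h5 : n j ≤ -2 ∨ 2 ≤ n j := by omega
            rcases h5 with h5 | h5 <;> nlinarith
          have h4' : (4 : ℝ) ≤ (n j : ℝ) ^ 2 := by exact_mod_cast h4
          have e3 : x j / (1 - (n j : ℝ) ^ 2) = -(x j / ((n j : ℝ) ^ 2 - 1)) := by
            rw [← div_neg]; congr 1; ring
          rw [e3]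
          apply neg_le_neg
          exact div_le_div_of_nonneg_left (hx j) (by norm_num) (by linarith)
      rcases le_or_gt 0 Y with hY0 | hY0
      · have : Y ^ 2 ≤ (1 / 2 - α') ^ 2 := by
          apply sq_le_sq' <;> linarith
        nlinarith [sq_nonneg α']
      · have : Y ^ 2 ≤ (α' / 3) ^ 2 := by
          apply sq_le_sq' <;> linarith
        nlinarith [sq_nonneg (1 / 2 - α')]
    · rw [if_neg h0, if_neg h0, mul_zero, zero_mul, zero_add, mul_one]
      refine mul_le_mul_of_nonneg_left ?_ (hx k)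
      have h1 : |tau x n E k| ≤ 3 / 10 := by
        rw [tau]
        refine (Finset.abs_sum_le_sum_abs _ _).trans ?_
        have : (3 / 10 : ℝ) = ∑ j ∈ E, x j * (3 / 5) := by
          rw [← Finset.sum_mul, hEm]; norm_num
        rw [this]
        refine Finset.sum_le_sum fun j hj => ?_
        rw [abs_mul, abs_of_nonneg (hx j)]
        refine mul_le_mul_of_nonneg_left ?_ (hx j)
        have hi := int_ineq2 (n k) (n j) (hO k hk) h0 (hE j hj)
        have hi' : (5 : ℝ) * |(n k : ℝ)| ≤ 3 * |(n k : ℝ) ^ 2 - (n j : ℝ) ^ 2| := by exact_mod_cast hi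
        have hk0 : n k ≠ 0 := by
          intro h
          have := hO k hk
          rw [h] at this
          simp at this
        have hpos : 0 < |(n k : ℝ)| := abs_pos.2 (by exact_mod_cast hk0)
        have hpos2 : 0 < |(n k : ℝ) ^ 2 - (n j : ℝ) ^ 2| := by linarith
        rw [abs_div, div_le_iff₀ hpos2]
        linarith
      have h2 := sq_le_sq' (by linarith [neg_abs_le (tau x n E k)])
        ((le_abs_self (tau x n E k)).trans h1)
      norm_num at h2 ⊢
      exact h2
  have t1 : ∑ j ∈ E, x j * tau x n O j ^ 2 ≤ α' / 9 := by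
    refine (Finset.sum_le_sum b1).trans_eq ?_
    rw [← Finset.sum_mul, ← hα']; ring
  have t2 : ∑ k ∈ O, x k * tau x n E k ^ 2 ≤
      (1 / 2 - β') * ((1 / 2 - α') ^ 2 + α' ^ 2 / 9) + β' * (9 / 100) := by
    refine (Finset.sum_le_sum b2).trans_eq ?_
    rw [Finset.sum_add_distrib, ← Finset.sum_mul, ← Finset.sum_mul, hβc, ← hβ']
  have t3 := real_ineq α' β' hα0 hα1 hβ0 hβ1
  refine ⟨by linarith, fun h8 => ?_⟩
  have hz : α' + β' ≤ 0 := by linarith
  have hα : α' = 0 := by linarith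
  have hβ : β' = 0 := by linarith
  constructor
  · intro j hj hxj
    by_contra hnj
    have := (Finset.sum_eq_zero_iff_of_nonneg fun j _ =>
      mul_nonneg (hx j) (by split_ifs <;> norm_num)).1 (hα'.symm.trans hα) j hj
    rw [if_neg hnj, mul_one] at this
    exact hxj this
  · intro k hk hxk
    by_contra hnk
    have := (Finset.sum_eq_zero_iff_of_nonneg fun j _ =>
      mul_nonneg (hx j) (by split_ifs <;> norm_num)).1 (hβ'.symm.trans hβ) k hk
    rw [if_neg hnk, mul_one] at this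
    exact hxk this

end Pool.Agent.Helper353.PST
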