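import Pool.Agent.Helper353.PST.Tree4

/-! Trees with perfect state transfer have at most three vertices. -/

set_option autoImplicit false

open Finset Polynomial

namespace Pool.Agent.Helper353.PST

variable {V : Type} [Fintype V] [DecidableEq V]

omit [Fintype V] [DecidableEq V] in
theorem closed_reach (G : SimpleGraph V) (hG : G.Connected) (P : V → Prop) (a : V) (ha : P a)
    (h : ∀ z w, P z → G.Adj z w → P w) (z : V) : P z := by
  obtain ⟨w⟩ := hG.preconnected a z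
  induction w with
  | nil => exact ha
  | cons hadj _ ih => exact ih (h _ _ ha hadj)

theorem card_le_three (a b c : V) (h : ∀ z : V, z = a ∨ z = b ∨ z = c) : Fintype.card V ≤ 3 := by
  have : (univ : Finset V) ⊆ {a, b, c} := by
    intro z _
    rcases h z with h | h | h <;> simp [h]
  calc Fintype.card V = (univ : Finset V).card := rfl
    _ ≤ ({a, b, c} : Finset V).card := Finset.card_le_card this
    _ ≤ 3 := Finset.card_le_three

section
variable {A : Matrix V V ℝ} {S : SD A} {a b : V}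

/-- In the odd case all gaps are exactly two. -/
theorem odd_gap_eq (hab : a ≠ b) (hsg : ∀ j, S.U j b = S.U j a ∨ S.U j b = -S.U j a)
    (hgap : ∀ j ∈ Jp S a b, ∀ k ∈ Jm S a b, 4 ≤ (S.lam j - S.lam k) ^ 2)
    (hcut : 1 / 16 ≤ ∑ j ∈ Jp S a b, S.U j a ^ 2 * RR S a (Jm S a b) j ^ 2 +
      ∑ k ∈ Jm S a b, S.U k a ^ 2 * RR S a (Jp S a b) k ^ 2) :
    ∀ j ∈ Jp S a b, ∀ k ∈ Jm S a b, (S.lam j - S.lam k) ^ 2 = 4 := by
  have hg2 : ∀ j ∈ Jp S a b, ∀ k ∈ Jm S a b, 2 ≤ |S.lam j - S.lam k| := by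
    intro j hj k hk
    have h1 := hgap j hj k hk
    have h2 : (2 : ℝ) ^ 2 ≤ |S.lam j - S.lam k| ^ 2 := by rw [sq_abs]; norm_num; exact h1
    exact (pow_le_pow_iff_left₀ (by norm_num) (abs_nonneg _) (by norm_num)).1 h2
  have hRle : ∀ j ∈ Jp S a b, |RR S a (Jm S a b) j| ≤
      ∑ k ∈ Jm S a b, S.U k a ^ 2 * (1 / |S.lam j - S.lam k|) := by
    intro j _
    rw [RR]
    refine (Finset.abs_sum_le_sum_abs _ _).trans_eq ?_
    refine Finset.sum_congr rfl fun k _ => ?_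
    rw [abs_div, abs_of_nonneg (sq_nonneg (S.U k a))]; ring
  have hinv : ∀ j ∈ Jp S a b, ∀ k ∈ Jm S a b, 1 / |S.lam j - S.lam k| ≤ 1 / 2 := by
    intro j hj k hk
    exact one_div_le_one_div_of_le (by norm_num) (hg2 j hj k hk)
  have hR4 : ∀ j ∈ Jp S a b, |RR S a (Jm S a b) j| ≤ 1 / 4 := by
    intro j hj
    refine (hRle j hj).trans ?_
    have : (1 / 4 : ℝ) = ∑ k ∈ Jm S a b, S.U k a ^ 2 * (1 / 2) := by
      rw [← Finset.sum_mul, mass_Jm hab hsg]; norm_num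
    rw [this]
    exact Finset.sum_le_sum fun k hk => mul_le_mul_of_nonneg_left (hinv j hj k hk) (sq_nonneg _)
  have hS4 : ∀ k ∈ Jm S a b, |RR S a (Jp S a b) k| ≤ 1 / 4 := by
    intro k hk
    rw [RR]
    refine (Finset.abs_sum_le_sum_abs _ _).trans ?_
    have : (1 / 4 : ℝ) = ∑ j ∈ Jp S a b, S.U j a ^ 2 * (1 / 2) := by
      rw [← Finset.sum_mul, mass_Jp hab hsg]; norm_num
    rw [this]
    refine Finset.sum_le_sum fun j hj => ?_
    rw [abs_div, abs_of_nonneg (sq_nonneg (S.U j a)), abs_sub_comm, div_eq_mul_one_div]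
    exact mul_le_mul_of_nonneg_left (hinv j hj k hk) (sq_nonneg _)
  have sqle : ∀ x : ℝ, |x| ≤ 1 / 4 → x ^ 2 ≤ 1 / 16 := by
    intro x hx
    have := sq_le_sq' (by linarith [neg_abs_le x]) ((le_abs_self x).trans hx)
    norm_num at this ⊢
    exact this
  have hSsum : ∑ k ∈ Jm S a b, S.U k a ^ 2 * RR S a (Jp S a b) k ^ 2 ≤ 1 / 32 := by
    have : (1 / 32 : ℝ) = ∑ k ∈ Jm S a b, S.U k a ^ 2 * (1 / 16) := by
      rw [← Finset.sum_mul, mass_Jm hab hsg]; norm_num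
    rw [this]
    exact Finset.sum_le_sum fun k hk =>
      mul_le_mul_of_nonneg_left (sqle _ (hS4 k hk)) (sq_nonneg _)
  have hRdef : ∑ j ∈ Jp S a b, S.U j a ^ 2 * (1 / 16 - RR S a (Jm S a b) j ^ 2) ≤ 0 := by
    have : ∑ j ∈ Jp S a b, S.U j a ^ 2 * (1 / 16 - RR S a (Jm S a b) j ^ 2) =
        (∑ j ∈ Jp S a b, S.U j a ^ 2) * (1 / 16) -
          ∑ j ∈ Jp S a b, S.U j a ^ 2 * RR S a (Jm S a b) j ^ 2 := by
      rw [Finset.sum_mul, ← Finset.sum_sub_distrib]
      exact Finset.sum_congr rfl fun j _ => by ring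
    rw [this, mass_Jp hab hsg]
    linarith
  have hRnn : ∀ j ∈ Jp S a b, 0 ≤ S.U j a ^ 2 * (1 / 16 - RR S a (Jm S a b) j ^ 2) := fun j hj =>
    mul_nonneg (sq_nonneg _) (by linarith [sqle _ (hR4 j hj)])
  have hReq : ∀ j ∈ Jp S a b, RR S a (Jm S a b) j ^ 2 = 1 / 16 := by
    intro j hj
    have h0 := (Finset.sum_eq_zero_iff_of_nonneg hRnn).1
      (le_antisymm hRdef (Finset.sum_nonneg hRnn)) j hj
    have hpos : 0 < S.U j a ^ 2 := by
      have := (mem_Jp.1 hj).1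
      positivity
    rcases mul_eq_zero.1 h0 with h | h
    · exact absurd h hpos.ne'
    · linarith
  intro j hj k hk
  have h1 : |RR S a (Jm S a b) j| = 1 / 4 := by
    have h2 := hReq j hj
    have h3 : |RR S a (Jm S a b) j| ^ 2 = (1 / 4) ^ 2 := by rw [sq_abs, h2]; norm_num
    exact (pow_left_inj₀ (abs_nonneg _) (by norm_num) (by norm_num)).1 h3
  have h4 : ∑ k ∈ Jm S a b, S.U k a ^ 2 * (1 / 2 - 1 / |S.lam j - S.lam k|) ≤ 0 := by
    have e : ∑ k ∈ Jm S a b, S.U k a ^ 2 * (1 / 2 - 1 / |S.lam j - S.lam k|) =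
        (∑ k ∈ Jm S a b, S.U k a ^ 2) * (1 / 2) -
          ∑ k ∈ Jm S a b, S.U k a ^ 2 * (1 / |S.lam j - S.lam k|) := by
      rw [Finset.sum_mul, ← Finset.sum_sub_distrib]
      exact Finset.sum_congr rfl fun j _ => by ring
    rw [e, mass_Jm hab hsg]
    have := hRle j hj
    rw [h1] at this
    linarith
  have h5 : ∀ k ∈ Jm S a b, 0 ≤ S.U k a ^ 2 * (1 / 2 - 1 / |S.lam j - S.lam k|) := fun k hk =>
    mul_nonneg (sq_nonneg _) (by linarith [hinv j hj k hk])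
  have h6 := (Finset.sum_eq_zero_iff_of_nonneg h5).1
    (le_antisymm h4 (Finset.sum_nonneg h5)) k hk
  have hpos : 0 < S.U k a ^ 2 := by
    have := (mem_Jm.1 hk).1
    positivity
  rcases mul_eq_zero.1 h6 with h | h
  · exact absurd h hpos.ne'
  · have h7 : |S.lam j - S.lam k| = 2 := by
      have h8 := hg2 j hj k hk
      have h9 : 1 / |S.lam j - S.lam k| = 1 / 2 := by linarith
      field_simp at h9
      linarith
    rw [← sq_abs, h7]; norm_num

theorem entry1 (S : SD A) (z w : V) : ∑ j, S.lam j * (S.U j z * S.U j w) = A z w := by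
  have := S.pow_entry 1 z w
  rw [pow_one] at this
  rw [this]
  exact Finset.sum_congr rfl fun j _ => by rw [pow_one]

theorem entry2 (S : SD A) (z w : V) : ∑ j, S.lam j ^ 2 * (S.U j z * S.U j w) = (A ^ 2) z w :=
  (S.pow_entry 2 z w).symm

/-- consequences of all gaps being two -/
theorem odd_moments (hab : a ≠ b) (hsg : ∀ j, S.U j b = S.U j a ∨ S.U j b = -S.U j a)
    (haa : A a a = 0) (h2ab : (A ^ 2) a b = 0) (h01 : A a b = 0 ∨ A a b = 1)
    (hgap : ∀ j ∈ Jp S a b, ∀ k ∈ Jm S a b, (S.lam j - S.lam k) ^ 2 = 4) :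
    A a b = 1 ∧ (A ^ 2) a a = 1 := by
  have p1 : ∑ j ∈ Jp S a b, S.U j a ^ 2 * S.lam j = A a b / 2 := by
    have := sumF_Jp (S := S) hsg (fun x => x)
    rw [this, entry1, entry1, haa]; ring
  have p2 : ∑ j ∈ Jp S a b, S.U j a ^ 2 * S.lam j ^ 2 = (A ^ 2) a a / 2 := by
    have := sumF_Jp (S := S) hsg (fun x => x ^ 2)
    rw [this, entry2, entry2, h2ab]; ring
  have q1 : ∑ j ∈ Jm S a b, S.U j a ^ 2 * S.lam j = -(A a b) / 2 := by
    have := sumF_Jm (S := S) hsg (fun x => x)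
    rw [this, entry1, entry1, haa]; ring
  have q2 : ∑ j ∈ Jm S a b, S.U j a ^ 2 * S.lam j ^ 2 = (A ^ 2) a a / 2 := by
    have := sumF_Jm (S := S) hsg (fun x => x ^ 2)
    rw [this, entry2, entry2, h2ab]; ring
  have E1 : ∀ j ∈ Jp S a b, S.lam j ^ 2 / 2 + S.lam j * A a b + (A ^ 2) a a / 2 = 2 := by
    intro j hj
    have h1 : ∑ k ∈ Jm S a b, S.U k a ^ 2 * (S.lam j - S.lam k) ^ 2 = 2 := by
      rw [Finset.sum_congr rfl fun k hk => by rw [hgap j hj k hk], ← Finset.sum_mul,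
        mass_Jm hab hsg]
      norm_num
    have h2 : ∑ k ∈ Jm S a b, S.U k a ^ 2 * (S.lam j - S.lam k) ^ 2 =
        (∑ k ∈ Jm S a b, S.U k a ^ 2) * S.lam j ^ 2 -
          2 * S.lam j * (∑ k ∈ Jm S a b, S.U k a ^ 2 * S.lam k) +
          ∑ k ∈ Jm S a b, S.U k a ^ 2 * S.lam k ^ 2 := by
      rw [Finset.sum_mul, Finset.mul_sum, ← Finset.sum_sub_distrib, ← Finset.sum_add_distrib]
      exact Finset.sum_congr rfl fun k _ => by ring
    rw [h2, mass_Jm hab hsg, q1, q2] at h1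
    linarith
  have E2 : ∀ k ∈ Jm S a b, S.lam k ^ 2 / 2 - S.lam k * A a b + (A ^ 2) a a / 2 = 2 := by
    intro k hk
    have h1 : ∑ j ∈ Jp S a b, S.U j a ^ 2 * (S.lam j - S.lam k) ^ 2 = 2 := by
      rw [Finset.sum_congr rfl fun j hj => by rw [hgap j hj k hk], ← Finset.sum_mul,
        mass_Jp hab hsg]
      norm_num
    have h2 : ∑ j ∈ Jp S a b, S.U j a ^ 2 * (S.lam j - S.lam k) ^ 2 =
        (∑ j ∈ Jp S a b, S.U j a ^ 2) * S.lam k ^ 2 -
          2 * S.lam k * (∑ j ∈ Jp S a b, S.U j a ^ 2 * S.lam j) +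
          ∑ j ∈ Jp S a b, S.U j a ^ 2 * S.lam j ^ 2 := by
      rw [Finset.sum_mul, Finset.mul_sum, ← Finset.sum_sub_distrib, ← Finset.sum_add_distrib]
      exact Finset.sum_congr rfl fun k _ => by ring
    rw [h2, mass_Jp hab hsg, p1, p2] at h1
    linarith
  have E3 : (A ^ 2) a a + (A a b) ^ 2 = 2 := by
    have h1 : ∑ j ∈ Jp S a b, S.U j a ^ 2 *
        (S.lam j ^ 2 / 2 + S.lam j * A a b + (A ^ 2) a a / 2) = 1 := by
      rw [Finset.sum_congr rfl fun j hj => by rw [E1 j hj], ← Finset.sum_mul, mass_Jp hab hsg]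
      norm_num
    have h2 : ∑ j ∈ Jp S a b, S.U j a ^ 2 *
        (S.lam j ^ 2 / 2 + S.lam j * A a b + (A ^ 2) a a / 2) =
        (∑ j ∈ Jp S a b, S.U j a ^ 2 * S.lam j ^ 2) / 2 +
        (∑ j ∈ Jp S a b, S.U j a ^ 2 * S.lam j) * A a b +
        (∑ j ∈ Jp S a b, S.U j a ^ 2) * ((A ^ 2) a a / 2) := by
      rw [Finset.sum_div, Finset.sum_mul, Finset.sum_mul, ← Finset.sum_add_distrib,
        ← Finset.sum_add_distrib]
      exact Finset.sum_congr rfl fun k _ => by ring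
    rw [h2, p1, p2, mass_Jp hab hsg] at h1
    linarith
  rcases h01 with h0 | h0
  · exfalso
    rw [h0] at E3
    obtain ⟨j, hj⟩ := Jp_nonempty (S := S) hab hsg
    obtain ⟨k, hk⟩ := Jm_nonempty (S := S) hab hsg
    have e1 := E1 j hj
    have e2 := E2 k hk
    have e3 := hgap j hj k hk
    rw [h0] at e1 e2
    have h1 : S.lam j ^ 2 = 2 := by linarith
    have h2 : S.lam k ^ 2 = 2 := by linarith
    have h3 : S.lam j * S.lam k = 0 := by nlinarith
    have h4 : (S.lam j * S.lam k) ^ 2 = 4 := by rw [mul_pow, h1, h2]; norm_num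
    rw [h3] at h4
    norm_num at h4
  · refine ⟨h0, ?_⟩
    rw [h0] at E3
    linarith

/-- the even case -/
theorem even_concl (B : Matrix V V ℤ) (hB : A = B.map (Int.cast : ℤ → ℝ)) (hab : a ≠ b)
    (hsg : ∀ j, S.U j b = S.U j a ∨ S.U j b = -S.U j a) (s : V → ℝ)
    (hs1 : ∀ z, s z ^ 2 = 1) (hs : ∀ z w, A z w ≠ 0 → s z * s w = -1) (hsab : s a * s b = 1)
    (g : ℝ) (D : ℕ) (n : V → ℤ) (hD1 : 1 ≤ D) (hgD : g ^ 2 = D)
    (hn : ∀ j, S.U j a ≠ 0 → S.lam j = n j * g)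
    (hpar : ∀ j ∈ Jp S a b, ∀ k ∈ Jm S a b, (n j - n k) % 2 = 1)
    (hcut : 1 / 16 ≤ ∑ j ∈ Jp S a b, S.U j a ^ 2 * RR S a (Jm S a b) j ^ 2 +
      ∑ k ∈ Jm S a b, S.U k a ^ 2 * RR S a (Jp S a b) k ^ 2) :
    ((∀ k ∈ Jm S a b, S.lam k = 0) ∧ (∀ j ∈ Jp S a b, S.lam j ^ 2 = 2)) ∨
    (∀ k ∈ Jp S a b, S.lam k = 0) := by
  have hg0 : g ≠ 0 := by
    rintro rfl
    have : (D : ℝ) = 0 := by rw [← hgD]; norm_num
    have : D = 0 := by exact_mod_cast this
    omega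
  -- `D = 1` is impossible
  have hD2 : 2 ≤ D := by
    by_contra hlt
    have hD : D = 1 := by omega
    rw [hD] at hgD
    have hg1 : g = 1 ∨ g = -1 := by
      have h1 : (g - 1) * (g + 1) = 0 := by
        rw [Nat.cast_one] at hgD
        linear_combination hgD
      rcases mul_eq_zero.1 h1 with h | h
      · left; linarith
      · right; linarith
    rcases hg1 with h | h
    · refine no_int B hB hab hsg n (fun j hj => by rw [hn j hj, h, mul_one]) hpar
    · refine no_int B hB hab hsg (fun j => -n j) (fun j hj => by rw [hn j hj, h]; push_cast; ring)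
        (fun j hj k hk => by
          have := hpar j hj k hk
          omega)
  set x : V → ℝ := fun j => S.U j a ^ 2 with hx
  have hxnn : ∀ j, 0 ≤ x j := fun j => sq_nonneg _
  -- `RR` in terms of `tau`
  have comb : ∀ (l μ X : ℝ), l - μ ≠ 0 → l + μ ≠ 0 →
      (X / (l - μ) + X / (l + μ)) / 2 = X * (l / (l ^ 2 - μ ^ 2)) := by
    intro l μ X h1 h2
    have h3 : l ^ 2 - μ ^ 2 ≠ 0 := by
      rw [show l ^ 2 - μ ^ 2 = (l - μ) * (l + μ) by ring]
      exact mul_ne_zero h1 h2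
    rw [show l ^ 2 - μ ^ 2 = (l - μ) * (l + μ) by ring] at h3 ⊢
    field_simp
    ring
  have scal : ∀ (p q : ℤ) (X : ℝ), (p : ℝ) ^ 2 - (q : ℝ) ^ 2 ≠ 0 →
      X * ((p * g) / ((p * g) ^ 2 - (q * g) ^ 2)) * g = X * ((p : ℝ) / ((p : ℝ) ^ 2 - (q : ℝ) ^ 2)) := by
    intro p q X h
    have : (p * g) ^ 2 - (q * g) ^ 2 = ((p : ℝ) ^ 2 - (q : ℝ) ^ 2) * g ^ 2 := by ring
    rw [this]
    field_simp
  have hodd_ne : ∀ p q : ℤ, (p - q) % 2 = 1 → (p : ℝ) * g - q * g ≠ 0 ∧ (p : ℝ) * g + q * g ≠ 0 ∧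
      (p : ℝ) ^ 2 - (q : ℝ) ^ 2 ≠ 0 := by
    intro p q h
    have h1 : p - q ≠ 0 := by omega
    have h2 : p + q ≠ 0 := by omega
    have h1' : (p : ℝ) - q ≠ 0 := by exact_mod_cast h1
    have h2' : (p : ℝ) + q ≠ 0 := by exact_mod_cast h2
    refine ⟨?_, ?_, ?_⟩
    · rw [← sub_mul]; exact mul_ne_zero h1' hg0
    · rw [← add_mul]; exact mul_ne_zero h2' hg0
    · rw [show (p : ℝ) ^ 2 - (q : ℝ) ^ 2 = (p - q) * (p + q) by ring]; exact mul_ne_zero h1' h2'
  have hRp : ∀ j ∈ Jp S a b, RR S a (Jm S a b) j * g = tau x n (Jm S a b) j := by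
    intro j hj
    have h1 := sym_Jm_even (S := S) hsg s hs1 hs hsab (fun y => 1 / (S.lam j - y))
    have h2 : RR S a (Jm S a b) j = ∑ k ∈ Jm S a b, S.U k a ^ 2 * (1 / (S.lam j - S.lam k)) := by
      rw [RR]; exact Finset.sum_congr rfl fun k _ => by ring
    have h3 : RR S a (Jm S a b) j =
        ∑ k ∈ Jm S a b, (x k / (S.lam j - S.lam k) + x k / (S.lam j + S.lam k)) / 2 := by
      rw [← Finset.sum_div, Finset.sum_add_distrib]
      have h4 : ∑ k ∈ Jm S a b, x k / (S.lam j - S.lam k) = RR S a (Jm S a b) j := rfl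
      have h5 : ∑ k ∈ Jm S a b, x k / (S.lam j + S.lam k) = RR S a (Jm S a b) j := by
        rw [h2, ← h1]
        exact Finset.sum_congr rfl fun k _ => by rw [sub_neg_eq_add, hx]; ring
      rw [h4, h5]; ring
    rw [h3, Finset.sum_mul, tau]
    refine Finset.sum_congr rfl fun k hk => ?_
    obtain ⟨u1, u2, u3⟩ := hodd_ne (n j) (n k) (hpar j hj k hk)
    have l1 := hn j (mem_Jp.1 hj).1
    have l2 := hn k (mem_Jm.1 hk).1
    rw [comb _ _ _ (by rw [l1, l2]; exact u1) (by rw [l1, l2]; exact u2), l1, l2]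
    exact scal _ _ _ u3
  have hRm : ∀ k ∈ Jm S a b, RR S a (Jp S a b) k * g = tau x n (Jp S a b) k := by
    intro k hk
    have h1 := sym_Jp_even (S := S) hsg s hs1 hs hsab (fun y => 1 / (S.lam k - y))
    have h2 : RR S a (Jp S a b) k = ∑ j ∈ Jp S a b, S.U j a ^ 2 * (1 / (S.lam k - S.lam j)) := by
      rw [RR]; exact Finset.sum_congr rfl fun k _ => by ring
    have h3 : RR S a (Jp S a b) k =
        ∑ j ∈ Jp S a b, (x j / (S.lam k - S.lam j) + x j / (S.lam k + S.lam j)) / 2 := by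
      rw [← Finset.sum_div, Finset.sum_add_distrib]
      have h4 : ∑ j ∈ Jp S a b, x j / (S.lam k - S.lam j) = RR S a (Jp S a b) k := rfl
      have h5 : ∑ j ∈ Jp S a b, x j / (S.lam k + S.lam j) = RR S a (Jp S a b) k := by
        rw [h2, ← h1]
        exact Finset.sum_congr rfl fun k _ => by rw [sub_neg_eq_add, hx]; ring
      rw [h4, h5]; ring
    rw [h3, Finset.sum_mul, tau]
    refine Finset.sum_congr rfl fun j hj => ?_
    obtain ⟨u1, u2, u3⟩ := hodd_ne (n k) (n j) (by have := hpar j hj k hk; omega)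
    have l1 := hn j (mem_Jp.1 hj).1
    have l2 := hn k (mem_Jm.1 hk).1
    rw [comb _ _ _ (by rw [l1, l2]; exact u1) (by rw [l1, l2]; exact u2), l1, l2]
    exact scal _ _ _ u3
  have hτ : (D : ℝ) / 16 ≤ ∑ j ∈ Jp S a b, x j * tau x n (Jm S a b) j ^ 2 +
      ∑ k ∈ Jm S a b, x k * tau x n (Jp S a b) k ^ 2 := by
    have e1 : ∑ j ∈ Jp S a b, x j * tau x n (Jm S a b) j ^ 2 =
        (∑ j ∈ Jp S a b, S.U j a ^ 2 * RR S a (Jm S a b) j ^ 2) * D := by
      rw [Finset.sum_mul]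
      refine Finset.sum_congr rfl fun j hj => ?_
      rw [← hRp j hj, mul_pow, hgD]; ring
    have e2 : ∑ k ∈ Jm S a b, x k * tau x n (Jp S a b) k ^ 2 =
        (∑ k ∈ Jm S a b, S.U k a ^ 2 * RR S a (Jp S a b) k ^ 2) * D := by
      rw [Finset.sum_mul]
      refine Finset.sum_congr rfl fun j hj => ?_
      rw [← hRm j hj, mul_pow, hgD]; ring
    rw [e1, e2, ← add_mul]
    have := mul_le_mul_of_nonneg_right hcut (Nat.cast_nonneg (α := ℝ) D)
    linarith
  obtain ⟨j0, hj0⟩ := Jp_nonempty (S := S) hab hsg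
  obtain ⟨k0, hk0⟩ := Jm_nonempty (S := S) hab hsg
  have hD2r : (2 : ℝ) ≤ D := by exact_mod_cast hD2
  have hxp : ∀ j ∈ Jp S a b, x j ≠ 0 := fun j hj => by
    have := (mem_Jp.1 hj).1
    exact pow_ne_zero 2 this
  have hxm : ∀ j ∈ Jm S a b, x j ≠ 0 := fun j hj => by
    have := (mem_Jm.1 hj).1
    exact pow_ne_zero 2 this
  rcases Int.emod_two_eq_zero_or_one (n j0) with hc | hc
  · -- `Jp` even
    right
    have hE : ∀ j ∈ Jp S a b, n j % 2 = 0 := by
      intro j hj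
      have h1 := hpar j hj k0 hk0
      have h2 := hpar j0 hj0 k0 hk0
      omega
    have hO : ∀ k ∈ Jm S a b, n k % 2 = 1 := by
      intro k hk
      have h1 := hpar j0 hj0 k hk
      omega
    obtain ⟨_, h2⟩ := numeric (Jp S a b) (Jm S a b) x hxnn n hE hO (mass_Jp hab hsg)
      (mass_Jm hab hsg)
    have h3 := (h2 (by linarith)).1
    intro k hk
    rw [hn k (mem_Jp.1 hk).1, h3 k hk (hxp k hk)]
    simp
  · left
    have hO : ∀ j ∈ Jp S a b, n j % 2 = 1 := by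
      intro j hj
      have h1 := hpar j hj k0 hk0
      have h2 := hpar j0 hj0 k0 hk0
      omega
    have hE : ∀ k ∈ Jm S a b, n k % 2 = 0 := by
      intro k hk
      have h1 := hpar j0 hj0 k hk
      omega
    obtain ⟨h1, h2⟩ := numeric (Jm S a b) (Jp S a b) x hxnn n hE hO (mass_Jm hab hsg)
      (mass_Jp hab hsg)
    have h3 := h2 (by linarith)
    have hDle : (D : ℝ) ≤ 2 := by linarith
    have hDeq : (D : ℝ) = 2 := le_antisymm hDle hD2r
    constructor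
    · intro k hk
      rw [hn k (mem_Jm.1 hk).1, h3.1 k hk (hxm k hk)]
      simp
    · intro j hj
      have h4 : (n j : ℝ) ^ 2 = 1 := by exact_mod_cast h3.2 j hj (hxp j hj)
      rw [hn j (mem_Jp.1 hj).1, mul_pow, h4, hgD, hDeq]
      norm_num

end

end Pool.Agent.Helper353.PST
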