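import Pool.Agent.Helper353.PST.Tree5

/-! Trees with perfect state transfer have at most three vertices. -/

set_option autoImplicit false

open Finset Polynomial

namespace Pool.Agent.Helper353.PST

variable {V : Type} [Fintype V] [DecidableEq V]

/-- A tree has a one-edge cut next to `a` separating `a` from `b`. -/
theorem exists_cut (G : SimpleGraph V) [DecidableRel G.Adj] (hG : G.IsTree) (a b : V)
    (hab : a ≠ b) :
    ∃ (p : V) (B : Finset V), p ∈ B ∧ a ∉ B ∧ b ∈ B ∧ G.Adj p a ∧
      ∀ z ∈ B, ∀ w, w ∉ B → G.Adj z w → z = p ∧ w = a := by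
  classical
  obtain ⟨w⟩ := hG.connected.preconnected a b
  obtain ⟨P, hP⟩ := w.toPath
  cases P with
  | nil => exact absurd rfl hab
  | @cons _ p _ hadj q =>
    rw [SimpleGraph.Walk.cons_isPath_iff] at hP
    have hbr := SimpleGraph.isAcyclic_iff_forall_adj_isBridge.1 hG.isAcyclic hadj
    rw [SimpleGraph.isBridge_iff] at hbr
    set G' := G.deleteEdges {s(a, p)} with hG'
    have hq : G'.Reachable p b := by
      refine ⟨q.transfer G' ?_⟩
      intro e he
      rw [hG', SimpleGraph.edgeSet_deleteEdges]
      refine ⟨q.edges_subset_edgeSet he, ?_⟩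
      intro h1
      rw [Set.mem_singleton_iff] at h1
      rw [h1] at he
      exact hP.2 (q.fst_mem_support_of_mem_edges he)
    refine ⟨p, univ.filter fun z => G'.Reachable p z, ?_, ?_, ?_, hadj.symm, ?_⟩
    · simp
    · simp only [Finset.mem_filter, Finset.mem_univ, true_and]
      intro h
      exact hbr h.symm
    · simpa using hq
    · intro z hz w hw hzw
      simp only [Finset.mem_filter, Finset.mem_univ, true_and] at hz hw
      by_cases hs : s(z, w) = s(a, p)
      · rw [Sym2.eq_iff] at hs
        rcases hs with ⟨h1, h2⟩ | ⟨h1, h2⟩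
        · exfalso
          rw [h1] at hz
          exact hbr hz.symm
        · exact ⟨h1, h2⟩
      · exfalso
        apply hw
        refine hz.trans (SimpleGraph.Adj.reachable ?_)
        rw [hG', SimpleGraph.deleteEdges_adj]
        exact ⟨hzw, hs⟩

/-- **No perfect state transfer in trees with more than three vertices.** -/
theorem tree_pst (G : SimpleGraph V) [DecidableRel G.Adj] (hG : G.IsTree) (a b : V) (hab : a ≠ b)
    (t : ℝ) (γ : ℂ) (hγ : ‖γ‖ = 1)
    (h : (NormedSpace.exp ((Complex.I * (t : ℂ)) • G.adjMatrix ℂ)).mulVec (Pi.single a 1) =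
      γ • Pi.single b 1) : Fintype.card V ≤ 3 := by
  classical
  set A : Matrix V V ℝ := G.adjMatrix ℝ with hAdef
  have hA01 : ∀ z w, A z w = if G.Adj z w then 1 else 0 := fun z w => by
    rw [hAdef, SimpleGraph.adjMatrix_apply]
  have hAnn : ∀ z w, 0 ≤ A z w := fun z w => by rw [hA01]; split_ifs <;> norm_num
  have hsymm : ∀ z w, A z w = A w z := fun z w => by
    rw [hA01, hA01]; simp only [G.adj_comm]
  have hAt : A.transpose = A := by
    ext z w
    exact hsymm w z
  have hAH : A.IsHermitian := by
    rw [Matrix.IsHermitian, Matrix.conjTranspose_eq_transpose_of_trivial]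
    exact hAt
  obtain ⟨S⟩ := exists_SD A hAH
  set B : Matrix V V ℤ := G.adjMatrix ℤ with hBdef
  have hB : A = B.map (Int.cast : ℤ → ℝ) := by
    ext z w
    rw [hA01, Matrix.map_apply, hBdef, SimpleGraph.adjMatrix_apply]
    split_ifs <;> simp
  have hAC : A.map (fun x : ℝ => (x : ℂ)) = G.adjMatrix ℂ := by
    ext z w
    rw [Matrix.map_apply, hA01, SimpleGraph.adjMatrix_apply]
    split_ifs <;> simp
  have hph : ∀ j, Complex.exp (Complex.I * t * S.lam j) * S.U j a = γ * S.U j b := by
    apply phase S hAt a b t γ
    rw [hAC]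
    exact h
  have hsg := sign_of_phase S a b t γ hγ hph
  obtain ⟨p, C, hpC, haC, hbC, hpa, hcutC⟩ := exists_cut G hG a b hab
  have hpa1 : A p a = 1 := by rw [hA01, if_pos hpa]
  have hadj_ne : ∀ z w, A z w ≠ 0 → G.Adj z w := by
    intro z w hzw
    by_contra hcon
    rw [hA01, if_neg hcon] at hzw
    exact hzw rfl
  -- the eigenvalues of the two classes are different
  obtain ⟨hpp, hpm⟩ := phase_re_im (S := S) (a := a) (b := b) t γ hph
  have hne : ∀ j ∈ Jp S a b, ∀ k ∈ Jm S a b, S.lam j ≠ S.lam k := by
    intro j hj k hk heq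
    have c1 := hpp j hj
    have c2 := hpm k hk
    rw [heq] at c1
    have h1 : γ.re = 0 := by linarith [c1.1, c2.1]
    have h2 : γ.im = 0 := by linarith [c1.2, c2.2]
    have h3 : γ = 0 := Complex.ext h1 h2
    rw [h3] at hγ
    simp at hγ
  have hcut := cut_ineq (S := S) hab hsg hsymm p C hpC haC hbC
    (fun z hz w hw hzw => hcutC z hz w hw (hadj_ne z w hzw)) hpa1 hne
  -- the bipartition
  obtain ⟨c⟩ : Nonempty (G.Coloring (Fin 2)) := hG.isAcyclic.colorable_two
  set s : V → ℝ := fun z => if c z = 0 then 1 else -1 with hs
  have hs1 : ∀ z, s z ^ 2 = 1 := fun z => by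
    simp only [hs]; split_ifs <;> norm_num
  have hsA : ∀ z w, A z w ≠ 0 → s z * s w = -1 := by
    intro z w hzw
    have h1 := c.valid (hadj_ne z w hzw)
    simp only [hs]
    by_cases h2 : c z = 0 <;> by_cases h3 : c w = 0
    · exact absurd (h2.trans h3.symm) h1
    · rw [if_pos h2, if_neg h3]; norm_num
    · rw [if_neg h2, if_pos h3]; norm_num
    · exfalso
      apply h1
      have e1 : c z = 1 := by omega
      have e2 : c w = 1 := by omega
      rw [e1, e2]
  have hsab : s a * s b = 1 ∨ s a * s b = -1 := by
    simp only [hs]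
    split_ifs <;> norm_num
  -- degrees
  have hsq : ∀ z, (A ^ 2) z z = ∑ w, A z w := by
    intro z
    rw [pow_two, Matrix.mul_apply]
    refine Finset.sum_congr rfl fun w _ => ?_
    rw [hsymm w z, hA01]
    split_ifs <;> norm_num
  rcases hsab with hsab | hsab
  · -- even distance
    obtain ⟨g, D, n, hD1, hgD, hn, hpar⟩ := lattice_even B hB hab hsg s hs1 hsA hsab t γ hγ hph
    rcases even_concl B hB hab hsg s hs1 hsA hsab g D n hD1 hgD hn hpar hcut with ⟨h0, h2⟩ | h0
    · have e1 : ∀ z, A z a = A z b := by
        intro z
        rw [← entry1 S z a, ← entry1 S z b]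
        refine Finset.sum_congr rfl fun j _ => ?_
        by_cases hj : S.U j a = 0
        · have : S.U j b = 0 := by rcases hsg j with h1 | h1 <;> simp [h1, hj]
          rw [hj, this]
        · rcases mem_J_of_ne hsg hj with h1 | h1
          · rw [(mem_Jp.1 h1).2]
          · rw [h0 j h1]; ring
      have e2 : ∀ z, (A ^ 2) z a = (if z = a then 1 else 0) + (if z = b then 1 else 0) := by
        intro z
        rw [← S.compl z a, ← S.compl z b, ← entry2 S z a, ← Finset.sum_add_distrib]
        refine Finset.sum_congr rfl fun j _ => ?_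
        by_cases hj : S.U j a = 0
        · have : S.U j b = 0 := by rcases hsg j with h1 | h1 <;> simp [h1, hj]
          rw [hj, this]; ring
        · rcases mem_J_of_ne hsg hj with h1 | h1
          · rw [(mem_Jp.1 h1).2, h2 j h1]; ring
          · rw [(mem_Jm.1 h1).2, h0 j h1]; ring
      have e3 : ∑ w, A a w = 1 := by
        rw [← hsq a, e2 a, if_pos rfl, if_neg hab, add_zero]
      have hnb : ∀ w, w ≠ p → A a w = 0 := by
        intro w hw
        have h3 : A a p = 1 := by rw [hsymm, hpa1]
        have h4 : A a p + A a w ≤ ∑ w, A a w := by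
          have := Finset.add_le_sum (s := univ) (f := fun w => A a w)
            (fun i _ => hAnn a i) (Finset.mem_univ p) (Finset.mem_univ w) (Ne.symm hw)
          exact this
        have := hAnn a w
        linarith
      have e4 : ∀ z, A z p = (if z = a then 1 else 0) + (if z = b then 1 else 0) := by
        intro z
        rw [← e2 z, pow_two, Matrix.mul_apply, Finset.sum_eq_single p]
        · rw [hpa1, mul_one]
        · intro w _ hw
          rw [hsymm w a, hnb w hw, mul_zero]
        · intro hh
          exact absurd (Finset.mem_univ p) hh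
      refine card_le_three a b p fun z => ?_
      refine closed_reach G hG.connected (fun z => z = a ∨ z = b ∨ z = p) a (Or.inl rfl) ?_ z
      rintro z w (rfl | rfl | rfl) hzw
      · right; right
        by_contra hwp
        have := hnb w hwp
        rw [hA01, if_pos hzw] at this
        norm_num at this
      · right; right
        by_contra hwp
        have h5 := hnb w hwp
        rw [hsymm, e1 w, hsymm, hA01, if_pos hzw] at h5
        norm_num at h5
      · by_contra hcon
        push Not at hcon
        have h5 := e4 w
        rw [if_neg hcon.1, if_neg hcon.2.1, hsymm, hA01, if_pos hzw] at h5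
        norm_num at h5
    · exfalso
      have e1 : A p a + A p b = 0 := by
        rw [← entry1 S p a, ← entry1 S p b, ← Finset.sum_add_distrib]
        refine Finset.sum_eq_zero fun j _ => ?_
        by_cases hj : S.U j a = 0
        · have : S.U j b = 0 := by rcases hsg j with h1 | h1 <;> simp [h1, hj]
          rw [hj, this]; ring
        · rcases mem_J_of_ne hsg hj with h1 | h1
          · rw [h0 j h1]; ring
          · rw [(mem_Jm.1 h1).2]; ring
      have := hAnn p b
      linarith
  · -- odd distance
    have hgap := gap_odd B hB hab hsg s hs1 hsA hsab t γ hγ hph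
    have hgap2 := odd_gap_eq hab hsg hgap hcut
    have haa : A a a = 0 := by rw [hA01, if_neg (G.loopless.irrefl a)]
    have h2ab : (A ^ 2) a b = 0 := by
      have := pow_sign s hs1 hsA 2 a b
      rw [hsab] at this
      linarith
    have h01 : A a b = 0 ∨ A a b = 1 := by
      rw [hA01]; split_ifs <;> simp
    obtain ⟨h1, h2⟩ := odd_moments hab hsg haa h2ab h01 hgap2
    have hdb : (A ^ 2) b b = 1 := by
      rw [← h2, ← entry2 S b b, ← entry2 S a a]
      refine Finset.sum_congr rfl fun j _ => ?_
      rcases hsg j with h3 | h3 <;> rw [h3] <;> ring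
    rw [hsq] at h2 hdb
    have hnba : ∀ w, w ≠ b → A a w = 0 := by
      intro w hw
      have h4 : A a b + A a w ≤ ∑ w, A a w :=
        Finset.add_le_sum (s := univ) (f := fun w => A a w)
          (fun i _ => hAnn a i) (Finset.mem_univ b) (Finset.mem_univ w) (Ne.symm hw)
      have := hAnn a w
      linarith
    have hnbb : ∀ w, w ≠ a → A b w = 0 := by
      intro w hw
      have h3 : A b a = 1 := by rw [hsymm, h1]
      have h4 : A b a + A b w ≤ ∑ w, A b w :=
        Finset.add_le_sum (s := univ) (f := fun w => A b w)
          (fun i _ => hAnn b i) (Finset.mem_univ a) (Finset.mem_univ w) (Ne.symm hw)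
      have := hAnn b w
      linarith
    refine card_le_three a b b fun z => ?_
    have := closed_reach G hG.connected (fun z => z = a ∨ z = b) a (Or.inl rfl) ?_ z
    · tauto
    rintro z w (rfl | rfl) hzw
    · right
      by_contra hwp
      have := hnba w hwp
      rw [hA01, if_pos hzw] at this
      norm_num at this
    · left
      by_contra hwp
      have := hnbb w hwp
      rw [hA01, if_pos hzw] at this
      norm_num at this

end Pool.Agent.Helper353.PST
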